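import Pool.Agent.Y55.DS.Nondeg

/-! Correlations of products of strongly multiplicative functions along arithmetic progressions. -/

set_option autoImplicit false

namespace Pool.Agent.Y55.DS

open Finset

/-- a periodic function over a complete residue system -/
theorem block_sum {M : Type*} [AddCommMonoid M] {Q D : ℕ} (hQ : 0 < Q) (hD : Nat.Coprime D Q) (W : ℕ → M)
    (hW : ∀ n, W n = W (n % Q)) (m0 b : ℕ) : ∑ j ∈ range Q, W (m0 + D * (b + j)) = ∑ c ∈ range Q, W c := by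
  set g : ℕ → ℕ := fun j => (m0 + D * (b + j)) % Q with hg
  have hinj : Set.InjOn g (range Q : Set ℕ) := by
    intro x hx y hy hxy
    rw [mem_coe, mem_range] at hx hy
    have h1 : m0 + D * (b + x) ≡ m0 + D * (b + y) [MOD Q] := hxy
    have h2 : D * (b + x) ≡ D * (b + y) [MOD Q] := Nat.ModEq.add_left_cancel' m0 h1
    have h3 : b + x ≡ b + y [MOD Q] := Nat.ModEq.cancel_left_of_coprime (by rw [Nat.gcd_comm]; exact hD) h2
    have h4 : x ≡ y [MOD Q] := Nat.ModEq.add_left_cancel' b h3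
    exact Nat.ModEq.eq_of_lt_of_lt h4 hx hy
  have himg : (range Q).image g = range Q := by
    apply Finset.eq_of_subset_of_card_le
    · intro x hx
      rw [mem_image] at hx
      obtain ⟨j, _, rfl⟩ := hx
      rw [mem_range]; exact Nat.mod_lt _ hQ
    · rw [card_image_of_injOn hinj]
  calc ∑ j ∈ range Q, W (m0 + D * (b + j)) = ∑ j ∈ range Q, W (g j) := sum_congr rfl fun j _ => hW _
    _ = ∑ c ∈ (range Q).image g, W c := (sum_image (f := W) hinj).symm
    _ = _ := by rw [himg]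

theorem blocks_sum {M : Type*} [AddCommMonoid M] {Q D : ℕ} (hQ : 0 < Q) (hD : Nat.Coprime D Q) (W : ℕ → M)
    (hW : ∀ n, W n = W (n % Q)) (m0 : ℕ) : ∀ b : ℕ, ∑ j ∈ range (Q * b), W (m0 + D * j) = b • ∑ c ∈ range Q, W c := by
  intro b
  induction b with
  | zero => simp
  | succ b ih =>
    rw [Nat.mul_succ, sum_range_add, ih, block_sum hQ hD W hW, succ_nsmul]

theorem sum_ap {Q D : ℕ} (hQ : 0 < Q) (hD : Nat.Coprime D Q) (W : ℕ → ℂ) (hW : ∀ n, W n = W (n % Q))
    (hW1 : ∀ n, ‖W n‖ ≤ 1) (m0 J : ℕ) :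
    ‖∑ j ∈ range J, W (m0 + D * j)‖ ≤ (J / Q : ℕ) * ‖∑ c ∈ range Q, W c‖ + Q := by
  have e : J = Q * (J / Q) + J % Q := (Nat.div_add_mod J Q).symm
  have h1 : ∑ j ∈ range J, W (m0 + D * j) = (J / Q) • ∑ c ∈ range Q, W c
      + ∑ j ∈ range (J % Q), W (m0 + D * (Q * (J / Q) + j)) := by
    conv_lhs => rw [e]
    rw [sum_range_add, blocks_sum hQ hD W hW]
  rw [h1]
  refine (norm_add_le _ _).trans (add_le_add ?_ ?_)
  · rw [nsmul_eq_mul, norm_mul, Complex.norm_natCast]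
  · refine (norm_sum_le _ _).trans ((sum_le_sum fun j _ => hW1 _).trans ?_)
    rw [sum_const, card_range, nsmul_eq_mul, mul_one]
    exact_mod_cast (Nat.mod_lt _ hQ).le

theorem count_ap {Q D : ℕ} (hQ : 0 < Q) (hD : Nat.Coprime D Q) (P : ℕ → Prop) [DecidablePred P] (m0 J : ℕ) :
    ∑ j ∈ range J, (if P ((m0 + D * j) % Q) then 1 else 0) ≤ (J / Q + 1) * ∑ c ∈ range Q, (if P c then 1 else 0) := by
  set W : ℕ → ℕ := fun n => if P (n % Q) then 1 else 0 with hWdef
  have hW : ∀ n, W n = W (n % Q) := fun n => by rw [hWdef]; simp only [Nat.mod_mod]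
  have h1 : ∑ j ∈ range J, W (m0 + D * j) ≤ ∑ j ∈ range (Q * (J / Q + 1)), W (m0 + D * j) := by
    apply sum_le_sum_of_subset
    intro j hj
    rw [mem_range] at hj ⊢
    have := Nat.div_add_mod J Q
    have h2 := Nat.mod_lt J hQ
    rw [Nat.mul_succ]
    omega
  refine h1.trans ?_
  rw [blocks_sum hQ hD W hW, smul_eq_mul]
  apply Nat.mul_le_mul_left
  apply le_of_eq
  apply sum_congr rfl
  intro c hc
  rw [mem_range] at hc
  simp only [hWdef, Nat.mod_eq_of_lt hc]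

/-- two coprime moduli -/
theorem crt_two {Q1 Q2 : ℕ} (h1 : 0 < Q1) (h2 : 0 < Q2) (hc : Nat.Coprime Q1 Q2) (A B : ℕ → ℂ)
    (hA : ∀ n, A n = A (n % Q1)) (hB : ∀ n, B n = B (n % Q2)) :
    ∑ c ∈ range (Q1 * Q2), A c * B c = (∑ c ∈ range Q1, A c) * ∑ c ∈ range Q2, B c := by
  set g : ℕ → ℕ × ℕ := fun c => (c % Q1, c % Q2) with hg
  have hinj : Set.InjOn g (range (Q1 * Q2) : Set ℕ) := by
    intro x hx y hy hxy
    rw [mem_coe, mem_range] at hx hy
    rw [hg] at hxy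
    simp only [Prod.mk.injEq] at hxy
    have h3 : x ≡ y [MOD (Q1 * Q2)] := (Nat.modEq_and_modEq_iff_modEq_mul hc).1 ⟨hxy.1, hxy.2⟩
    exact Nat.ModEq.eq_of_lt_of_lt h3 hx hy
  have himg : (range (Q1 * Q2)).image g = range Q1 ×ˢ range Q2 := by
    apply Finset.eq_of_subset_of_card_le
    · intro x hx
      rw [mem_image] at hx
      obtain ⟨j, _, rfl⟩ := hx
      rw [mem_product, mem_range, mem_range]
      exact ⟨Nat.mod_lt _ h1, Nat.mod_lt _ h2⟩
    · rw [card_image_of_injOn hinj, card_product, card_range, card_range, card_range]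
  calc ∑ c ∈ range (Q1 * Q2), A c * B c = ∑ c ∈ range (Q1 * Q2), (fun p : ℕ × ℕ => A p.1 * B p.2) (g c) := by
        apply sum_congr rfl
        intro c _
        rw [hA c, hB c]
    _ = ∑ p ∈ (range (Q1 * Q2)).image g, A p.1 * B p.2 := (sum_image (f := fun p : ℕ × ℕ => A p.1 * B p.2) hinj).symm
    _ = _ := by rw [himg, sum_product, sum_mul_sum]

theorem crt_prod {ι : Type*} [DecidableEq ι] (Q : ι → ℕ) (hQ : ∀ i, 0 < Q i) (hc : ∀ i j, i ≠ j → Nat.Coprime (Q i) (Q j))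
    (W : ι → ℕ → ℂ) (hW : ∀ i n, W i n = W i (n % Q i)) (s : Finset ι) :
    (∀ n, ∏ i ∈ s, W i n = ∏ i ∈ s, W i (n % ∏ i ∈ s, Q i)) ∧
    ∑ c ∈ range (∏ i ∈ s, Q i), ∏ i ∈ s, W i c = ∏ i ∈ s, ∑ c ∈ range (Q i), W i c := by
  induction s using Finset.induction_on with
  | empty => simp
  | insert a s ha ih =>
    have h1 : 0 < ∏ i ∈ s, Q i := prod_pos fun i _ => hQ i
    have hco : Nat.Coprime (Q a) (∏ i ∈ s, Q i) := by
      apply Nat.Coprime.prod_right
      intro i hi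
      apply hc
      rintro rfl
      exact ha hi
    constructor
    · intro n
      apply prod_congr rfl
      intro i hi
      rw [hW i n, hW i (n % ∏ i ∈ insert a s, Q i)]
      congr 1
      rw [Nat.mod_mod_of_dvd _ (dvd_prod_of_mem Q hi)]
    · rw [prod_insert ha, prod_insert ha]
      have e : ∀ c, ∏ i ∈ insert a s, W i c = W a c * ∏ i ∈ s, W i c := fun c => prod_insert ha
      simp only [e]
      rw [crt_two (hQ a) h1 hco (W a) (fun c => ∏ i ∈ s, W i c) (hW a) ih.1, ih.2]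

/-- the periodic approximation of a correlation -/
noncomputable def Ph (f : ℕ → ℂ) (Q h n : ℕ) : ℂ :=
  if n % Q + h < Q then f (n % Q) * (starRingEnd ℂ) (f (n % Q + h)) else 0

theorem Ph_mod (f : ℕ → ℂ) (Q h n : ℕ) : Ph f Q h n = Ph f Q h (n % Q) := by
  unfold Ph; rw [Nat.mod_mod]

theorem Ph_sum (f : ℕ → ℂ) (Q h : ℕ) : ∑ c ∈ range Q, Ph f Q h c = Co f Q h := by
  unfold Ph Co
  have e1 : ∀ c ∈ range Q, (if c % Q + h < Q then f (c % Q) * (starRingEnd ℂ) (f (c % Q + h)) else 0)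
      = if c < Q - h then f c * (starRingEnd ℂ) (f (c + h)) else 0 := by
    intro c hc
    rw [mem_range] at hc
    rw [Nat.mod_eq_of_lt hc]
    by_cases h1 : c + h < Q
    · rw [if_pos h1, if_pos (by omega)]
    · rw [if_neg h1, if_neg (by omega)]
  rw [sum_congr rfl e1, ← sum_filter]
  apply sum_congr _ fun _ _ => rfl
  ext c
  rw [mem_filter, mem_range, mem_range]
  omega

theorem Ph_norm {Q : ℕ} {f : ℕ → ℂ} (hf : SM Q f) (h n : ℕ) : ‖Ph f Q h n‖ ≤ 1 := by
  unfold Ph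
  split_ifs
  · rw [norm_term hf]
  · rw [norm_zero]; exact zero_le_one

theorem Ph_eq {Q : ℕ} {f : ℕ → ℂ} (hf : SM Q f) {h n : ℕ} (hn : n % Q + h < Q) :
    f n * (starRingEnd ℂ) (f (n + h)) = Ph f Q h n := by
  have hQ : 0 < Q := by omega
  unfold Ph
  rw [if_pos hn]
  have e1 : f n = f (n / Q) * f (n % Q) := by
    rw [← hf.2 _ _ (Nat.mod_lt _ hQ), Nat.div_add_mod]
  have e2 : f (n + h) = f (n / Q) * f (n % Q + h) := by
    rw [← hf.2 _ _ hn]
    congr 1
    have := Nat.div_add_mod n Q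
    omega
  have e3 : f (n / Q) * (starRingEnd ℂ) (f (n / Q)) = 1 := by
    rw [Complex.mul_conj, Complex.normSq_eq_norm_sq, hf.1]; norm_num
  rw [e1, e2, map_mul]
  calc f (n / Q) * f (n % Q) * ((starRingEnd ℂ) (f (n / Q)) * (starRingEnd ℂ) (f (n % Q + h)))
      = (f (n / Q) * (starRingEnd ℂ) (f (n / Q))) * (f (n % Q) * (starRingEnd ℂ) (f (n % Q + h))) := by ring
    _ = _ := by rw [e3, one_mul]

/-- the correlation of a product along an arithmetic progression -/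
theorem corr {ι : Type*} [Fintype ι] [DecidableEq ι] (Q : ι → ℕ) (hQ : ∀ i, 0 < Q i)
    (hc : ∀ i j, i ≠ j → Nat.Coprime (Q i) (Q j)) {D : ℕ} (hD : ∀ i, Nat.Coprime D (Q i)) {f : ι → ℕ → ℂ}
    (hf : ∀ i, SM (Q i) (f i)) {w : ℕ → ℂ} {h : ℕ} {w0 : ℂ} (hw0 : ‖w0‖ = 1)
    (hw : ∀ n, w n * (starRingEnd ℂ) (w (n + h)) = w0) (m0 J : ℕ) :
    ‖∑ j ∈ range J, (w (m0 + D * j) * ∏ i, f i (m0 + D * j)) *
      (starRingEnd ℂ) (w (m0 + D * j + h) * ∏ i, f i (m0 + D * j + h))‖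
      ≤ (J / ∏ i, Q i : ℕ) * ∏ i, ‖Co (f i) (Q i) h‖ + (∏ i, Q i : ℕ) + ∑ i, ((J / Q i : ℕ) + 1) * (h : ℝ) := by
  classical
  set W : ℕ → ℂ := fun n => ∏ i, Ph (f i) (Q i) h n with hW
  have hQQ : 0 < ∏ i, Q i := prod_pos fun i _ => hQ i
  obtain ⟨hWm, hWs⟩ := crt_prod Q hQ hc (fun i => Ph (f i) (Q i) h) (fun i n => Ph_mod _ _ _ _) univ
  have hW1 : ∀ n, ‖W n‖ ≤ 1 := by
    intro n
    rw [hW]
    simp only [norm_prod]
    apply prod_le_one (fun i _ => norm_nonneg _) fun i _ => Ph_norm (hf i) h n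
  have hDQ : Nat.Coprime D (∏ i, Q i) := Nat.Coprime.prod_right fun i _ => hD i
  have h1 := sum_ap hQQ hDQ W hWm hW1 m0 J
  have h2 : ‖∑ c ∈ range (∏ i, Q i), W c‖ = ∏ i, ‖Co (f i) (Q i) h‖ := by
    rw [hW, hWs, norm_prod]
    apply prod_congr rfl
    intro i _
    rw [Ph_sum]
  rw [h2] at h1
  -- the terms
  have h3 : ∀ n, (w n * ∏ i, f i n) * (starRingEnd ℂ) (w (n + h) * ∏ i, f i (n + h))
      = w0 * ∏ i, (f i n * (starRingEnd ℂ) (f i (n + h))) := by
    intro n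
    rw [map_mul, map_prod, prod_mul_distrib, ← hw n]
    ring
  have h4 : ∀ n, ‖(w n * ∏ i, f i n) * (starRingEnd ℂ) (w (n + h) * ∏ i, f i (n + h)) - w0 * W n‖
      ≤ ∑ i, (if ¬ n % Q i + h < Q i then (1 : ℝ) else 0) := by
    intro n
    rw [h3, ← mul_sub, norm_mul, hw0, one_mul]
    by_cases hall : ∀ i, n % Q i + h < Q i
    · have e : ∏ i, (f i n * (starRingEnd ℂ) (f i (n + h))) = W n := by
        rw [hW]
        exact prod_congr rfl fun i _ => Ph_eq (hf i) (hall i)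
      rw [e, sub_self, norm_zero]
      exact sum_nonneg fun i _ => by split_ifs <;> norm_num
    · push Not at hall
      obtain ⟨i0, hi0⟩ := hall
      have e : W n = 0 := by
        rw [hW]
        apply prod_eq_zero (mem_univ i0)
        unfold Ph
        rw [if_neg (by omega)]
      rw [e, sub_zero, norm_prod, prod_congr rfl fun i _ => norm_term (hf i) _ _, prod_const_one]
      have e2 : (if ¬ n % Q i0 + h < Q i0 then (1 : ℝ) else 0) = 1 := if_pos (by omega)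
      calc (1 : ℝ) = (if ¬ n % Q i0 + h < Q i0 then (1 : ℝ) else 0) := e2.symm
        _ ≤ _ := single_le_sum (f := fun i => (if ¬ n % Q i + h < Q i then (1 : ℝ) else 0))
            (fun i _ => by split_ifs <;> norm_num) (mem_univ i0)
  have h5 : ∑ j ∈ range J, (w (m0 + D * j) * ∏ i, f i (m0 + D * j)) *
      (starRingEnd ℂ) (w (m0 + D * j + h) * ∏ i, f i (m0 + D * j + h))
      = w0 * ∑ j ∈ range J, W (m0 + D * j) + ∑ j ∈ range J, ((w (m0 + D * j) * ∏ i, f i (m0 + D * j)) *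
      (starRingEnd ℂ) (w (m0 + D * j + h) * ∏ i, f i (m0 + D * j + h)) - w0 * W (m0 + D * j)) := by
    rw [mul_sum, ← sum_add_distrib]
    apply sum_congr rfl
    intro j _; ring
  rw [h5]
  refine (norm_add_le _ _).trans ?_
  rw [norm_mul, hw0, one_mul]
  refine add_le_add h1 ?_
  refine (norm_sum_le _ _).trans ((sum_le_sum fun j _ => h4 _).trans ?_)
  rw [sum_comm]
  apply sum_le_sum
  intro i _
  have h6 := count_ap (hQ i) (hD i) (fun c => ¬ c + h < Q i) m0 J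
  have h7 : ∑ c ∈ range (Q i), (if ¬ c + h < Q i then 1 else 0) ≤ h := by
    rw [← card_filter]
    have : (range (Q i)).filter (fun c => ¬ c + h < Q i) ⊆ Ico (Q i - h) (Q i) := by
      intro c hc
      rw [mem_filter, mem_range] at hc
      rw [mem_Ico]; omega
    have h8 := card_le_card this
    rw [Nat.card_Ico] at h8
    omega
  have h8 := h6.trans (Nat.mul_le_mul_left _ h7)
  exact_mod_cast h8

end Pool.Agent.Y55.DS
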