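import Pool.Agent.Y55.DS.Kim2
import Pool.Agent.W41.FU8

/-! Densities of invariant sets in periodic sets and in the classes. -/

set_option autoImplicit false

namespace Pool.Agent.Y55.DS

open Finset Filter Topology

theorem e_ee (l L : ℕ) (n : ℕ) : e ((l : ℝ) / L * n) = Pool.Agent.W41.FU.ee ((l : ℝ) / L) (n : ℕ) := by
  unfold e Pool.Agent.W41.FU.ee
  congr 1
  push_cast; ring

open Classical in
/-- periodic sets -/
theorem ap_small {s : ℤ} (hs : s = 1 ∨ s = -1) {ε : ℝ} (hε : 0 < ε) {L : ℕ} (hL : 1 ≤ L) : ∃ N0 : ℕ,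
    ∀ S : Set ℤ, Pool.Agent.H499R2.ND.Inv 1 S → ∀ δ : ℝ, Pool.Agent.H499R2.ND.HD s S δ → ∀ N : ℕ, N0 ≤ N →
    ∀ P : ℕ → Prop, (∀ n, P n ↔ P (n % L)) →
      |∑ n ∈ (Icc 1 N).filter P, Pool.Agent.W41.FU.bal s S δ (n : ℕ)| ≤ ε * N := by
  have hLR : (0 : ℝ) < L := by exact_mod_cast hL
  set ε' : ℝ := min (ε / L) 1 with hε'
  have hε'0 : 0 < ε' := lt_min (by positivity) one_pos
  obtain ⟨N0, -, H⟩ := Pool.Agent.W41.FU.fourier_inv hs hε'0 (min_le_right _ _)
  refine ⟨N0, fun S hS δ hδ N hN P hP => ?_⟩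
  have H1 := H S hS δ hδ N hN
  set G : ℤ → ℝ := Pool.Agent.W41.FU.bal s S δ with hG
  have h1 : ((L * ∑ n ∈ (Icc 1 N).filter P, G (n : ℕ) : ℝ) : ℂ)
      = ∑ r ∈ (range L).filter P, ∑ l ∈ range L, e (-((l : ℝ) / L * r)) * Pool.Agent.W41.FU.EE G N ((l : ℝ) / L) := by
    have e1 : ∀ r l : ℕ, e (-((l : ℝ) / L * r)) * Pool.Agent.W41.FU.EE G N ((l : ℝ) / L)
        = ∑ n ∈ Icc 1 N, (G (n : ℕ) : ℂ) * e (l * (((n : ℤ) - (r : ℤ) : ℤ) : ℝ) / L) := by
      intro r l
      unfold Pool.Agent.W41.FU.EE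
      rw [mul_sum]
      apply sum_congr rfl
      intro n _
      rw [← e_ee]
      have e2 : e (l * (((n : ℤ) - (r : ℤ) : ℤ) : ℝ) / L) = e (-((l : ℝ) / L * r)) * e ((l : ℝ) / L * n) := by
        rw [← e_add]; congr 1; push_cast; ring
      rw [e2]; ring
    simp only [e1]
    have e3 : ∑ r ∈ (range L).filter P, ∑ l ∈ range L, ∑ n ∈ Icc 1 N, (G (n : ℕ) : ℂ) * e (l * (((n : ℤ) - (r : ℤ) : ℤ) : ℝ) / L)
        = ∑ n ∈ Icc 1 N, (G (n : ℕ) : ℂ) * ∑ r ∈ (range L).filter P, (if (L : ℤ) ∣ ((n : ℤ) - (r : ℤ)) then (L : ℂ) else 0) := by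
      rw [sum_congr rfl fun r _ => sum_comm, sum_comm]
      apply sum_congr rfl
      intro n _
      rw [mul_sum]
      apply sum_congr rfl
      intro r _
      rw [← mul_sum, root_sum hL]
    rw [e3]
    have e4 : ∀ n : ℕ, ∑ r ∈ (range L).filter P, (if (L : ℤ) ∣ ((n : ℤ) - (r : ℤ)) then (L : ℂ) else 0) = if P n then (L : ℂ) else 0 := by
      intro n
      have hdvd : ∀ r ∈ range L, ((L : ℤ) ∣ ((n : ℤ) - (r : ℤ)) ↔ r = n % L) := by
        intro r hr
        rw [mem_range] at hr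
        rw [← Int.modEq_iff_dvd]
        constructor
        · intro h
          have h2 : r ≡ n [MOD L] := Int.natCast_modEq_iff.1 h
          have h3 : r % L = n % L := h2
          rwa [Nat.mod_eq_of_lt hr] at h3
        · intro h
          rw [h]
          exact Int.natCast_modEq_iff.2 (Nat.mod_modEq n L)
      have hmod : n % L ∈ range L := mem_range.2 (Nat.mod_lt _ hL)
      have e5 : ∑ r ∈ (range L).filter P, (if (L : ℤ) ∣ ((n : ℤ) - (r : ℤ)) then (L : ℂ) else 0)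
          = ∑ r ∈ (range L).filter P, (if r = n % L then (L : ℂ) else 0) := by
        apply sum_congr rfl
        intro r hr
        rw [mem_filter] at hr
        by_cases h : r = n % L
        · rw [if_pos h, if_pos ((hdvd r hr.1).2 h)]
        · rw [if_neg h, if_neg (fun h2 => h ((hdvd r hr.1).1 h2))]
      rw [e5, sum_ite_eq' _ (n % L)]
      by_cases h : P n
      · rw [if_pos h, if_pos (mem_filter.2 ⟨hmod, (hP n).1 h⟩)]
      · rw [if_neg h, if_neg (fun h2 => h ((hP n).2 (mem_filter.1 h2).2))]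
    simp only [e4, mul_ite, mul_zero]
    rw [← sum_filter]
    push_cast
    rw [mul_sum]
    exact sum_congr rfl fun n _ => mul_comm _ _
  have h2 : L * |∑ n ∈ (Icc 1 N).filter P, G (n : ℕ)| ≤ L * (L * (ε' * N)) := by
    have e1 : L * |∑ n ∈ (Icc 1 N).filter P, G (n : ℕ)| = ‖((L * ∑ n ∈ (Icc 1 N).filter P, G (n : ℕ) : ℝ) : ℂ)‖ := by
      rw [Complex.norm_real, Real.norm_eq_abs, abs_mul, abs_of_pos hLR]
    rw [e1, h1]
    have e2 : ∀ r ∈ (range L).filter P, ∀ l ∈ range L,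
        ‖e (-((l : ℝ) / L * r)) * Pool.Agent.W41.FU.EE G N ((l : ℝ) / L)‖ ≤ ε' * N := by
      intro r _ l _
      rw [norm_mul, e_norm, one_mul]
      exact H1 _
    refine (norm_sum_le _ _).trans ((sum_le_sum fun r hr => (norm_sum_le _ _).trans (sum_le_sum fun l hl => e2 r hr l hl)).trans ?_)
    rw [sum_const, sum_const, card_range, nsmul_eq_mul, nsmul_eq_mul]
    apply mul_le_mul_of_nonneg_right
    · have : ((range L).filter P).card ≤ L := by
        have := card_filter_le (range L) P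
        rwa [card_range] at this
      exact_mod_cast this
    · positivity
  have h3 := le_of_mul_le_mul_left h2 hLR
  refine h3.trans ?_
  have h4 : ε' ≤ ε / L := min_le_left _ _
  calc L * (ε' * N) ≤ L * (ε / L * N) := by gcongr
    _ = ε * N := by field_simp

/-- the periodic class -/
theorem cl_periodic {ι : Type*} [Fintype ι] (g : ι → ℕ) (v : ι → ℤ) (a : ι → ℤ) (M : ℕ) (b : ℤ) (n : ℕ) :
    Cl g (fun i n => n * v i) a M b n ↔ Cl g (fun i n => n * v i) a M b (n % (M * ∏ i, g i)) := by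
  set L := M * ∏ i, g i with hL
  have h0 : (L : ℤ) ∣ (n : ℤ) - ((n % L : ℕ) : ℤ) := by
    refine ⟨((n / L : ℕ) : ℤ), ?_⟩
    have h1 : ((L * (n / L) + n % L : ℕ) : ℤ) = (n : ℤ) := by rw [Nat.div_add_mod]
    rw [← h1]
    generalize n % L = u
    generalize n / L = w
    push_cast; ring
  unfold Cl
  apply and_congr
  · apply forall_congr'
    intro i
    apply dvd_iff_dvd_of_dvd_sub
    have h1 : (g i : ℤ) ∣ (L : ℤ) := by
      rw [hL]; push_cast
      exact Dvd.dvd.mul_left (by exact_mod_cast dvd_prod_of_mem g (mem_univ i)) _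
    have h2 : (n : ℤ) * v i - a i - (((n % L : ℕ) : ℤ) * v i - a i) = ((n : ℤ) - ((n % L : ℕ) : ℤ)) * v i := by ring
    simp only
    rw [h2]
    exact Dvd.dvd.mul_right (h1.trans h0) _
  · apply dvd_iff_dvd_of_dvd_sub
    have h1 : (M : ℤ) ∣ (L : ℤ) := by rw [hL]; push_cast; exact dvd_mul_right _ _
    have h2 : (n : ℤ) - b - (((n % L : ℕ) : ℤ) - b) = (n : ℤ) - ((n % L : ℕ) : ℤ) := by ring
    rw [h2]
    exact h1.trans h0

/-- `N ^ (1 - c) = o(N)` -/
theorem small_pow {C c ε : ℝ} (hc : 0 < c) (hε : 0 < ε) : ∃ N1 : ℕ, 1 ≤ N1 ∧ ∀ N : ℕ, N1 ≤ N → C * (N : ℝ) ^ (1 - c) ≤ ε * N := by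
  have hlim : Tendsto (fun X : ℕ => C * (X : ℝ) ^ (-c)) atTop (𝓝 0) := by
    have h1 := (tendsto_rpow_neg_atTop hc).comp tendsto_natCast_atTop_atTop
    have h2 := h1.const_mul C
    rw [mul_zero] at h2
    exact h2
  obtain ⟨X1, hX1⟩ := (hlim.eventually (gt_mem_nhds hε)).exists_forall_of_atTop
  refine ⟨max X1 1, le_max_right _ _, fun N hN => ?_⟩
  have hN1 : 1 ≤ N := (le_max_right _ _).trans hN
  have hN0 : (0 : ℝ) < N := by exact_mod_cast hN1
  have h8 := (hX1 N ((le_max_left _ _).trans hN)).le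
  have e : (N : ℝ) ^ (1 - c) = (N : ℝ) ^ (-c) * N := by
    rw [sub_eq_neg_add, Real.rpow_add hN0, Real.rpow_one]
  rw [e, ← mul_assoc]
  exact mul_le_mul_of_nonneg_right h8 hN0.le

theorem sync_of_same {d : ℤ} {f : ℤ → ℝ} (hf : f ∈ Pool.Agent.W41.FU.SameT d) : Pool.Agent.Y965.PS.Sync d f := by
  refine ⟨hf.1, fun j x y h => hf.2 j x y ?_⟩
  exact h

open Classical in
/-- the class and an invariant set -/
theorem class_density {s : ℤ} (hs : s = 1 ∨ s = -1) {ι : Type*} [Fintype ι] [DecidableEq ι] (q : ι → ℕ) (hq : ∀ i, 3 ≤ q i)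
    (hodd : ∀ i, Odd (q i)) (hc : ∀ i j, i ≠ j → Nat.Coprime (q i) (q j)) (W : ι → ℕ → ℤ) (hW : ∀ i, SA (q i) (W i))
    (m : ι → ℕ) (hm : ∀ i, 1 ≤ m i) {M : ℕ} (hM : 1 ≤ M) {ε : ℝ} (hε : 0 < ε) : ∃ N0 : ℕ,
    ∀ S : Set ℤ, Pool.Agent.H499R2.ND.Inv 1 S → ∀ δ : ℝ, Pool.Agent.H499R2.ND.HD s S δ →
    ∀ (a : ι → ℤ) (b : ℤ) (N : ℕ), N0 ≤ N →
      |∑ n ∈ (Icc 1 N).filter (fun n => Cl m W a M b n), Pool.Agent.W41.FU.bal s S δ (n : ℕ)| ≤ ε * N := by
  obtain ⟨C, c, hC, hc0, H⟩ := kim hs q hq hodd hc W hW m hm hM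
  set g : ι → ℕ := fun i => obs (q i) (W i) (m i) with hg
  have hg0 : ∀ i, 1 ≤ g i := fun i => Nat.gcd_pos_of_pos_left _ (hm i)
  have hL : 1 ≤ M * ∏ i, g i := Nat.mul_pos hM (prod_pos fun i _ => hg0 i)
  obtain ⟨N0, h0⟩ := ap_small hs (show 0 < ε / 2 by positivity) hL
  obtain ⟨N1, hN1, h1⟩ := small_pow (C := C) hc0 (show 0 < ε / 2 by positivity)
  refine ⟨N0 + N1, fun S hS δ hδ a b N hN => ?_⟩
  obtain ⟨d0, d1⟩ := Pool.Agent.W41.FU.HD_mem hs hδ
  have hF := sync_of_same (Pool.Agent.W41.FU.bal_same hs hS d0 d1)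
  have k1 := H _ hF a b N (by omega)
  have k2 := h0 S hS δ hδ N (by omega) (fun n => Cl g (fun i n => n * W i 1) a M b n)
    (fun n => cl_periodic g (fun i => W i 1) a M b n)
  have k3 := h1 N (by omega)
  set A := ∑ n ∈ (Icc 1 N).filter (fun n => Cl m W a M b n), Pool.Agent.W41.FU.bal s S δ (n : ℕ) with hA
  set B := ∑ n ∈ (Icc 1 N).filter (fun n => Cl g (fun i n => n * W i 1) a M b n), Pool.Agent.W41.FU.bal s S δ (n : ℕ) with hB
  set P := ∏ i, ((g i : ℝ) / m i) with hP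
  have hP0 : 0 ≤ P := prod_nonneg fun i _ => by positivity
  have hP1 : P ≤ 1 := by
    apply prod_le_one (fun i _ => by positivity)
    intro i _
    have h2 : (0 : ℝ) < m i := by exact_mod_cast hm i
    rw [div_le_one h2]
    exact_mod_cast Nat.le_of_dvd (hm i) (obs_dvd _ _ _)
  have k4 : |P * B| ≤ ε / 2 * N := by
    rw [abs_mul, abs_of_nonneg hP0]
    exact (mul_le_of_le_one_left (abs_nonneg _) hP1).trans k2
  have k5 : |A| ≤ |A - P * B| + |P * B| := by
    have := abs_add_le (A - P * B) (P * B)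
    rwa [sub_add_cancel] at this
  linarith

open Classical in
/-- the size of a nonempty class -/
theorem class_large {ι : Type*} [Fintype ι] [DecidableEq ι] (q : ι → ℕ) (hq : ∀ i, 3 ≤ q i)
    (hodd : ∀ i, Odd (q i)) (hc : ∀ i j, i ≠ j → Nat.Coprime (q i) (q j)) (W : ι → ℕ → ℤ) (hW : ∀ i, SA (q i) (W i))
    (m : ι → ℕ) (hm : ∀ i, 1 ≤ m i) {M : ℕ} (hM : 1 ≤ M) : ∃ κ : ℝ, 0 < κ ∧ ∃ N0 : ℕ,
    ∀ (a : ι → ℤ) (b : ℤ), (∃ n, Cl m W a M b n) → ∀ N : ℕ, N0 ≤ N →
      κ * N ≤ ((Icc 1 N).filter (fun n => Cl m W a M b n)).card := by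
  obtain ⟨C, c, hC, hc0, H⟩ := kim (d := 1) (Or.inl rfl) q hq hodd hc W hW m hm hM
  set g : ι → ℕ := fun i => obs (q i) (W i) (m i) with hg
  have hg0 : ∀ i, 1 ≤ g i := fun i => Nat.gcd_pos_of_pos_left _ (hm i)
  set L := M * ∏ i, g i with hLdef
  have hL : 1 ≤ L := Nat.mul_pos hM (prod_pos fun i _ => hg0 i)
  have hLR : (0 : ℝ) < L := by exact_mod_cast hL
  set P := ∏ i, ((g i : ℝ) / m i) with hP
  have hP0 : 0 < P := prod_pos fun i _ => by
    have h2 : (0 : ℝ) < m i := by exact_mod_cast hm i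
    have h3 : (0 : ℝ) < g i := by exact_mod_cast hg0 i
    positivity
  set κ : ℝ := P / (4 * L) with hκ
  have hκ0 : 0 < κ := by positivity
  obtain ⟨N1, hN1, h1⟩ := small_pow (C := C) hc0 hκ0
  refine ⟨κ, hκ0, N1 + 3 * L, fun a b hex N hN => ?_⟩
  obtain ⟨n0, hn0⟩ := hex
  have k1 := H (fun _ => 1) ⟨fun x => by simp, fun _ _ _ _ => rfl⟩ a b N (by omega)
  simp only [sum_const, nsmul_eq_mul, mul_one] at k1
  have k3 := h1 N (by omega)
  -- the periodic class contains a residue class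
  have hn1 : Cl g (fun i n => n * W i 1) a M b n0 := by
    unfold Cl at hn0 ⊢
    refine ⟨fun i => ?_, hn0.2⟩
    have h1 : (g i : ℤ) ∣ W i n0 - n0 * W i 1 :=
      (hW i).mod (by have := hq i; omega) (fun r hr => obs_dvd' hr) n0
    have h2 : (g i : ℤ) ∣ W i n0 - a i := dvd_trans (by exact_mod_cast obs_dvd (q i) (W i) (m i)) (hn0.1 i)
    have h3 : (n0 : ℤ) * W i 1 - a i = (W i n0 - a i) - (W i n0 - n0 * W i 1) := by ring
    simp only
    rw [h3]; exact dvd_sub h2 h1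
  have hsub : (range (N / L)).image (fun k => n0 % L + L * k) \ {0} ⊆
      (Icc 1 N).filter (fun n => Cl g (fun i n => n * W i 1) a M b n) := by
    intro x hx
    rw [Finset.mem_sdiff, Finset.mem_singleton, Finset.mem_image] at hx
    obtain ⟨⟨k, hk, rfl⟩, hx0⟩ := hx
    rw [mem_range] at hk
    rw [mem_filter, mem_Icc]
    have h2 : L * (k + 1) ≤ L * (N / L) := Nat.mul_le_mul_left _ hk
    have h3 : L * (N / L) ≤ N := Nat.mul_div_le N L
    have h4 : n0 % L < L := Nat.mod_lt _ hL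
    have h5 : L * (k + 1) = L * k + L := by ring
    refine ⟨⟨by omega, by omega⟩, ?_⟩
    rw [cl_periodic, ← hLdef, Nat.add_mul_mod_self_left, Nat.mod_mod, hLdef, ← cl_periodic]
    exact hn1
  have hcard : N / L - 1 ≤ ((Icc 1 N).filter (fun n => Cl g (fun i n => n * W i 1) a M b n)).card := by
    refine le_trans ?_ (card_le_card hsub)
    have h2 : ((range (N / L)).image (fun k => n0 % L + L * k)).card = N / L := by
      rw [card_image_of_injective, card_range]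
      intro x y hxy
      have : L * x = L * y := by simpa using hxy
      exact Nat.eq_of_mul_eq_mul_left hL this
    have h3 := le_card_sdiff {0} ((range (N / L)).image (fun k => n0 % L + L * k))
    rw [card_singleton, h2] at h3
    exact h3
  have hdiv : (N : ℝ) / (2 * L) ≤ ((Icc 1 N).filter (fun n => Cl g (fun i n => n * W i 1) a M b n)).card := by
    refine le_trans ?_ (by exact_mod_cast hcard : ((N / L - 1 : ℕ) : ℝ) ≤ _)
    have h2 : 3 ≤ N / L := (Nat.le_div_iff_mul_le hL).2 (by omega)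
    rw [Nat.cast_sub (by omega), Nat.cast_one]
    rw [div_le_iff₀ (by positivity)]
    have h3 : N < L * (N / L + 1) := Nat.lt_mul_div_succ N hL
    have h4 : (N : ℝ) < L * (((N / L : ℕ) : ℝ) + 1) := by exact_mod_cast h3
    have h5 : (3 : ℝ) ≤ ((N / L : ℕ) : ℝ) := by exact_mod_cast h2
    have h6 : 0 ≤ (((N / L : ℕ) : ℝ) - 3) * L := mul_nonneg (by linarith) hLR.le
    nlinarith
  have k4 := (abs_le.1 k1).1
  have k5 : P * (N / (2 * L)) ≤ P * ((Icc 1 N).filter (fun n => Cl g (fun i n => n * W i 1) a M b n)).card :=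
    mul_le_mul_of_nonneg_left hdiv hP0.le
  have k6 : P * ((N : ℝ) / (2 * L)) = 2 * (κ * N) := by rw [hκ]; field_simp; ring
  linarith

end Pool.Agent.Y55.DS
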