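import Pool.Agent.Y55.DS.Poly2
import Pool.Agent.Y965.PS.Maj

/-! Distribution of polynomials modulo one on sets which are unions of coalescence classes. -/

set_option autoImplicit false

namespace Pool.Agent.Y55.DS

open Finset Pool.Agent.Y965.PS Pool.Agent.H373R2.NB Polynomial
open Pool.Agent.Helper602.MK (ee)
open Pool.Agent.Helper602.MK.N_J5b (ee_add ee_zero ee_conj norm_ee)

/-- `α` is not a Liouville number -/
def Dioph (α : ℝ) : Prop := ∃ A c : ℝ, 0 < c ∧ ∀ l : ℕ, 1 ≤ l → ∀ a : ℤ, c * (l : ℝ) ^ (-A) ≤ |l * α - a|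

theorem e_eq_ee (x : ℝ) : Pool.Agent.H469R2.NK.e x = ee x := by
  unfold Pool.Agent.H469R2.NK.e ee
  congr 1
  push_cast; ring

/-- the minor arc condition for the multiples of a diophantine number -/
theorem dioph_minor {k : ℕ} (hk : 1 ≤ k) {α : ℝ} (hα : Dioph α) : ∃ η : ℝ, 0 < η ∧ η < 1 ∧ ∃ N0 : ℕ, 1 ≤ N0 ∧ ∀ N : ℕ, N0 ≤ N →
    ∀ j : ℕ, 1 ≤ j → (j : ℝ) ≤ 2 * (N : ℝ) ^ η → ∀ l : ℕ, 1 ≤ l → (l : ℝ) ≤ (N : ℝ) ^ η → ∀ a : ℤ,
      (N : ℝ) ^ (η - k) ≤ |l * (j * (((k + 1).factorial : ℝ) * α)) - a| := by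
  obtain ⟨A₀, c, hc, H⟩ := hα
  set A : ℝ := max A₀ 0 with hA
  have hA0 : 0 ≤ A := le_max_right _ _
  set η : ℝ := 1 / (2 * (2 * A + 1)) with hη
  have hη0 : 0 < η := by positivity
  have hη1 : η < 1 := by
    rw [hη, div_lt_one (by positivity)]; linarith
  set D : ℝ := 2 * (k + 1).factorial with hD
  have hD1 : 1 ≤ D := by
    have : (1 : ℝ) ≤ (k + 1).factorial := by exact_mod_cast Nat.one_le_iff_ne_zero.2 (Nat.factorial_ne_zero _)
    rw [hD]; linarith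
  have hD0 : 0 < D := by linarith
  obtain ⟨N0, hN0⟩ := exists_nat_ge ((1 / (c * D ^ (-A))) ^ 2 + 1)
  refine ⟨η, hη0, hη1, N0 + 1, by omega, ?_⟩
  intro N hN j hj1 hj2 l hl1 hl2 a
  have hNR : (1 : ℝ) ≤ N := by exact_mod_cast (by omega : 1 ≤ N)
  have hN00 : (0 : ℝ) < N := by linarith
  have hL1 : 1 ≤ l * (j * (k + 1).factorial) := Nat.mul_pos hl1 (Nat.mul_pos hj1 (Nat.factorial_pos _))
  have h1 := H _ hL1 a
  have h2 : ((l * (j * (k + 1).factorial) : ℕ) : ℝ) * α = l * (j * (((k + 1).factorial : ℝ) * α)) := by push_cast; ring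
  rw [h2] at h1
  refine le_trans ?_ h1
  -- size of the multiplier
  set L : ℝ := ((l * (j * (k + 1).factorial) : ℕ) : ℝ) with hL
  have hLR : 1 ≤ L := by rw [hL]; exact_mod_cast hL1
  have hLD : L ≤ D * (N : ℝ) ^ (2 * η) := by
    rw [hL]; push_cast
    have e1 : (N : ℝ) ^ (2 * η) = (N : ℝ) ^ η * (N : ℝ) ^ η := by rw [two_mul, Real.rpow_add hN00]
    rw [e1, hD]
    calc (l : ℝ) * (j * (k + 1).factorial) ≤ (N : ℝ) ^ η * (2 * (N : ℝ) ^ η * (k + 1).factorial) := by gcongr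
      _ = _ := by ring
  have h3 : (D * (N : ℝ) ^ (2 * η)) ^ (-A) ≤ L ^ (-A₀) := by
    calc (D * (N : ℝ) ^ (2 * η)) ^ (-A) ≤ L ^ (-A) :=
          Real.rpow_le_rpow_of_nonpos (by linarith) hLD (by linarith)
      _ ≤ L ^ (-A₀) := Real.rpow_le_rpow_of_exponent_le hLR (by have := le_max_left A₀ 0; linarith)
  refine le_trans ?_ (mul_le_mul_of_nonneg_left h3 hc.le)
  rw [Real.mul_rpow hD0.le (by positivity), ← Real.rpow_mul hN00.le]
  have h4 : (1 / (c * D ^ (-A))) ≤ (N : ℝ) ^ (1 / 2 : ℝ) := by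
    have e1 : (1 / (c * D ^ (-A))) ^ 2 ≤ N := by
      have : (N0 : ℝ) ≤ N := by exact_mod_cast (by omega : N0 ≤ N)
      linarith
    have e2 : 0 ≤ 1 / (c * D ^ (-A)) := by positivity
    rw [← Real.sqrt_eq_rpow]
    exact Real.le_sqrt_of_sq_le e1
  have hcD : 0 < c * D ^ (-A) := by positivity
  rw [div_le_iff₀ hcD] at h4
  have hk1 : (1 : ℝ) ≤ k := by exact_mod_cast hk
  have h5 : η - k + 1 / 2 ≤ 2 * η * -A := by
    have : η * (2 * (2 * A + 1)) = 1 := by rw [hη]; field_simp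
    nlinarith
  calc (N : ℝ) ^ (η - k) = (N : ℝ) ^ (η - k) * 1 := by ring
    _ ≤ (N : ℝ) ^ (η - k) * ((N : ℝ) ^ (1 / 2 : ℝ) * (c * D ^ (-A))) := mul_le_mul_of_nonneg_left h4 (by positivity)
    _ = (N : ℝ) ^ (η - k + 1 / 2) * (c * D ^ (-A)) := by rw [Real.rpow_add hN00]; ring
    _ ≤ (N : ℝ) ^ (2 * η * -A) * (c * D ^ (-A)) :=
        mul_le_mul_of_nonneg_right (Real.rpow_le_rpow_of_exponent_le hNR h5) hcD.le
    _ = _ := by ring

/-- sums with the sawtooth function of a polynomial -/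
theorem psi_poly {d : ℤ} (hd : d = 1 ∨ d = -1) {k : ℕ} (hk : 1 ≤ k) {α : ℝ} (hα : Dioph α) : ∃ C c : ℝ, 0 ≤ C ∧ 0 < c ∧ c < 1 ∧
    ∀ F : ℤ → ℝ, Sync d F → (∀ x, 0 ≤ F x) → ∀ P : ℝ[X], P.natDegree ≤ k + 1 → P.coeff (k + 1) = α → ∀ N : ℕ, 1 ≤ N →
      |∑ n ∈ Icc 1 N, F n * psi (P.eval (n : ℝ))| ≤ C * (N : ℝ) ^ (1 - c) := by
  obtain ⟨η, hη0, hη1, N0, hN0, hmin⟩ := dioph_minor hk hα
  obtain ⟨C1, c1, hC1, hc1, hW⟩ := weyl_sync hd hk hη0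
  set c : ℝ := min (η / 2) (c1 / 2) with hc
  have hc0 : 0 < c := lt_min (by positivity) (by positivity)
  have hcη : c ≤ η / 2 := min_le_left _ _
  have hcc : c ≤ c1 / 2 := min_le_right _ _
  refine ⟨N0 + 5 + (2 + 2 / c1) * C1, c, by positivity, hc0, by linarith, ?_⟩
  intro F hF hF0 P hP hPc N hN
  have hNR : (1 : ℝ) ≤ N := by exact_mod_cast hN
  have hN00 : (0 : ℝ) < N := by linarith
  have hp1 : (1 : ℝ) ≤ (N : ℝ) ^ (1 - c) := Real.one_le_rpow hNR (by linarith)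
  have hpsi : ∀ x : ℝ, |psi x| ≤ 1 := by
    intro x
    unfold psi
    have h1 := Int.fract_nonneg x
    have h2 := (Int.fract_lt_one x).le
    rw [abs_le]; constructor <;> linarith
  rcases lt_or_ge N N0 with hsm | hbig
  · -- small `N`
    have h1 : |∑ n ∈ Icc 1 N, F n * psi (P.eval (n : ℝ))| ≤ N := by
      refine (abs_sum_le_sum_abs _ _).trans ?_
      have h2 : ∀ n ∈ Icc 1 N, |F (n : ℕ) * psi (P.eval ((n : ℕ) : ℝ))| ≤ 1 := by
        intro n _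
        rw [abs_mul]
        have a1 := hF.1 (n : ℕ)
        have a2 := hpsi (P.eval (n : ℝ))
        calc |F (n : ℕ)| * |psi (P.eval ((n : ℕ) : ℝ))| ≤ 1 * 1 := mul_le_mul a1 a2 (abs_nonneg _) zero_le_one
          _ = 1 := one_mul 1
      refine (sum_le_sum h2).trans ?_
      simp
    have h2 : (N : ℝ) ≤ N0 := by exact_mod_cast hsm.le
    have h3 : (0 : ℝ) ≤ 5 + (2 + 2 / c1) * C1 := by positivity
    calc _ ≤ (N : ℝ) := h1
      _ ≤ N0 + 5 + (2 + 2 / c1) * C1 := by linarith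
      _ ≤ _ := le_mul_of_one_le_right (by positivity) hp1
  set K := ⌈(N : ℝ) ^ η⌉₊ with hK
  have hNη : 1 ≤ (N : ℝ) ^ η := Real.one_le_rpow hNR hη0.le
  have hK1 : (N : ℝ) ^ η ≤ K := Nat.le_ceil _
  have hK2 : (K : ℝ) ≤ 2 * (N : ℝ) ^ η := by
    have := Nat.ceil_lt_add_one (by positivity : 0 ≤ (N : ℝ) ^ η)
    linarith
  have hK3 : (1 : ℝ) ≤ K := hNη.trans hK1
  have hK4 : 1 ≤ K := by exact_mod_cast hK3
  set η' : ℝ := (N : ℝ) ^ (-(η / 2)) / 2 with hη'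
  have hη'0 : 0 < η' := by positivity
  have hη'1 : η' < 1 := by
    have : (N : ℝ) ^ (-(η / 2)) ≤ 1 := Real.rpow_le_one_of_one_le_of_nonpos hNR (by linarith)
    rw [hη']; linarith
  have key := psi_sum (Icc 1 N) (F := fun m : ℕ => F m) (fun m => hF0 _) (fun m => (abs_le.1 (hF.1 _)).2)
    (fun m : ℕ => P.eval (m : ℝ)) hK4 hη'0 hη'1
  have hcard : ((Icc 1 N).card : ℝ) = N := by rw [Nat.card_Icc, Nat.add_sub_cancel]
  rw [hcard] at key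
  refine key.trans ?_
  have hP1 := Ph_real (k + 1) P hP
  rw [hPc] at hP1
  -- the exponential sums
  have hsums : ∀ j ∈ Icc 1 K, ‖∑ m ∈ Icc 1 N, (F (m : ℕ) : ℂ) * Pool.Agent.H469R2.NK.e (j * P.eval ((m : ℕ) : ℝ))‖
      ≤ C1 * (N : ℝ) ^ (1 - c1) := by
    intro j hj
    rw [mem_Icc] at hj
    have h1 := Ph_mul (k + 1) (j : ℝ) _ _ hP1
    have h2 := hW F hF N hN _ _ h1 (hmin N hbig j hj.1 ((by exact_mod_cast hj.2 : (j : ℝ) ≤ K).trans hK2))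
    simp only [e_eq_ee]
    exact h2
  have hharm : ∑ j ∈ Icc 1 K, 1 / (j : ℝ) ≤ (2 + 2 / c1) * (N : ℝ) ^ (c1 / 2) := by
    have h1 : ∑ j ∈ Icc 1 K, 1 / (j : ℝ) ≤ 1 + Real.log K := by
      have := harmonic_le_one_add_log K
      rw [harmonic_eq_sum_Icc] at this
      push_cast at this
      simpa [one_div] using this
    have h2 : Real.log K ≤ Real.log 2 + η * Real.log N := by
      have e1 : Real.log K ≤ Real.log (2 * (N : ℝ) ^ η) := Real.log_le_log (by linarith) hK2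
      rwa [Real.log_mul (by norm_num) (by positivity), Real.log_rpow hN00] at e1
    have h3 : Real.log N ≤ (N : ℝ) ^ (c1 / 2) / (c1 / 2) := Real.log_le_rpow_div hN00.le (by positivity)
    have h4 : (1 : ℝ) ≤ (N : ℝ) ^ (c1 / 2) := Real.one_le_rpow hNR (by positivity)
    have h5 : Real.log 2 ≤ 1 := by have := Real.log_two_lt_d9; linarith
    have h6 : 0 ≤ Real.log N := Real.log_nonneg hNR
    have h7 : η * Real.log N ≤ Real.log N := mul_le_of_le_one_left h6 hη1.le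
    have h8 : (N : ℝ) ^ (c1 / 2) / (c1 / 2) = 2 / c1 * (N : ℝ) ^ (c1 / 2) := by field_simp
    calc _ ≤ 1 + Real.log K := h1
      _ ≤ 2 + 2 / c1 * (N : ℝ) ^ (c1 / 2) := by linarith
      _ ≤ _ := by linarith
  have t1 : η' * (N : ℝ) ≤ (N : ℝ) ^ (1 - c) := by
    have e1 : (N : ℝ) ^ (-(η / 2)) * N = (N : ℝ) ^ (1 - η / 2) := by
      rw [sub_eq_neg_add, Real.rpow_add hN00, Real.rpow_one]
    have e2 : (N : ℝ) ^ (1 - η / 2) ≤ (N : ℝ) ^ (1 - c) := Real.rpow_le_rpow_of_exponent_le hNR (by linarith)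
    have e3 : η' * (N : ℝ) = (N : ℝ) ^ (1 - η / 2) / 2 := by rw [hη', ← e1]; ring
    have e4 : (0 : ℝ) ≤ (N : ℝ) ^ (1 - η / 2) := by positivity
    rw [e3]; linarith
  have t2 : 2 * (N : ℝ) / (η' * K) ≤ 4 * (N : ℝ) ^ (1 - c) := by
    rw [div_le_iff₀ (by positivity)]
    have e1 : (N : ℝ) ^ (1 - η / 2) ≤ (N : ℝ) ^ (1 - c) := Real.rpow_le_rpow_of_exponent_le hNR (by linarith)
    have e2 : (N : ℝ) ^ (1 - η / 2) * ((N : ℝ) ^ (-(η / 2)) * (N : ℝ) ^ η) = N := by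
      rw [← Real.rpow_add hN00, ← Real.rpow_add hN00]
      have : 1 - η / 2 + (-(η / 2) + η) = 1 := by ring
      rw [this, Real.rpow_one]
    calc 2 * (N : ℝ) = 4 * (N : ℝ) ^ (1 - η / 2) * (((N : ℝ) ^ (-(η / 2)) / 2) * (N : ℝ) ^ η) := by
          rw [show 4 * (N : ℝ) ^ (1 - η / 2) * (((N : ℝ) ^ (-(η / 2)) / 2) * (N : ℝ) ^ η)
            = 2 * ((N : ℝ) ^ (1 - η / 2) * ((N : ℝ) ^ (-(η / 2)) * (N : ℝ) ^ η)) by ring, e2]
      _ ≤ 4 * (N : ℝ) ^ (1 - c) * (η' * K) := by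
          rw [← hη']
          gcongr
  have t3 : ∑ j ∈ Icc 1 K, 1 / (j : ℝ) * ‖∑ m ∈ Icc 1 N, (F (m : ℕ) : ℂ) * Pool.Agent.H469R2.NK.e (j * P.eval ((m : ℕ) : ℝ))‖
      ≤ (2 + 2 / c1) * C1 * (N : ℝ) ^ (1 - c) := by
    calc _ ≤ ∑ j ∈ Icc 1 K, 1 / (j : ℝ) * (C1 * (N : ℝ) ^ (1 - c1)) :=
          sum_le_sum fun j hj => mul_le_mul_of_nonneg_left (hsums j hj) (by positivity)
      _ = (∑ j ∈ Icc 1 K, 1 / (j : ℝ)) * (C1 * (N : ℝ) ^ (1 - c1)) := by rw [sum_mul]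
      _ ≤ ((2 + 2 / c1) * (N : ℝ) ^ (c1 / 2)) * (C1 * (N : ℝ) ^ (1 - c1)) := by gcongr
      _ = (2 + 2 / c1) * C1 * (N : ℝ) ^ (1 - c1 / 2) := by
          have : (N : ℝ) ^ (1 - c1 / 2) = (N : ℝ) ^ (c1 / 2) * (N : ℝ) ^ (1 - c1) := by
            rw [← Real.rpow_add hN00]; congr 1; ring
          rw [this]; ring
      _ ≤ _ := by
          apply mul_le_mul_of_nonneg_left _ (by positivity)
          exact Real.rpow_le_rpow_of_exponent_le hNR (by linarith)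
  have hN0R : (0 : ℝ) ≤ N0 := Nat.cast_nonneg _
  have hfin : (N : ℝ) ^ (1 - c) + 4 * (N : ℝ) ^ (1 - c) + (2 + 2 / c1) * C1 * (N : ℝ) ^ (1 - c)
      ≤ (N0 + 5 + (2 + 2 / c1) * C1) * (N : ℝ) ^ (1 - c) := by
    have : 0 ≤ N0 * (N : ℝ) ^ (1 - c) := by positivity
    linarith
  exact (add_le_add (add_le_add t1 t2) t3).trans hfin

end Pool.Agent.Y55.DS
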