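import Pool.Agent.Y55.DS.Disc

/-! Discrepancy of polynomials on unions of coalescence classes. -/

set_option autoImplicit false

namespace Pool.Agent.Y55.DS

open Finset Pool.Agent.Y965.PS Polynomial

theorem psi_poly' {d : ℤ} (hd : d = 1 ∨ d = -1) {k : ℕ} (hk : 1 ≤ k) {α : ℝ} (hα : Dioph α) : ∃ C c : ℝ, 0 ≤ C ∧ 0 < c ∧ c < 1 ∧
    ∀ F : ℤ → ℝ, Sync d F → ∀ P : ℝ[X], P.natDegree ≤ k + 1 → P.coeff (k + 1) = α → ∀ N : ℕ, 1 ≤ N →
      |∑ n ∈ Icc 1 N, F n * psi (P.eval (n : ℝ))| ≤ C * (N : ℝ) ^ (1 - c) := by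
  obtain ⟨C, c, hC, hc, hc1, H⟩ := psi_poly hd hk hα
  refine ⟨3 * C, c, by positivity, hc, hc1, fun F hF P hP hPc N hN => ?_⟩
  have hF' : Sync d (fun x => (1 + F x) / 2) := by
    refine ⟨fun x => ?_, fun j x y h => ?_⟩
    · have := abs_le.1 (hF.1 x)
      rw [abs_le]; constructor <;> linarith [this.1, this.2]
    · simp only; rw [hF.2 j x y h]
  have h1 := H _ hF' (fun x => by have := (abs_le.1 (hF.1 x)).1; show 0 ≤ (1 + F x) / 2; linarith) P hP hPc N hN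
  have h2 := H (fun _ => 1) ⟨fun x => by simp, fun _ _ _ _ => rfl⟩ (fun x => by norm_num) P hP hPc N hN
  have e2 : ∑ n ∈ Icc 1 N, F n * psi (P.eval (n : ℝ)) = 2 * ∑ n ∈ Icc 1 N, (1 + F n) / 2 * psi (P.eval (n : ℝ))
      - ∑ n ∈ Icc 1 N, 1 * psi (P.eval (n : ℝ)) := by
    rw [mul_sum, ← sum_sub_distrib]
    apply sum_congr rfl
    intro n _; ring
  rw [e2]
  refine (abs_sub _ _).trans ?_
  rw [abs_mul, abs_two]
  linarith

theorem fract_ind {u v : ℝ} (hu : 0 ≤ u) (huv : u ≤ v) (hv : v ≤ 1) (x : ℝ) :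
    (if u ≤ Int.fract x ∧ Int.fract x < v then (1 : ℝ) else 0) = (v - u) + (psi (x - v) - psi (x - u)) := by
  have key : ∀ w : ℝ, 0 ≤ w → w ≤ 1 → Int.fract (x - w) = Int.fract x - w + if Int.fract x < w then 1 else 0 := by
    intro w hw0 hw1
    have h0 := Int.fract_nonneg x
    have h1 := Int.fract_lt_one x
    by_cases h : Int.fract x < w
    · rw [if_pos h, Int.fract_eq_iff]
      refine ⟨by linarith, by linarith, ⌊x⌋ - 1, ?_⟩
      push_cast
      have := Int.floor_add_fract x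
      linarith
    · rw [if_neg h, add_zero, Int.fract_eq_iff]
      push Not at h
      refine ⟨by linarith, by linarith, ⌊x⌋, ?_⟩
      have := Int.floor_add_fract x
      linarith
  unfold psi
  rw [key v (by linarith) hv, key u hu (by linarith)]
  by_cases h1 : Int.fract x < u
  · rw [if_neg (fun h => by linarith [h.1]), if_pos h1, if_pos (by linarith)]; ring
  · push Not at h1
    by_cases h2 : Int.fract x < v
    · rw [if_pos ⟨h1, h2⟩, if_pos h2, if_neg (not_lt.2 h1)]; ring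
    · rw [if_neg (fun h => h2 h.2), if_neg h2, if_neg (not_lt.2 h1)]; ring

open Classical in
/-- DISCREPANCY of polynomials, weighted by `F` -/
theorem disc {d : ℤ} (hd : d = 1 ∨ d = -1) {k : ℕ} (hk : 1 ≤ k) {α : ℝ} (hα : Dioph α) : ∃ C c : ℝ, 0 ≤ C ∧ 0 < c ∧ c < 1 ∧
    ∀ F : ℤ → ℝ, Sync d F → ∀ P : ℝ[X], P.natDegree ≤ k + 1 → P.coeff (k + 1) = α → ∀ u v : ℝ, 0 ≤ u → u ≤ v → v ≤ 1 →
    ∀ N : ℕ, 1 ≤ N →
      |∑ n ∈ (Icc 1 N).filter (fun n : ℕ => u ≤ Int.fract (P.eval (n : ℝ)) ∧ Int.fract (P.eval (n : ℝ)) < v), F n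
        - (v - u) * ∑ n ∈ Icc 1 N, F n| ≤ C * (N : ℝ) ^ (1 - c) := by
  obtain ⟨C, c, hC, hc, hc1, H⟩ := psi_poly' hd hk hα
  refine ⟨2 * C, c, by positivity, hc, hc1, fun F hF P hP hPc u v hu huv hv N hN => ?_⟩
  have hsub : ∀ w : ℝ, |∑ n ∈ Icc 1 N, F n * psi (P.eval (n : ℝ) - w)| ≤ C * (N : ℝ) ^ (1 - c) := by
    intro w
    have h1 : (P - Polynomial.C w).natDegree ≤ k + 1 := by
      refine (natDegree_sub_le _ _).trans ?_
      rw [natDegree_C]
      omega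
    have h2 : (P - Polynomial.C w).coeff (k + 1) = α := by
      rw [coeff_sub, coeff_C, if_neg (by omega), sub_zero]; exact hPc
    have h3 := H F hF _ h1 h2 N hN
    simpa using h3
  have e1 : ∑ n ∈ (Icc 1 N).filter (fun n : ℕ => u ≤ Int.fract (P.eval (n : ℝ)) ∧ Int.fract (P.eval (n : ℝ)) < v), F n
      - (v - u) * ∑ n ∈ Icc 1 N, F n
      = ∑ n ∈ Icc 1 N, F n * psi (P.eval (n : ℝ) - v) - ∑ n ∈ Icc 1 N, F n * psi (P.eval (n : ℝ) - u) := by
    rw [sum_filter, mul_sum, ← sum_sub_distrib, ← sum_sub_distrib]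
    apply sum_congr rfl
    intro n _
    have h1 := fract_ind hu huv hv (P.eval (n : ℝ))
    have h2 : (if u ≤ Int.fract (P.eval (n : ℝ)) ∧ Int.fract (P.eval (n : ℝ)) < v then F n else 0)
        = F n * (if u ≤ Int.fract (P.eval (n : ℝ)) ∧ Int.fract (P.eval (n : ℝ)) < v then (1 : ℝ) else 0) := by
      rw [mul_ite, mul_one, mul_zero]
    rw [h2, h1]; ring
  rw [e1]
  refine (abs_sub _ _).trans ?_
  have h1 := hsub v
  have h2 := hsub u
  linarith

end Pool.Agent.Y55.DS
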