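import Pool.Agent.Y965.PS.Disp

/-! The dispersion inequality on the integers with a fixed number of odd steps. -/

set_option autoImplicit false

namespace Pool.Agent.Y55.DS

open Finset Pool.Agent.Y965.PS

variable {d : ℤ}

/-- `a` odd steps among the first `t`, and bounded offset -/
def Gd (d : ℤ) (t a : ℕ) (R : ℝ) (x : ℤ) : Prop :=
  ac d t x = a ∧ (oc d t x : ℝ) ≤ R * 2 ^ t

theorem gd_shift (t a : ℕ) (R : ℝ) (x v : ℤ) : Gd d t a R (x + 2 ^ t * v) ↔ Gd d t a R x := by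
  obtain ⟨-, h2, h3⟩ := shift (d := d) x t v
  unfold Gd
  rw [h2, h3]

/-- two such integers with a common point -/
def Pr (d : ℤ) (t a : ℕ) (R : ℝ) (h x : ℤ) : Prop :=
  Gd d t a R x ∧ Gd d t a R (x + h) ∧ (Tz d)^[t] x = (Tz d)^[t] (x + h)

theorem pr_shift (t a : ℕ) (R : ℝ) (h x v : ℤ) :
    Pr d t a R h (x + 2 ^ t * v) ↔ Pr d t a R h x := by
  unfold Pr
  have e : x + 2 ^ t * v + h = (x + h) + 2 ^ t * v := by ring
  rw [e, gd_shift, gd_shift]
  obtain ⟨a1, -, -⟩ := shift (d := d) x t v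
  obtain ⟨b1, -, -⟩ := shift (d := d) (x + h) t v
  rw [a1, b1]
  constructor
  · rintro ⟨g1, g2, g3⟩
    rw [g1.1, g2.1] at g3
    exact ⟨g1, g2, by linarith⟩
  · rintro ⟨g1, g2, g3⟩
    refine ⟨g1, g2, ?_⟩
    rw [g1.1, g2.1, g3]

theorem pr_small (hd : d = 1 ∨ d = -1) (t a : ℕ) {R : ℝ} {x y : ℤ} (hx : Gd d t a R x) (hy : Gd d t a R y)
    (h : (Tz d)^[t] x = (Tz d)^[t] y) : ((y - x : ℤ) : ℝ) ≤ R * 2 ^ t / 3 ^ a := by
  have hd2 : d % 2 = 1 := by rcases hd with rfl | rfl <;> norm_num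
  have h1 := main_id hd2 x t
  have h2 := main_id hd2 y t
  rw [hx.1] at h1
  rw [hy.1] at h2
  rw [h] at h1
  have h3 : (3 : ℤ) ^ a * (y - x) = d * (oc d t x - oc d t y) := by linarith
  have hcx := oc_nonneg (d := d) x t
  have hcy := oc_nonneg (d := d) y t
  have h4 : (3 : ℝ) ^ a * ((y - x : ℤ) : ℝ) ≤ R * 2 ^ t := by
    have h5 : ((3 : ℤ) ^ a * (y - x) : ℤ) ≤ max (oc d t x) (oc d t y) := by
      rw [h3]
      rcases hd with rfl | rfl
      · have := le_max_left (oc 1 t x) (oc 1 t y); linarith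
      · have := le_max_right (oc (-1) t x) (oc (-1) t y); linarith
    have h6 : (((3 : ℤ) ^ a * (y - x) : ℤ) : ℝ) ≤ max (oc d t x : ℝ) (oc d t y) := by
      exact_mod_cast h5
    push_cast at h6 ⊢
    exact h6.trans (max_le hx.2 hy.2)
  have h12 : (0 : ℝ) < 3 ^ a := by positivity
  rw [le_div_iff₀ h12, mul_comm]
  exact h4

theorem value_le' (hd : d = 1 ∨ d = -1) (t a : ℕ) {R : ℝ} {x : ℤ} (hx : Gd d t a R x) :
    (((Tz d)^[t] x : ℤ) : ℝ) ≤ x * (3 ^ a / 2 ^ t) + R := by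
  have hd2 : d % 2 = 1 := by rcases hd with rfl | rfl <;> norm_num
  have h1 := main_id hd2 x t
  rw [hx.1] at h1
  have hc := oc_nonneg (d := d) x t
  have h2 : (2 : ℤ) ^ t * (Tz d)^[t] x ≤ 3 ^ a * x + oc d t x := by
    rw [h1]; rcases hd with rfl | rfl <;> linarith
  have h3 : (2 : ℝ) ^ t * (((Tz d)^[t] x : ℤ) : ℝ) ≤ 3 ^ a * x + oc d t x := by
    exact_mod_cast h2
  have h12 : (0 : ℝ) < 2 ^ t := by positivity
  have h13 : (((Tz d)^[t] x : ℤ) : ℝ) ≤ (3 ^ a * x + R * 2 ^ t) / 2 ^ t := by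
    rw [le_div_iff₀ h12]; linarith [hx.2]
  refine h13.trans (le_of_eq ?_)
  field_simp

open Classical in
/-- the integers of `(N1, N]` with `a` odd steps and bounded offset -/
noncomputable def GA (d : ℤ) (t a : ℕ) (R : ℝ) (N1 N : ℕ) : Finset ℕ :=
  (Ioc N1 N).filter fun m : ℕ => Gd d t a R (m : ℤ)

theorem mem_GA {t a : ℕ} {R : ℝ} {N1 N m : ℕ} : m ∈ GA d t a R N1 N ↔ (N1 < m ∧ m ≤ N) ∧ Gd d t a R (m : ℤ) := by
  classical
  unfold GA
  rw [mem_filter, mem_Ioc]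

/-- number of the points reached -/
theorem image_card' (hd : d = 1 ∨ d = -1) (t a : ℕ) {R : ℝ} (hR : 0 ≤ R) (N1 N : ℕ) :
    (((GA d t a R N1 N).image fun m : ℕ => (Tz d)^[t] (m : ℤ)).card : ℝ) ≤ N * (3 ^ a / 2 ^ t) + R := by
  set V : ℝ := N * (3 ^ a / 2 ^ t) + R with hV
  have hV0 : 0 ≤ V := by positivity
  have hsub : ((GA d t a R N1 N).image fun m : ℕ => (Tz d)^[t] (m : ℤ)) ⊆ (Icc (1 : ℤ) ⌊V⌋) := by
    intro p hp
    rw [mem_image] at hp
    obtain ⟨m, hm, rfl⟩ := hp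
    rw [mem_GA] at hm
    rw [mem_Icc]
    constructor
    · exact Order.one_le_iff_pos.2 (iter_pos hd (x := (m : ℤ)) (by exact_mod_cast (by omega : 0 < m)) t)
    · apply Int.le_floor.2
      refine (value_le' hd t a hm.2).trans ?_
      rw [hV]
      have : ((m : ℤ) : ℝ) ≤ N := by exact_mod_cast hm.1.2
      gcongr
  have h1 := card_le_card hsub
  rw [Int.card_Icc] at h1
  have h2 : ((⌊V⌋ + 1 - 1).toNat : ℝ) ≤ V := by
    rw [add_sub_cancel_right]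
    have h3 : 0 ≤ ⌊V⌋ := Int.floor_nonneg.2 hV0
    have h4 : (((⌊V⌋).toNat : ℤ) : ℝ) = (⌊V⌋ : ℝ) := by rw [Int.toNat_of_nonneg h3]
    have h5 : (((⌊V⌋).toNat : ℕ) : ℝ) = (⌊V⌋ : ℝ) := by exact_mod_cast h4
    rw [h5]
    exact Int.floor_le V
  exact (by exact_mod_cast h1 : (((GA d t a R N1 N).image fun m : ℕ => (Tz d)^[t] (m : ℤ)).card : ℝ) ≤
      ((⌊V⌋ + 1 - 1).toNat : ℝ)).trans h2

open Classical in
/-- the pairs at distance `h` -/
theorem pr_sum (t a : ℕ) (R : ℝ) (N1 N h : ℕ) {z : ℕ → ℂ} {β : ℝ}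
    (hz : ∀ m0 J : ℕ, N1 < m0 → (∀ j < J, m0 + 2 ^ t * j + h ≤ N) →
      ‖∑ j ∈ range J, z (m0 + 2 ^ t * j) * (starRingEnd ℂ) (z (m0 + 2 ^ t * j + h))‖ ≤ β) (hβ : 0 ≤ β) :
    ‖∑ m ∈ (Ioc N1 (N - h)).filter (fun m : ℕ => Pr d t a R h m), z m * (starRingEnd ℂ) (z (m + h))‖
      ≤ 2 ^ t * β := by
  rcases le_or_gt N h with hNh | hNh
  · rw [Nat.sub_eq_zero_of_le hNh, Ioc_eq_empty (by omega), filter_empty, sum_empty, norm_zero]
    positivity
  set q := 2 ^ t with hq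
  have hq0 : 0 < q := by positivity
  set φ : ℕ → ℂ := fun m => z m * (starRingEnd ℂ) (z (m + h)) with hφ
  have h1 : ∑ m ∈ (Ioc N1 (N - h)).filter (fun m : ℕ => Pr d t a R h m), φ m =
      ∑ r ∈ range q, ∑ m ∈ ((Ioc N1 (N - h)).filter (fun m : ℕ => Pr d t a R h m)).filter (fun m => m % q = r), φ m := by
    rw [sum_fiberwise_of_maps_to]
    intro m _
    rw [mem_range]; exact Nat.mod_lt _ hq0
  rw [h1]
  refine (norm_sum_le _ _).trans ?_
  have h2 : ∀ r ∈ range q, ‖∑ m ∈ ((Ioc N1 (N - h)).filter (fun m : ℕ => Pr d t a R h m)).filter (fun m => m % q = r), φ m‖ ≤ β := by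
    intro r _
    by_cases hP : Pr d t a R h (r : ℤ)
    · have e : ((Ioc N1 (N - h)).filter (fun m : ℕ => Pr d t a R h m)).filter (fun m => m % q = r)
          = (Ioc N1 (N - h)).filter (fun m => m % q = r) := by
        ext m
        rw [mem_filter, mem_filter, mem_filter]
        constructor
        · rintro ⟨⟨a, b⟩, c⟩; exact ⟨a, c⟩
        · rintro ⟨a, c⟩
          refine ⟨⟨a, ?_⟩, c⟩
          have e2 : (m : ℤ) = (r : ℤ) + 2 ^ t * ((m / q : ℕ) : ℤ) := by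
            have h3 := Nat.mod_add_div m q
            rw [c] at h3
            have h4 : ((r + q * (m / q) : ℕ) : ℤ) = (m : ℤ) := by rw [h3]
            rw [← h4, hq]; push_cast; ring
          rw [e2, pr_shift]; exact hP
      rw [e]
      obtain ⟨m0, J, hm0, hJ, he⟩ := ap_filter N1 (N - h) q r hq0
      rw [he, sum_image]
      · exact hz m0 J hm0 fun j hj => by have := hJ j hj; omega
      · intro a _ b _ hab
        have : q * a = q * b := by simpa using hab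
        exact Nat.eq_of_mul_eq_mul_left hq0 this
    · have e : ((Ioc N1 (N - h)).filter (fun m : ℕ => Pr d t a R h m)).filter (fun m => m % q = r) = ∅ := by
        rw [Finset.eq_empty_iff_forall_notMem]
        intro m hm
        rw [mem_filter, mem_filter] at hm
        apply hP
        have e2 : (m : ℤ) = (r : ℤ) + 2 ^ t * ((m / q : ℕ) : ℤ) := by
          have h3 := Nat.mod_add_div m q
          rw [hm.2] at h3
          have h4 : ((r + q * (m / q) : ℕ) : ℤ) = (m : ℤ) := by rw [h3]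
          rw [← h4, hq]; push_cast; ring
        have h5 := hm.1.2
        rw [e2, pr_shift] at h5
        exact h5
      rw [e, sum_empty, norm_zero]
      exact hβ
  refine (sum_le_sum h2).trans ?_
  rw [sum_const, card_range, nsmul_eq_mul, hq]
  push_cast
  exact le_rfl

open Classical in
/-- the ordered pairs with a common point -/
noncomputable def PA (d : ℤ) (t a : ℕ) (R : ℝ) (N1 N : ℕ) : Finset (ℕ × ℕ) :=
  ((GA d t a R N1 N) ×ˢ (GA d t a R N1 N)).filter fun p => (Tz d)^[t] (p.1 : ℤ) = (Tz d)^[t] (p.2 : ℤ)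

theorem mem_PA {t a : ℕ} {R : ℝ} {N1 N : ℕ} {p : ℕ × ℕ} : p ∈ PA d t a R N1 N ↔
    (p.1 ∈ GA d t a R N1 N ∧ p.2 ∈ GA d t a R N1 N) ∧ (Tz d)^[t] (p.1 : ℤ) = (Tz d)^[t] (p.2 : ℤ) := by
  classical
  unfold PA
  rw [mem_filter, mem_product]

open Classical in
theorem upper_pairs' (hd : d = 1 ∨ d = -1) (t a : ℕ) {R : ℝ} (N1 N : ℕ) (z : ℕ → ℂ) :
    ∑ p ∈ (PA d t a R N1 N).filter (fun p => p.1 < p.2), z p.1 * (starRingEnd ℂ) (z p.2)
      = ∑ h ∈ Icc 1 ⌊R * 2 ^ t / 3 ^ a⌋₊, ∑ m ∈ (Ioc N1 (N - h)).filter (fun m : ℕ => Pr d t a R h m),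
          z m * (starRingEnd ℂ) (z (m + h)) := by
  rw [sum_sigma']
  refine sum_bij' (fun p _ => ⟨p.2 - p.1, p.1⟩) (fun q _ => (q.2, q.2 + q.1)) ?_ ?_ ?_ ?_ ?_
  · intro p hp
    rw [mem_filter, mem_PA, mem_GA, mem_GA] at hp
    obtain ⟨⟨⟨⟨a1, a2⟩, b1, b2⟩, hk⟩, hlt⟩ := hp
    rw [mem_sigma, mem_Icc, mem_filter, mem_Ioc]
    have e : ((p.1 : ℤ) + ((p.2 - p.1 : ℕ) : ℤ)) = (p.2 : ℤ) := by omega
    refine ⟨⟨by dsimp only; omega, ?_⟩, ⟨by dsimp only; omega, by dsimp only; omega⟩, ?_⟩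
    · apply Nat.le_floor
      have h1 := pr_small hd t a a2 b2 hk
      have h2 : (((p.2 : ℤ) - (p.1 : ℤ) : ℤ) : ℝ) = ((p.2 - p.1 : ℕ) : ℝ) := by
        have : ((p.2 : ℤ) - (p.1 : ℤ) : ℤ) = ((p.2 - p.1 : ℕ) : ℤ) := by omega
        rw [this]; norm_cast
      rw [h2] at h1
      exact h1
    · unfold Pr
      dsimp only
      rw [e]
      exact ⟨a2, b2, hk⟩
  · rintro ⟨h, m⟩ hq
    rw [mem_sigma, mem_Icc, mem_filter, mem_Ioc] at hq
    dsimp only at hq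
    obtain ⟨⟨h1, h2⟩, ⟨h3, h4⟩, h5, h6, h7⟩ := hq
    rw [mem_filter, mem_PA, mem_GA, mem_GA]
    dsimp only
    push_cast
    refine ⟨⟨⟨⟨⟨h3, by omega⟩, h5⟩, ⟨by omega, by omega⟩, h6⟩, h7⟩, by omega⟩
  · intro p hp
    rw [mem_filter] at hp
    have : p.1 + (p.2 - p.1) = p.2 := by omega
    simp only [this, Prod.mk.eta]
  · rintro ⟨h, m⟩ _
    simp
  · intro p hp
    rw [mem_filter] at hp
    have : p.1 + (p.2 - p.1) = p.2 := by omega
    simp only [this]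

open Classical in
/-- THE DISPERSION INEQUALITY for a fixed number of odd steps -/
theorem dispA (hd : d = 1 ∨ d = -1) (t a : ℕ) {R : ℝ} (hR : 0 ≤ R) (N1 N : ℕ) {F : ℤ → ℝ} (hF : Sync d F)
    {z : ℕ → ℂ} (hz1 : ∀ m, ‖z m‖ ≤ 1) {β : ℕ → ℝ} (hβ : ∀ h, 0 ≤ β h)
    (hz : ∀ h : ℕ, 1 ≤ h → (h : ℝ) ≤ R * 2 ^ t / 3 ^ a → ∀ m0 J : ℕ, N1 < m0 →
      (∀ j < J, m0 + 2 ^ t * j + h ≤ N) →
      ‖∑ j ∈ range J, z (m0 + 2 ^ t * j) * (starRingEnd ℂ) (z (m0 + 2 ^ t * j + h))‖ ≤ β h) :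
    ‖∑ m ∈ GA d t a R N1 N, (F m : ℂ) * z m‖ ^ 2 ≤ (N * (3 ^ a / 2 ^ t) + R) *
      (N + 2 * (2 ^ t * ∑ h ∈ Icc 1 ⌊R * 2 ^ t / 3 ^ a⌋₊, β h)) := by
  set G := GA d t a R N1 N with hG
  set κ : ℕ → ℤ := fun m => (Tz d)^[t] (m : ℤ) with hκ
  set I := G.image κ with hI
  set A : ℤ → ℂ := fun p => ∑ m ∈ G.filter (fun m => κ m = p), z m with hA
  -- step 1
  have h1 : ‖∑ m ∈ G, (F m : ℂ) * z m‖ ≤ ∑ p ∈ I, ‖A p‖ := by
    rw [← sum_fiberwise_of_maps_to (s := G) (t := I) (g := κ) (fun m hm => mem_image_of_mem _ hm)]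
    refine (norm_sum_le _ _).trans (sum_le_sum fun p hp => ?_)
    rw [hI, mem_image] at hp
    obtain ⟨m0, hm0, hp0⟩ := hp
    have e : ∑ m ∈ G.filter (fun m => κ m = p), (F m : ℂ) * z m = (F m0 : ℂ) * A p := by
      rw [hA]
      dsimp only
      rw [mul_sum]
      apply sum_congr rfl
      intro m hm
      rw [mem_filter] at hm
      have h2 : κ m = κ m0 := by rw [hm.2, hp0]
      rw [hF.2 t m m0 h2]
    rw [e, norm_mul, Complex.norm_real, Real.norm_eq_abs]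
    have := hF.1 m0
    nlinarith [norm_nonneg (A p)]
  -- step 2
  have h2 : (∑ p ∈ I, ‖A p‖) ^ 2 ≤ I.card * ∑ p ∈ I, ‖A p‖ ^ 2 := sq_sum_le_card_mul_sum_sq
  -- step 3
  have h3 : ((∑ p ∈ I, ‖A p‖ ^ 2 : ℝ) : ℂ) = ∑ p ∈ PA d t a R N1 N, z p.1 * (starRingEnd ℂ) (z p.2) := by
    have e1 : ∑ p ∈ PA d t a R N1 N, z p.1 * (starRingEnd ℂ) (z p.2)
        = ∑ m ∈ G, ∑ m' ∈ G.filter (fun m' => κ m = κ m'), z m * (starRingEnd ℂ) (z m') := by
      unfold PA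
      rw [sum_filter, sum_product]
      exact sum_congr rfl fun m _ => (sum_filter _ _).symm
    rw [e1, ← sum_fiberwise_of_maps_to (s := G) (t := I) (g := κ) (fun m hm => mem_image_of_mem _ hm)]
    push_cast
    apply sum_congr rfl
    intro p _
    have e2 : ∑ m ∈ G.filter (fun m => κ m = p), ∑ m' ∈ G.filter (fun m' => κ m = κ m'), z m * (starRingEnd ℂ) (z m')
        = ∑ m ∈ G.filter (fun m => κ m = p), ∑ m' ∈ G.filter (fun m' => κ m' = p), z m * (starRingEnd ℂ) (z m') := by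
      apply sum_congr rfl
      intro m hm
      rw [mem_filter] at hm
      rw [hm.2]
      apply sum_congr _ fun _ _ => rfl
      ext m'
      rw [mem_filter, mem_filter]
      constructor
      · rintro ⟨a, b⟩; exact ⟨a, b.symm⟩
      · rintro ⟨a, b⟩; exact ⟨a, b.symm⟩
    rw [e2, ← sum_mul_sum, ← map_sum]
    rw [← Complex.ofReal_pow, ← Complex.normSq_eq_norm_sq, Complex.mul_conj]
  -- step 4
  set D : ℂ := ∑ p ∈ (PA d t a R N1 N).filter (fun p => p.1 < p.2), z p.1 * (starRingEnd ℂ) (z p.2) with hD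
  have h4 : ∑ p ∈ PA d t a R N1 N, z p.1 * (starRingEnd ℂ) (z p.2)
      = ∑ p ∈ (PA d t a R N1 N).filter (fun p => p.1 = p.2), z p.1 * (starRingEnd ℂ) (z p.2)
        + (D + (starRingEnd ℂ) D) := by
    rw [← sum_filter_add_sum_filter_not (PA d t a R N1 N) (fun p => p.1 = p.2)]
    congr 1
    rw [← sum_filter_add_sum_filter_not ((PA d t a R N1 N).filter fun p => ¬ p.1 = p.2) (fun p => p.1 < p.2)]
    congr 1
    · rw [hD, filter_filter]
      apply sum_congr _ fun _ _ => rfl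
      apply filter_congr
      intro p _
      omega
    · rw [hD, map_sum, filter_filter]
      refine sum_bij' (fun p _ => (p.2, p.1)) (fun p _ => (p.2, p.1)) ?_ ?_ ?_ ?_ ?_
      · intro p hp
        rw [mem_filter, mem_PA] at hp ⊢
        exact ⟨⟨⟨hp.1.1.2, hp.1.1.1⟩, hp.1.2.symm⟩, by dsimp only; omega⟩
      · intro p hp
        rw [mem_filter, mem_PA] at hp ⊢
        refine ⟨⟨⟨hp.1.1.2, hp.1.1.1⟩, hp.1.2.symm⟩, ?_⟩
        dsimp only
        have := hp.2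
        omega
      · intro p _; rfl
      · intro p _; rfl
      · intro p _
        dsimp only
        rw [map_mul, Complex.conj_conj, mul_comm]
  have h5 : ‖∑ p ∈ (PA d t a R N1 N).filter (fun p => p.1 = p.2), z p.1 * (starRingEnd ℂ) (z p.2)‖ ≤ N := by
    refine (norm_sum_le _ _).trans ?_
    have h6 : ∀ p ∈ (PA d t a R N1 N).filter (fun p => p.1 = p.2), ‖z p.1 * (starRingEnd ℂ) (z p.2)‖ ≤ 1 := by
      intro p _
      rw [norm_mul, RCLike.norm_conj]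
      have a := hz1 p.1
      have b := hz1 p.2
      nlinarith [norm_nonneg (z p.1), norm_nonneg (z p.2)]
    refine (sum_le_sum h6).trans ?_
    rw [sum_const, nsmul_eq_mul, mul_one]
    have h7 : ((PA d t a R N1 N).filter (fun p => p.1 = p.2)) ⊆ (Icc 1 N).image fun m => (m, m) := by
      intro p hp
      rw [mem_filter, mem_PA, mem_GA] at hp
      rw [mem_image]
      refine ⟨p.1, ?_, ?_⟩
      · rw [mem_Icc]; have := hp.1.1.1.1; omega
      · ext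
        · rfl
        · exact hp.2
    have h8 := (card_le_card h7).trans card_image_le
    rw [Nat.card_Icc, Nat.add_sub_cancel] at h8
    exact_mod_cast h8
  have h6 : ‖D‖ ≤ 2 ^ t * ∑ h ∈ Icc 1 ⌊R * 2 ^ t / 3 ^ a⌋₊, β h := by
    rw [hD, upper_pairs' hd, mul_sum]
    refine (norm_sum_le _ _).trans (sum_le_sum fun h hh => ?_)
    rw [mem_Icc] at hh
    have hh2 : (h : ℝ) ≤ R * 2 ^ t / 3 ^ a := (Nat.le_floor_iff (by positivity)).1 hh.2
    exact pr_sum t a R N1 N h (hz h hh.1 hh2) (hβ h)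
  have h7 : ∑ p ∈ I, ‖A p‖ ^ 2 ≤ N + 2 * (2 ^ t * ∑ h ∈ Icc 1 ⌊R * 2 ^ t / 3 ^ a⌋₊, β h) := by
    have h8 : ‖((∑ p ∈ I, ‖A p‖ ^ 2 : ℝ) : ℂ)‖ = ∑ p ∈ I, ‖A p‖ ^ 2 := by
      rw [Complex.norm_real, Real.norm_eq_abs, abs_of_nonneg (sum_nonneg fun _ _ => by positivity)]
    rw [← h8, h3, h4]
    refine (norm_add_le _ _).trans ?_
    have h9 := norm_add_le D ((starRingEnd ℂ) D)
    rw [RCLike.norm_conj] at h9
    linarith
  calc _ ≤ (∑ p ∈ I, ‖A p‖) ^ 2 := pow_le_pow_left₀ (norm_nonneg _) h1 2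
    _ ≤ I.card * ∑ p ∈ I, ‖A p‖ ^ 2 := h2
    _ ≤ _ := mul_le_mul (image_card' hd t a hR N1 N) h7 (sum_nonneg fun _ _ => by positivity) (by positivity)

end Pool.Agent.Y55.DS
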