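import Pool.Agent.Y55.DS.Quant

/-! Joint distribution in residue classes of strongly additive functions. -/

set_option autoImplicit false

namespace Pool.Agent.Y55.DS

open Finset Pool.Agent.Y965.PS

/-- `exp (2 π i x)` -/
noncomputable def e (x : ℝ) : ℂ := Complex.exp (((2 * Real.pi * x : ℝ) : ℂ) * Complex.I)

theorem e_norm (x : ℝ) : ‖e x‖ = 1 := Complex.norm_exp_ofReal_mul_I _

theorem e_add (x y : ℝ) : e (x + y) = e x * e y := by
  unfold e; rw [← Complex.exp_add]; congr 1; push_cast; ring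

theorem e_zero : e 0 = 1 := by unfold e; simp

theorem e_neg (x : ℝ) : e (-x) = (starRingEnd ℂ) (e x) := by
  unfold e; rw [← Complex.exp_conj]
  congr 1
  rw [map_mul, Complex.conj_ofReal, Complex.conj_I]
  push_cast; ring

theorem e_nat_mul (n : ℕ) (x : ℝ) : e (n * x) = e x ^ n := by
  unfold e; rw [← Complex.exp_nat_mul]; congr 1; push_cast; ring

theorem e_eq_one {x : ℝ} : e x = 1 ↔ ∃ k : ℤ, x = k := by
  unfold e
  rw [Complex.exp_eq_one_iff]
  constructor
  · rintro ⟨k, hk⟩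
    refine ⟨k, ?_⟩
    have h1 : ((2 * Real.pi * x : ℝ) : ℂ) = ((2 * Real.pi * k : ℝ) : ℂ) := by
      have h2 : (((2 * Real.pi * x : ℝ) : ℂ) - ((2 * Real.pi * k : ℝ) : ℂ)) * Complex.I = 0 := by
        rw [sub_mul, hk]; push_cast; ring
      have h3 := (mul_eq_zero.1 h2).resolve_right Complex.I_ne_zero
      exact sub_eq_zero.1 h3
    have h2 : 2 * Real.pi * x = 2 * Real.pi * k := by exact_mod_cast h1
    have h3 : (2 * Real.pi) ≠ 0 := by positivity
    exact mul_left_cancel₀ h3 h2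
  · rintro ⟨k, rfl⟩
    refine ⟨k, ?_⟩
    push_cast; ring

theorem e_int (k : ℤ) : e k = 1 := e_eq_one.2 ⟨k, rfl⟩

/-- the sum over the roots of unity -/
theorem root_sum {m : ℕ} (hm : 1 ≤ m) (x : ℤ) : ∑ j ∈ range m, e (j * x / m) = if (m : ℤ) ∣ x then (m : ℂ) else 0 := by
  have hm0 : (m : ℝ) ≠ 0 := by
    have : (0 : ℝ) < m := by exact_mod_cast hm
    exact this.ne'
  have h1 : ∀ j : ℕ, e (j * x / m) = e (x / m) ^ j := by
    intro j; rw [← e_nat_mul]; congr 1; ring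
  simp only [h1]
  have h2 : e (x / m) = 1 ↔ (m : ℤ) ∣ x := by
    rw [e_eq_one]
    constructor
    · rintro ⟨k, hk⟩
      refine ⟨k, ?_⟩
      rw [div_eq_iff hm0] at hk
      have : (x : ℝ) = ((m * k : ℤ) : ℝ) := by push_cast; rw [hk]; ring
      exact_mod_cast this
    · rintro ⟨k, hk⟩
      refine ⟨k, ?_⟩
      rw [hk]; push_cast; field_simp
  by_cases hx : (m : ℤ) ∣ x
  · rw [if_pos hx, h2.2 hx]; simp
  · rw [if_neg hx]
    have h3 : e (x / m) ≠ 1 := fun h => hx (h2.1 h)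
    have h4 : e (x / m) ^ m = 1 := by
      rw [← e_nat_mul, mul_div_cancel₀ _ hm0]; exact e_int x
    have h5 := mul_neg_geom_sum (e (x / m)) m
    rw [h4, sub_self] at h5
    exact (mul_eq_zero.1 h5).resolve_left (sub_ne_zero.2 h3.symm)

/-- the sum over a subgroup -/
theorem root_sum_sub {D g : ℕ} (hD : 1 ≤ D) (hg : 1 ≤ g) (x : ℤ) :
    ∑ j ∈ (range (D * g)).filter (fun j => D ∣ j), e (j * x / (D * g : ℕ)) = if (g : ℤ) ∣ x then (g : ℂ) else 0 := by
  rw [← root_sum hg x]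
  have hDR : (D : ℝ) ≠ 0 := by
    have : (0 : ℝ) < D := by exact_mod_cast hD
    exact this.ne'
  have hgR : (g : ℝ) ≠ 0 := by
    have : (0 : ℝ) < g := by exact_mod_cast hg
    exact this.ne'
  have himg : (range (D * g)).filter (fun j => D ∣ j) = (range g).image fun l => D * l := by
    ext j
    rw [mem_filter, mem_range, mem_image]
    constructor
    · rintro ⟨h1, l, rfl⟩
      exact ⟨l, mem_range.2 (Nat.lt_of_mul_lt_mul_left h1), rfl⟩
    · rintro ⟨l, hl, rfl⟩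
      rw [mem_range] at hl
      exact ⟨Nat.mul_lt_mul_of_pos_left hl hD, dvd_mul_right _ _⟩
  rw [himg, sum_image]
  · apply sum_congr rfl
    intro l _
    congr 1
    push_cast
    field_simp
  · intro a _ b _ h
    exact Nat.eq_of_mul_eq_mul_left hD h

/-- strongly `q`-additive functions -/
def SA (q : ℕ) (W : ℕ → ℤ) : Prop := ∀ n r, r < q → W (q * n + r) = W n + W r

/-- the obstruction -/
def obs (q : ℕ) (W : ℕ → ℤ) (m : ℕ) : ℕ := Nat.gcd m ((range (q + 1)).gcd fun r => (W r - r * W 1).natAbs)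

theorem SA.zero {q : ℕ} {W : ℕ → ℤ} (hq : 0 < q) (h : SA q W) : W 0 = 0 := by
  have := h 0 0 hq
  rw [mul_zero, add_zero] at this
  linarith

theorem SA.mod {q : ℕ} {W : ℕ → ℤ} (hq : 2 ≤ q) (h : SA q W) {g : ℤ} (hg : ∀ r ≤ q, g ∣ W r - r * W 1) :
    ∀ n : ℕ, g ∣ W n - n * W 1 := by
  intro n
  induction n using Nat.strong_induction_on with
  | _ n ih =>
    rcases Nat.lt_or_ge n q with hn | hn
    · exact hg n hn.le
    · have e1 := Nat.div_add_mod n q
      have h4 : n / q < n := Nat.div_lt_self (by omega) (by omega)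
      have h5 : n % q < q := Nat.mod_lt _ (by omega)
      have h6 := ih _ h4
      have h7 := hg (n % q) h5.le
      have h8 := hg q le_rfl
      have h9 : W q = W 1 := by
        have := h 1 0 (by omega)
        rw [mul_one, add_zero, h.zero (by omega), add_zero] at this
        exact this
      rw [h9] at h8
      have h10 : W n = W (n / q) + W (n % q) := by
        rw [← h _ _ h5, e1]
      have h11 : (n : ℤ) = q * ((n / q : ℕ) : ℤ) + ((n % q : ℕ) : ℤ) := by exact_mod_cast e1.symm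
      have h12 : W n - n * W 1 = (W (n / q) - ((n / q : ℕ) : ℤ) * W 1) + (W (n % q) - ((n % q : ℕ) : ℤ) * W 1)
          + ((n / q : ℕ) : ℤ) * (W 1 - q * W 1) := by
        rw [h10]
        rw [h11]; ring
      rw [h12]
      exact dvd_add (dvd_add h6 h7) (Dvd.dvd.mul_left h8 _)

theorem obs_dvd (q : ℕ) (W : ℕ → ℤ) (m : ℕ) : obs q W m ∣ m := Nat.gcd_dvd_left _ _

theorem obs_dvd' {q : ℕ} {W : ℕ → ℤ} {m : ℕ} {r : ℕ} (hr : r ≤ q) : (obs q W m : ℤ) ∣ W r - r * W 1 := by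
  have h1 : obs q W m ∣ (W r - r * W 1).natAbs :=
    (Nat.gcd_dvd_right _ _).trans (Finset.gcd_dvd (f := fun r : ℕ => (W r - r * W 1).natAbs) (mem_range.2 (by omega)))
  exact Int.natCast_dvd.2 h1

/-- the degenerate frequencies -/
theorem degen {q : ℕ} {W : ℕ → ℤ} {m : ℕ} (hm : 1 ≤ m) {j : ℕ}
    (h : ∀ n, e (j * W n / m) = e (j * W 1 / m) ^ n) : m / obs q W m ∣ j := by
  have hmR : (m : ℝ) ≠ 0 := by
    have : (0 : ℝ) < m := by exact_mod_cast hm
    exact this.ne'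
  have h1 : ∀ r : ℕ, m ∣ j * (W r - r * W 1).natAbs := by
    intro r
    have h2 := h r
    rw [← e_nat_mul] at h2
    have h3 : e (j * (W r - r * W 1 : ℤ) / m) = 1 := by
      have h4 : (j : ℝ) * (W r - r * W 1 : ℤ) / m = j * W r / m + -(r * (j * W 1 / m)) := by push_cast; ring
      rw [h4, e_add, h2, e_neg, Complex.mul_conj, Complex.normSq_eq_norm_sq, e_norm]; norm_num
    obtain ⟨k, hk⟩ := e_eq_one.1 h3
    rw [div_eq_iff hmR] at hk
    have h5 : (j : ℤ) * (W r - r * W 1) = k * m := by exact_mod_cast hk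
    have h6 : (m : ℤ) ∣ (j : ℤ) * (W r - r * W 1) := ⟨k, by rw [h5]; ring⟩
    have h7 := Int.natAbs_dvd_natAbs.2 h6
    rw [Int.natAbs_mul] at h7
    simpa using h7
  have h2 : m ∣ j * ((range (q + 1)).gcd fun r => (W r - r * W 1).natAbs) := by
    rw [← Nat.cast_id j, ← Nat.cast_id m]
    have h3 : m ∣ (range (q + 1)).gcd fun r => j * (W r - r * W 1).natAbs :=
      Finset.dvd_gcd fun r _ => h1 r
    rw [Finset.gcd_mul_left] at h3
    simpa using h3
  have h3 : m ∣ j * obs q W m := by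
    unfold obs
    rw [← Nat.gcd_mul_left]
    exact Nat.dvd_gcd (dvd_mul_left _ _) h2
  have hg0 : 0 < obs q W m := Nat.gcd_pos_of_pos_left _ hm
  obtain ⟨t, ht⟩ := obs_dvd q W m
  have e1 : m / obs q W m = t := Nat.div_eq_of_eq_mul_right hg0 ht
  rw [e1]
  obtain ⟨v, hv⟩ := h3
  refine ⟨v, ?_⟩
  have h5 : obs q W m * j = obs q W m * (t * v) := by
    calc obs q W m * j = j * obs q W m := mul_comm _ _
      _ = m * v := hv
      _ = (obs q W m * t) * v := by rw [← ht]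
      _ = _ := by ring
  exact Nat.eq_of_mul_eq_mul_left hg0 h5

/-- the class -/
def Cl {ι : Type*} (m : ι → ℕ) (W : ι → ℕ → ℤ) (a : ι → ℤ) (M : ℕ) (b : ℤ) (n : ℕ) : Prop :=
  (∀ i, (m i : ℤ) ∣ W i n - a i) ∧ (M : ℤ) ∣ n - b

theorem sm_of_sa {q : ℕ} {W : ℕ → ℤ} (h : SA q W) (α : ℝ) : SM q (fun n => e (α * W n)) := by
  refine ⟨fun n => e_norm _, fun n r hr => ?_⟩
  simp only
  rw [← e_add, h n r hr]
  congr 1
  push_cast; ring

theorem e_twist (γ : ℝ) : (∀ n : ℕ, ‖e (γ * n)‖ = 1) ∧ ∀ h : ℕ, ∃ w0 : ℂ, ‖w0‖ = 1 ∧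
    ∀ n : ℕ, e (γ * n) * (starRingEnd ℂ) (e (γ * (n + h : ℕ))) = w0 := by
  refine ⟨fun n => e_norm _, fun h => ⟨e (-(γ * h)), e_norm _, fun n => ?_⟩⟩
  rw [← e_neg, ← e_add]
  congr 1
  push_cast; ring

theorem exists_lower {J : Type*} [DecidableEq J] (s : Finset J) (c : J → ℝ) (hc : ∀ j, 0 < c j) : ∃ c0 : ℝ, 0 < c0 ∧ ∀ j ∈ s, c0 ≤ c j := by
  induction s using Finset.induction_on with
  | empty => exact ⟨1, one_pos, by simp⟩
  | insert a s _ ih =>
    obtain ⟨c0, h0, h1⟩ := ih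
    refine ⟨min c0 (c a), lt_min h0 (hc a), ?_⟩
    intro j hj
    rw [mem_insert] at hj
    rcases hj with rfl | hj
    · exact min_le_right _ _
    · exact (min_le_left _ _).trans (h1 j hj)

end Pool.Agent.Y55.DS
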