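import Pool.Agent.Y55.DS.Disp

/-! The dispersion inequality: sum over all integers up to `N`. -/

set_option autoImplicit false

namespace Pool.Agent.Y55.DS

open Finset Pool.Agent.Y965.PS

variable {d : ℤ}

theorem one_class (hd : d = 1 ∨ d = -1) (u a : ℕ) (ha : 2 * u ≤ a) (ha' : a ≤ 3 * u) {R η : ℝ} (hR : 0 ≤ R) (hη : 0 ≤ η)
    (N : ℕ) (hN0 : 0 < N)
    (hRN : R * (32 / 9) ^ u ≤ N) {F : ℤ → ℝ} (hF : Sync d F) {z : ℕ → ℂ} (hz1 : ∀ m, ‖z m‖ ≤ 1) {β : ℕ → ℝ}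
    (hβ : ∀ h, 0 ≤ β h)
    (hz : ∀ h : ℕ, 1 ≤ h → (h : ℝ) ≤ R * (32 / 9) ^ u → ∀ m0 J : ℕ, (∀ j < J, m0 + 2 ^ (5 * u) * j + h ≤ N) →
      ‖∑ j ∈ range J, z (m0 + 2 ^ (5 * u) * j) * (starRingEnd ℂ) (z (m0 + 2 ^ (5 * u) * j + h))‖ ≤ β h)
    (hs : 2 ^ (5 * u) * ∑ h ∈ Icc 1 ⌊R * 2 ^ (5 * u) / 3 ^ a⌋₊, β h ≤ η * N * (R * 2 ^ (5 * u) / 3 ^ a)) :
    ‖∑ m ∈ GA d (5 * u) a R 0 N, (F m : ℂ) * z m‖ ≤ N * Real.sqrt ((27 / 32) ^ u + R / N + 4 * η * R) := by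
  have h12 : (0 : ℝ) < 9 ^ u := by positivity
  have hNR : (0 : ℝ) < N := by exact_mod_cast hN0
  have h10 : (3 : ℝ) ^ (2 * u) = 9 ^ u := by rw [pow_mul]; norm_num
  have h11 : (2 : ℝ) ^ (5 * u) = 32 ^ u := by rw [pow_mul]; norm_num
  have h27 : (3 : ℝ) ^ (3 * u) = 27 ^ u := by rw [pow_mul]; norm_num
  have hw1 : (3 : ℝ) ^ a / 2 ^ (5 * u) ≤ (27 / 32) ^ u := by
    rw [div_pow, h11, ← h27]
    have : (3 : ℝ) ^ a ≤ 3 ^ (3 * u) := pow_le_pow_right₀ (by norm_num) ha'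
    gcongr
  have hw2 : R * 2 ^ (5 * u) / 3 ^ a ≤ R * (32 / 9) ^ u := by
    rw [div_pow, h11, ← mul_div_assoc, ← h10]
    have : (3 : ℝ) ^ (2 * u) ≤ 3 ^ a := pow_le_pow_right₀ (by norm_num) ha
    gcongr
  have hw0 : 0 ≤ R * 2 ^ (5 * u) / 3 ^ a := by positivity
  have key := dispA hd (5 * u) a hR 0 N hF hz1 hβ (fun h h1 h2 m0 J _ h3 => hz h h1 (h2.trans hw2) m0 J h3)
  set w : ℝ := 3 ^ a / 2 ^ (5 * u) with hw
  set v : ℝ := R * 2 ^ (5 * u) / 3 ^ a with hv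
  have hwv : w * v = R := by rw [hw, hv]; field_simp
  have hww : 0 < w := by rw [hw]; positivity
  have hvN : v ≤ N := hw2.trans hRN
  have h1 : ‖∑ m ∈ GA d (5 * u) a R 0 N, (F m : ℂ) * z m‖ ^ 2 ≤ (N : ℝ) ^ 2 * ((27 / 32) ^ u + R / N + 4 * η * R) := by
    refine key.trans ?_
    have e1 : (N * w + R) * (N + 2 * (2 ^ (5 * u) * ∑ h ∈ Icc 1 ⌊v⌋₊, β h)) ≤ (N * w + R) * (N + 2 * (η * N * v)) := by
      apply mul_le_mul_of_nonneg_left _ (by positivity)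
      linarith
    refine e1.trans ?_
    have e2 : (N * w + R) * (N + 2 * (η * N * v)) = (N : ℝ) ^ 2 * w + N * R + 2 * η * N ^ 2 * (w * v) + 2 * η * R * N * v := by ring
    rw [e2, hwv]
    have e3 : (N : ℝ) ^ 2 * ((27 / 32) ^ u + R / N + 4 * η * R) = (N : ℝ) ^ 2 * (27 / 32) ^ u + N * R + 2 * η * N ^ 2 * R
        + 2 * η * R * N * N := by
      field_simp; ring
    rw [e3]
    have e4 : (N : ℝ) ^ 2 * w ≤ (N : ℝ) ^ 2 * (27 / 32) ^ u := mul_le_mul_of_nonneg_left hw1 (by positivity)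
    have e5 : 2 * η * R * N * v ≤ 2 * η * R * N * N := mul_le_mul_of_nonneg_left hvN (by positivity)
    linarith
  have h2 : 0 ≤ (27 / 32) ^ u + R / N + 4 * η * R := by positivity
  refine le_of_sq_le_sq ?_ (by positivity)
  rw [mul_pow, Real.sq_sqrt h2]
  exact h1
where
  le_of_sq_le_sq {x y : ℝ} (h : x ^ 2 ≤ y ^ 2) (hy : 0 ≤ y) : x ≤ y := by
    exact le_of_sq_le_sq' h hy
  le_of_sq_le_sq' {x y : ℝ} (h : x ^ 2 ≤ y ^ 2) (hy : 0 ≤ y) : x ≤ y := by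
    by_contra hc
    push Not at hc
    nlinarith

open Classical in
/-- THE MASTER INEQUALITY -/
theorem master (hd : d = 1 ∨ d = -1) (u : ℕ) {R η : ℝ} (hR : 0 < R) (hη : 0 ≤ η) (N : ℕ) (hN : 2 ^ (5 * u) ≤ N)
    (hRN : R * (32 / 9) ^ u ≤ N) {F : ℤ → ℝ} (hF : Sync d F) {z : ℕ → ℂ} (hz1 : ∀ m, ‖z m‖ ≤ 1) {β : ℕ → ℝ}
    (hβ : ∀ h, 0 ≤ β h)
    (hz : ∀ h : ℕ, 1 ≤ h → (h : ℝ) ≤ R * (32 / 9) ^ u → ∀ m0 J : ℕ, (∀ j < J, m0 + 2 ^ (5 * u) * j + h ≤ N) →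
      ‖∑ j ∈ range J, z (m0 + 2 ^ (5 * u) * j) * (starRingEnd ℂ) (z (m0 + 2 ^ (5 * u) * j + h))‖ ≤ β h)
    (hs : ∀ a, 2 * u ≤ a → a ≤ 3 * u →
      2 ^ (5 * u) * ∑ h ∈ Icc 1 ⌊R * 2 ^ (5 * u) / 3 ^ a⌋₊, β h ≤ η * N * (R * 2 ^ (5 * u) / 3 ^ a)) :
    ‖∑ m ∈ Icc 1 N, (F m : ℂ) * z m‖ ≤ 2 * N * (2 * (3125 / 3456) ^ u + 5 * u / (4 * R))
      + (u + 1) * (N * Real.sqrt ((27 / 32) ^ u + R / N + 4 * η * R)) := by
  have hN0 : 0 < N := lt_of_lt_of_le (by positivity) hN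
  have hb : ∀ m : ℕ, ‖(F m : ℂ) * z m‖ ≤ 1 := by
    intro m
    rw [norm_mul, Complex.norm_real, Real.norm_eq_abs]
    have h1 := hF.1 m
    have h2 := hz1 m
    nlinarith [norm_nonneg (z m), abs_nonneg (F m)]
  rw [← sum_filter_add_sum_filter_not (Icc 1 N) (fun m : ℕ => ¬ Good d u R (m : ℤ))]
  refine (norm_add_le _ _).trans (add_le_add ?_ ?_)
  · refine (norm_sum_le _ _).trans ((sum_le_sum fun m _ => hb m).trans ?_)
    rw [sum_const, nsmul_eq_mul, mul_one]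
    exact bad_count u hR N hN
  · have h1 : ((Icc 1 N).filter fun m : ℕ => ¬ ¬ Good d u R (m : ℤ)) = (Icc (2 * u) (3 * u)).biUnion fun a => GA d (5 * u) a R 0 N := by
      ext m
      rw [mem_filter, mem_biUnion, not_not, mem_Icc]
      constructor
      · rintro ⟨⟨h1, h2⟩, h3, h4, h5⟩
        refine ⟨ac d (5 * u) m, mem_Icc.2 ⟨h3, h4⟩, ?_⟩
        rw [mem_GA]
        exact ⟨⟨by omega, h2⟩, rfl, h5⟩
      · rintro ⟨a, ha, hm⟩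
        rw [mem_GA] at hm
        rw [mem_Icc] at ha
        refine ⟨⟨by omega, hm.1.2⟩, ?_⟩
        unfold Good
        rw [hm.2.1]
        exact ⟨ha.1, ha.2, hm.2.2⟩
    rw [h1, sum_biUnion]
    · refine (norm_sum_le _ _).trans ?_
      have h2 : ∀ a ∈ Icc (2 * u) (3 * u), ‖∑ m ∈ GA d (5 * u) a R 0 N, (F m : ℂ) * z m‖ ≤
          N * Real.sqrt ((27 / 32) ^ u + R / N + 4 * η * R) := by
        intro a ha
        rw [mem_Icc] at ha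
        exact one_class hd u a ha.1 ha.2 hR.le hη N hN0 hRN hF hz1 hβ hz (hs a ha.1 ha.2)
      refine (sum_le_sum h2).trans ?_
      rw [sum_const, Nat.card_Icc, nsmul_eq_mul]
      have h3 : 3 * u + 1 - 2 * u = u + 1 := by omega
      rw [h3]
      push_cast
      exact le_rfl
    · intro a _ b _ hab
      rw [Function.onFun, Finset.disjoint_left]
      intro m hm hm'
      rw [mem_GA] at hm hm'
      exact hab (hm.2.1.symm.trans hm'.2.1)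

end Pool.Agent.Y55.DS
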