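import Mathlib

/-! Correlations of strongly `q`-multiplicative functions. -/

set_option autoImplicit false

namespace Pool.Agent.Y55.DS

open Finset

/-- strongly `q`-multiplicative function with values of modulus one -/
def SM (q : ℕ) (f : ℕ → ℂ) : Prop :=
  (∀ n, ‖f n‖ = 1) ∧ ∀ n r, r < q → f (q * n + r) = f n * f r

variable {q : ℕ} {f : ℕ → ℂ}

theorem SM.zero (hq : 0 < q) (hf : SM q f) : f 0 = 1 := by
  have h := hf.2 0 0 hq
  rw [mul_zero, add_zero] at h
  have h1 : f 0 ≠ 0 := by
    intro h0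
    have := hf.1 0
    rw [h0, norm_zero] at this
    exact zero_ne_one this
  have h2 : f 0 * 1 = f 0 * f 0 := by rw [mul_one]; exact h
  exact (mul_left_cancel₀ h1 h2).symm

theorem SM.ne (hf : SM q f) (n : ℕ) : f n ≠ 0 := by
  intro h0
  have := hf.1 n
  rw [h0, norm_zero] at this
  exact zero_ne_one this

/-- the block rule -/
theorem SM.block (hq : 0 < q) (hf : SM q f) : ∀ i m c : ℕ, c < q ^ i → f (q ^ i * m + c) = f m * f c := by
  intro i
  induction i with
  | zero =>
    intro m c hc
    have : c = 0 := by simpa using hc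
    subst this
    rw [pow_zero, one_mul, add_zero, hf.zero hq, mul_one]
  | succ i ih =>
    intro m c hc
    have h1 : c % q < q := Nat.mod_lt _ hq
    have h2 : c / q < q ^ i := by
      apply Nat.div_lt_of_lt_mul
      rw [← pow_succ']; exact hc
    have e : q ^ (i + 1) * m + c = q * (q ^ i * m + c / q) + c % q := by
      have := Nat.div_add_mod c q
      rw [pow_succ']
      calc q * q ^ i * m + c = q * q ^ i * m + (q * (c / q) + c % q) := by rw [this]
        _ = _ := by ring
    have e2 : f c = f (c / q) * f (c % q) := by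
      rw [← hf.2 _ _ h1, Nat.div_add_mod]
    rw [e, hf.2 _ _ h1, ih _ _ h2, e2, mul_assoc]

theorem SM.pow (hq : 0 < q) (hf : SM q f) (i : ℕ) : SM (q ^ i) f :=
  ⟨hf.1, fun n r hr => hf.block hq i n r hr⟩

/-- the correlation without overflow -/
noncomputable def Co (f : ℕ → ℂ) (M s : ℕ) : ℂ := ∑ c ∈ range (M - s), f c * (starRingEnd ℂ) (f (c + s))

theorem norm_term (hf : SM q f) (a b : ℕ) : ‖f a * (starRingEnd ℂ) (f b)‖ = 1 := by
  rw [norm_mul, RCLike.norm_conj, hf.1, hf.1, mul_one]

theorem norm_Co (hf : SM q f) (M s : ℕ) : ‖Co f M s‖ ≤ ((M - s : ℕ) : ℝ) := by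
  unfold Co
  refine (norm_sum_le _ _).trans ?_
  rw [sum_congr rfl fun c _ => norm_term hf c (c + s)]
  simp

/-- the carry recursion -/
theorem Co_rec (hq : 0 < q) (hf : SM q f) (i h' s0 : ℕ) (hs0 : s0 ≤ q) :
    Co f (q ^ (i + 1)) (s0 + q * h') =
      (∑ c ∈ range (q - s0), f c * (starRingEnd ℂ) (f (c + s0))) * Co f (q ^ i) h'
      + (∑ c ∈ Ico (q - s0) q, f c * (starRingEnd ℂ) (f (c + s0 - q))) * Co f (q ^ i) (h' + 1) := by
  -- split the sum according to the last digit
  have hsplit : Co f (q ^ (i + 1)) (s0 + q * h') = ∑ c0 ∈ range q, ∑ c' ∈ range (q ^ i - (h' + (if c0 < q - s0 then 0 else 1))),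
      f (q * c' + c0) * (starRingEnd ℂ) (f (q * c' + c0 + (s0 + q * h'))) := by
    unfold Co
    rw [sum_sigma']
    symm
    refine sum_bij' (fun p _ => q * p.2 + p.1) (fun c _ => ⟨c % q, c / q⟩) ?_ ?_ ?_ ?_ ?_
    · rintro ⟨c0, c'⟩ hp
      rw [mem_sigma, mem_range, mem_range] at hp
      obtain ⟨h1, h2⟩ := hp
      dsimp only at h1 h2 ⊢
      rw [mem_range]
      have e : q ^ (i + 1) = q * q ^ i := by rw [pow_succ']
      by_cases hc : c0 < q - s0
      · rw [if_pos hc] at h2
        have h3 : c' + h' + 1 ≤ q ^ i := by omega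
        have h4 : q * (c' + h' + 1) ≤ q * q ^ i := Nat.mul_le_mul_left _ h3
        have h5 : q * (c' + h' + 1) = q * c' + q * h' + q := by ring
        omega
      · rw [if_neg hc] at h2
        have h3 : c' + h' + 2 ≤ q ^ i := by omega
        have h4 : q * (c' + h' + 2) ≤ q * q ^ i := Nat.mul_le_mul_left _ h3
        have h5 : q * (c' + h' + 2) = q * c' + q * h' + (q + q) := by ring
        omega
    · intro c hc
      rw [mem_range] at hc
      rw [mem_sigma, mem_range, mem_range]
      dsimp only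
      refine ⟨Nat.mod_lt _ hq, ?_⟩
      have e : q ^ (i + 1) = q * q ^ i := by rw [pow_succ']
      have h1 := Nat.div_add_mod c q
      have h2 : q * (c / q) + c % q + (s0 + q * h') < q * q ^ i := by omega
      by_cases hc0 : c % q < q - s0
      · rw [if_pos hc0]
        have h3 : q * (c / q + h') < q * q ^ i := by
          have : q * (c / q + h') = q * (c / q) + q * h' := by ring
          omega
        have h4 : c / q + h' < q ^ i := Nat.lt_of_mul_lt_mul_left h3
        omega
      · rw [if_neg hc0]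
        have h3 : q * (c / q + h' + 1) < q * q ^ i := by
          have : q * (c / q + h' + 1) = q * (c / q) + q * h' + q := by ring
          omega
        have h4 : c / q + h' + 1 < q ^ i := Nat.lt_of_mul_lt_mul_left h3
        omega
    · rintro ⟨c0, c'⟩ hp
      rw [mem_sigma, mem_range, mem_range] at hp
      obtain ⟨h1, h2⟩ := hp
      dsimp only at h1 h2 ⊢
      have e1 : (q * c' + c0) % q = c0 := by rw [Nat.mul_add_mod, Nat.mod_eq_of_lt h1]
      have e2 : (q * c' + c0) / q = c' := by
        rw [Nat.mul_add_div hq, Nat.div_eq_of_lt h1, add_zero]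
      rw [e1, e2]
    · intro c _
      exact Nat.div_add_mod c q
    · intro p _
      rfl
  rw [hsplit]
  have h1 : ∀ c0 ∈ range q, ∑ c' ∈ range (q ^ i - (h' + (if c0 < q - s0 then 0 else 1))),
      f (q * c' + c0) * (starRingEnd ℂ) (f (q * c' + c0 + (s0 + q * h')))
      = if c0 < q - s0 then f c0 * (starRingEnd ℂ) (f (c0 + s0)) * Co f (q ^ i) h'
        else f c0 * (starRingEnd ℂ) (f (c0 + s0 - q)) * Co f (q ^ i) (h' + 1) := by
    intro c0 hc0
    rw [mem_range] at hc0
    by_cases hc : c0 < q - s0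
    · rw [if_pos hc, if_pos hc, add_zero]
      unfold Co
      rw [mul_sum]
      apply sum_congr rfl
      intro c' _
      have e : q * c' + c0 + (s0 + q * h') = q * (c' + h') + (c0 + s0) := by ring
      rw [e, hf.2 _ _ hc0, hf.2 _ _ (by omega), map_mul]
      ring
    · rw [if_neg hc, if_neg hc]
      unfold Co
      rw [mul_sum]
      apply sum_congr rfl
      intro c' _
      have e : q * c' + c0 + (s0 + q * h') = q * (c' + (h' + 1)) + (c0 + s0 - q) := by
        have : q * (c' + (h' + 1)) = q * c' + q * h' + q := by ring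
        omega
      rw [e, hf.2 _ _ hc0, hf.2 _ _ (by omega), map_mul]
      ring
  rw [sum_congr rfl h1, sum_ite]
  have e1 : (range q).filter (fun c0 => c0 < q - s0) = range (q - s0) := by
    ext c; rw [mem_filter, mem_range, mem_range]; omega
  have e2 : (range q).filter (fun c0 => ¬ c0 < q - s0) = Ico (q - s0) q := by
    ext c; rw [mem_filter, mem_range, mem_Ico]; omega
  rw [e1, e2, ← sum_mul, ← sum_mul]

/-- one step of the recursion: bound -/
theorem Co_step (hq : 0 < q) (hf : SM q f) (i h' s0 : ℕ) (hs0 : s0 ≤ q) {B : ℝ}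
    (h1 : ‖Co f (q ^ i) h'‖ ≤ B) (h2 : ‖Co f (q ^ i) (h' + 1)‖ ≤ B) :
    ‖Co f (q ^ (i + 1)) (s0 + q * h')‖ ≤ (‖Co f q s0‖ + s0) * B := by
  rw [Co_rec hq hf i h' s0 hs0]
  refine (norm_add_le _ _).trans ?_
  rw [norm_mul, norm_mul]
  have hB : 0 ≤ B := (norm_nonneg _).trans h1
  have h3 : ‖∑ c ∈ Ico (q - s0) q, f c * (starRingEnd ℂ) (f (c + s0 - q))‖ ≤ s0 := by
    refine (norm_sum_le _ _).trans ?_
    rw [sum_congr rfl fun c _ => norm_term hf c (c + s0 - q)]
    rw [sum_const, Nat.card_Ico, nsmul_eq_mul, mul_one]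
    have : q - (q - s0) = s0 := by omega
    rw [this]
  have h4 : ‖∑ c ∈ range (q - s0), f c * (starRingEnd ℂ) (f (c + s0))‖ = ‖Co f q s0‖ := rfl
  rw [h4, add_mul]
  exact add_le_add (mul_le_mul_of_nonneg_left h1 (norm_nonneg _))
    (mul_le_mul h3 h2 (norm_nonneg _) (Nat.cast_nonneg _))

theorem triv_step (hf : SM q f) {s0 : ℕ} (hs0 : s0 ≤ q) : ‖Co f q s0‖ + s0 ≤ q := by
  have := norm_Co hf q s0
  have h2 : ((q - s0 : ℕ) : ℝ) = q - s0 := by
    rw [Nat.cast_sub hs0]
  linarith

/-- the block average of the correlations -/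
theorem Co_sum (hq : 0 < q) (hf : SM q f) {h1 : ℕ} (hh1 : h1 < q) {ρ : ℝ} (hρ : 0 ≤ ρ)
    (hc0 : ‖Co f q h1‖ + h1 ≤ ρ * q) (hc1 : ‖Co f q (h1 + 1)‖ + (h1 + 1 : ℕ) ≤ ρ * q) : ∀ k i j : ℕ, k ≤ i →
    ∑ h ∈ range (q ^ k), max ‖Co f (q ^ i) (h + q ^ k * j)‖ ‖Co f (q ^ i) (h + q ^ k * j + 1)‖
      ≤ (q - 1 + ρ) ^ k * q ^ i := by
  intro k
  induction k with
  | zero =>
    intro i j _
    rw [pow_zero, pow_zero, range_one, sum_singleton, zero_add, one_mul, one_mul]
    apply max_le
    · refine (norm_Co hf _ _).trans ?_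
      exact_mod_cast Nat.sub_le _ _
    · refine (norm_Co hf _ _).trans ?_
      exact_mod_cast Nat.sub_le _ _
  | succ k ih =>
    intro i j hki
    obtain ⟨i, rfl⟩ : ∃ i', i = i' + 1 := ⟨i - 1, by omega⟩
    have ih' := ih i j (by omega)
    set b : ℕ → ℝ := fun h => max ‖Co f (q ^ i) h‖ ‖Co f (q ^ i) (h + 1)‖ with hb
    have hb0 : ∀ h, 0 ≤ b h := fun h => le_max_of_le_left (norm_nonneg _)
    -- split off the last digit
    have hsplit : ∀ g : ℕ → ℝ, ∑ h ∈ range (q ^ (k + 1)), g h = ∑ h' ∈ range (q ^ k), ∑ h0 ∈ range q, g (h0 + q * h') := by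
      intro g
      rw [sum_sigma']
      symm
      refine sum_bij' (fun p _ => p.2 + q * p.1) (fun c _ => ⟨c / q, c % q⟩) ?_ ?_ ?_ ?_ ?_
      · rintro ⟨h', h0⟩ hp
        rw [mem_sigma, mem_range, mem_range] at hp
        obtain ⟨a1, a2⟩ := hp
        dsimp only at a1 a2 ⊢
        rw [mem_range, pow_succ']
        have h3 : q * (h' + 1) ≤ q * q ^ k := Nat.mul_le_mul_left _ a1
        have h5 : q * (h' + 1) = q * h' + q := by ring
        omega
      · intro c hc
        rw [mem_range] at hc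
        rw [mem_sigma, mem_range, mem_range]
        dsimp only
        refine ⟨?_, Nat.mod_lt _ hq⟩
        apply Nat.div_lt_of_lt_mul
        rw [← pow_succ']; exact hc
      · rintro ⟨h', h0⟩ hp
        rw [mem_sigma, mem_range, mem_range] at hp
        obtain ⟨a1, a2⟩ := hp
        dsimp only at a1 a2 ⊢
        have e1 : (h0 + q * h') % q = h0 := by rw [Nat.add_mul_mod_self_left, Nat.mod_eq_of_lt a2]
        have e2 : (h0 + q * h') / q = h' := by
          rw [Nat.add_mul_div_left _ _ hq, Nat.div_eq_of_lt a2, zero_add]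
        rw [e1, e2]
      · intro c _
        dsimp only
        exact Nat.mod_add_div c q
      · intro p _
        rfl
    rw [hsplit]
    have hstep : ∀ h' h0 : ℕ, h0 < q →
        max ‖Co f (q ^ (i + 1)) (h0 + q * h' + q ^ (k + 1) * j)‖ ‖Co f (q ^ (i + 1)) (h0 + q * h' + q ^ (k + 1) * j + 1)‖
          ≤ (q * (if h0 = h1 then ρ else 1)) * b (h' + q ^ k * j) := by
      intro h' h0 hh0
      have e1 : h0 + q * h' + q ^ (k + 1) * j = h0 + q * (h' + q ^ k * j) := by rw [pow_succ']; ring
      have e2 : h0 + q * h' + q ^ (k + 1) * j + 1 = (h0 + 1) + q * (h' + q ^ k * j) := by rw [pow_succ']; ring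
      rw [e2, e1]
      have s1 := Co_step hq hf i (h' + q ^ k * j) h0 (by omega) (B := b (h' + q ^ k * j)) (le_max_left _ _) (le_max_right _ _)
      have s2 := Co_step hq hf i (h' + q ^ k * j) (h0 + 1) (by omega) (B := b (h' + q ^ k * j)) (le_max_left _ _) (le_max_right _ _)
      by_cases hh : h0 = h1
      · rw [if_pos hh]
        subst hh
        apply max_le
        · refine s1.trans (mul_le_mul_of_nonneg_right ?_ (hb0 _))
          linarith
        · refine s2.trans (mul_le_mul_of_nonneg_right ?_ (hb0 _))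
          linarith
      · rw [if_neg hh, mul_one]
        apply max_le
        · refine s1.trans (mul_le_mul_of_nonneg_right ?_ (hb0 _))
          exact triv_step hf (by omega)
        · refine s2.trans (mul_le_mul_of_nonneg_right ?_ (hb0 _))
          exact triv_step hf (by omega)
    calc ∑ h' ∈ range (q ^ k), ∑ h0 ∈ range q,
          max ‖Co f (q ^ (i + 1)) (h0 + q * h' + q ^ (k + 1) * j)‖ ‖Co f (q ^ (i + 1)) (h0 + q * h' + q ^ (k + 1) * j + 1)‖
        ≤ ∑ h' ∈ range (q ^ k), ∑ h0 ∈ range q, (q * (if h0 = h1 then ρ else 1)) * b (h' + q ^ k * j) :=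
          sum_le_sum fun h' _ => sum_le_sum fun h0 hh0 => hstep h' h0 (mem_range.1 hh0)
      _ = (q * (q - 1 + ρ)) * ∑ h' ∈ range (q ^ k), b (h' + q ^ k * j) := by
          rw [mul_sum]
          apply sum_congr rfl
          intro h' _
          rw [← sum_mul, ← mul_sum]
          congr 2
          have e : ∀ h0 : ℕ, (if h0 = h1 then ρ else 1) = 1 + (if h0 = h1 then ρ - 1 else 0) := by
            intro h0; split_ifs <;> ring
          simp only [e]
          rw [sum_add_distrib, sum_ite_eq' (range q) h1, if_pos (mem_range.2 hh1), sum_const, card_range]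
          simp only [nsmul_eq_mul, mul_one]
          ring
      _ ≤ (q * (q - 1 + ρ)) * ((q - 1 + ρ) ^ k * q ^ i) := by
          apply mul_le_mul_of_nonneg_left ih'
          have : (1 : ℝ) ≤ q := by exact_mod_cast hq
          apply mul_nonneg (by linarith) (by linarith)
      _ = (q - 1 + ρ) ^ (k + 1) * q ^ (i + 1) := by ring

end Pool.Agent.Y55.DS
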