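import Pool.Agent.Y55.DS.Mult

/-! Strongly `q`-multiplicative functions that are not characters: a digit block which gives cancellation. -/

set_option autoImplicit false

namespace Pool.Agent.Y55.DS

open Finset

variable {q : ℕ} {f : ℕ → ℂ}

theorem norm_add_lt_two {a b : ℂ} (ha : ‖a‖ = 1) (hb : ‖b‖ = 1) (hab : a ≠ b) : ‖a + b‖ < 2 := by
  have h := parallelogram_law_with_norm ℝ a b
  rw [ha, hb] at h
  have h1 : 0 < ‖a - b‖ := norm_pos_iff.2 (sub_ne_zero.2 hab)
  nlinarith [norm_nonneg (a + b)]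

theorem norm_sum_lt {s : Finset ℕ} {v : ℕ → ℂ} (hv : ∀ i ∈ s, ‖v i‖ = 1) {i j : ℕ} (hi : i ∈ s) (hj : j ∈ s)
    (hij : v i ≠ v j) : ‖∑ k ∈ s, v k‖ < s.card := by
  have hne : i ≠ j := fun h => hij (by rw [h])
  have hj' : j ∈ s.erase i := mem_erase.2 ⟨hne.symm, hj⟩
  rw [← add_sum_erase s v hi, ← add_sum_erase (s.erase i) v hj', ← add_assoc]
  have h1 := norm_add_lt_two (hv i hi) (hv j hj) hij
  have h2 : ‖∑ k ∈ (s.erase i).erase j, v k‖ ≤ ((s.erase i).erase j).card := by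
    refine (norm_sum_le _ _).trans ?_
    rw [sum_congr rfl fun k hk => hv k (mem_of_mem_erase (mem_of_mem_erase hk))]
    simp
  have h3 : ((s.erase i).erase j).card + 2 = s.card := by
    rw [card_erase_of_mem hj', card_erase_of_mem hi]
    have h4 : 0 < (s.erase i).card := card_pos.2 ⟨j, hj'⟩
    have h5 := card_erase_of_mem hi
    omega
  have h4 : (((s.erase i).erase j).card : ℝ) + 2 = s.card := by exact_mod_cast h3
  have h5 := norm_add_le (v i + v j) (∑ k ∈ (s.erase i).erase j, v k)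
  linarith

/-- a function that is multiplicative along a shift by `q + e` is a character -/
theorem char_of (hq : 3 ≤ q) (hf : SM q f) {e : ℕ} (he1 : 1 ≤ e) (he2 : e ≤ 2)
    (h : ∀ c, c + (q + e) < q ^ 2 → f (c + (q + e)) = f c * f (q + e)) : ∀ n, f n = f 1 ^ n := by
  have hq0 : 0 < q := by omega
  have hfe : f (q + e) = f 1 * f e := by
    have := hf.2 1 e (by omega)
    rwa [mul_one] at this
  have h1 : ∀ c, c + 2 ≤ q → f (c + 1) = f 1 * f c := by
    intro c hc
    have h2 : q * c + (q + e) < q ^ 2 := by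
      have h3 : q * (c + 2) ≤ q * q := Nat.mul_le_mul_left _ hc
      have h4 : q * (c + 2) = q * c + q + q := by ring
      rw [sq]; omega
    have h3 := h (q * c) h2
    have e1 : q * c + (q + e) = q * (c + 1) + e := by ring
    have e2 : q * c = q * c + 0 := rfl
    rw [e1, hf.2 _ _ (by omega), hfe, e2, hf.2 _ _ hq0, hf.zero hq0, mul_one] at h3
    have h4 := hf.ne e
    have h5 : f (c + 1) * f e = (f 1 * f c) * f e := by rw [h3]; ring
    exact mul_right_cancel₀ h4 h5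
  have h2 : ∀ c, c < q → f c = f 1 ^ c := by
    intro c
    induction c with
    | zero => intro _; rw [pow_zero]; exact hf.zero hq0
    | succ c ih =>
      intro hc
      rw [h1 c (by omega), ih (by omega), pow_succ']
  have h3 : f 1 ^ (q - 1) = 1 := by
    have h4 : q - e + (q + e) < q ^ 2 := by
      have : 3 * q ≤ q ^ 2 := by rw [sq]; exact Nat.mul_le_mul_right _ hq
      omega
    have h5 := h (q - e) h4
    have e1 : q - e + (q + e) = q * 2 + 0 := by omega
    rw [e1, hf.2 _ _ hq0, hf.zero hq0, mul_one, h2 2 (by omega), h2 (q - e) (by omega), hfe, h2 e (by omega)] at h5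
    have e2 : f 1 ^ (q - e) * (f 1 * f 1 ^ e) = f 1 ^ 2 * f 1 ^ (q - 1) := by
      rw [← pow_succ', ← pow_add, ← pow_add]
      congr 1; omega
    rw [e2] at h5
    have h6 : f 1 ^ 2 ≠ 0 := pow_ne_zero _ (hf.ne 1)
    have h7 : f 1 ^ 2 * f 1 ^ (q - 1) = f 1 ^ 2 * 1 := by rw [mul_one]; exact h5.symm
    exact mul_left_cancel₀ h6 h7
  intro n
  induction n using Nat.strong_induction_on with
  | _ n ih =>
    rcases Nat.lt_or_ge n q with hn | hn
    · exact h2 n hn
    · have e1 := Nat.div_add_mod n q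
      have h4 : n / q < n := Nat.div_lt_self (by omega) (by omega)
      have h5 : n % q < q := Nat.mod_lt _ hq0
      calc f n = f (q * (n / q) + n % q) := by rw [e1]
        _ = f 1 ^ (n / q) * f 1 ^ (n % q) := by rw [hf.2 _ _ h5, ih _ h4, h2 _ h5]
        _ = (f 1 ^ (q - 1)) ^ (n / q) * (f 1 ^ (n / q) * f 1 ^ (n % q)) := by rw [h3, one_pow, one_mul]
        _ = f 1 ^ (q * (n / q) + n % q) := by
          rw [← pow_mul, ← pow_add, ← pow_add]
          congr 1
          have : q * (n / q) = (q - 1) * (n / q) + n / q := by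
            obtain ⟨r, rfl⟩ : ∃ r, q = r + 1 := ⟨q - 1, by omega⟩
            rw [Nat.add_sub_cancel]; ring
          omega
        _ = f 1 ^ n := by rw [e1]

/-- the block `11` gives cancellation -/
theorem nondeg_one (hq : 3 ≤ q) (hf : SM q f) (hnc : ¬ ∀ n, f n = f 1 ^ n) {e : ℕ} (he1 : 1 ≤ e) (he2 : e ≤ 2) :
    ‖Co f (q ^ 2) (q + e)‖ + (q + e : ℕ) < q ^ 2 := by
  have hq0 : 0 < q := by omega
  have h3 : 3 * q ≤ q ^ 2 := by rw [sq]; exact Nat.mul_le_mul_right _ hq
  have hlt : q + e < q ^ 2 := by omega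
  have hex : ∃ c, c + (q + e) < q ^ 2 ∧ f (c + (q + e)) ≠ f c * f (q + e) := by
    by_contra hcon
    push Not at hcon
    exact hnc (char_of hq hf he1 he2 hcon)
  obtain ⟨c, hc1, hc2⟩ := hex
  have hcj : ∀ n, f n * (starRingEnd ℂ) (f n) = 1 := by
    intro n
    rw [Complex.mul_conj, Complex.normSq_eq_norm_sq, hf.1 n]; norm_num
  have h1 : ‖Co f (q ^ 2) (q + e)‖ < (range (q ^ 2 - (q + e))).card := by
    unfold Co
    refine norm_sum_lt (fun k _ => norm_term hf _ _) (i := c) (j := 0) (mem_range.2 (by omega)) (mem_range.2 (by omega)) ?_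
    intro heq
    apply hc2
    rw [hf.zero hq0, one_mul, zero_add] at heq
    -- `f c * conj (f (c + s)) = conj (f s)`
    have e1 : f (c + (q + e)) * (f c * (starRingEnd ℂ) (f (c + (q + e)))) * f (q + e)
        = f (c + (q + e)) * (starRingEnd ℂ) (f (q + e)) * f (q + e) := by rw [heq]
    have e2 : f (c + (q + e)) * (f c * (starRingEnd ℂ) (f (c + (q + e)))) * f (q + e)
        = (f (c + (q + e)) * (starRingEnd ℂ) (f (c + (q + e)))) * (f c * f (q + e)) := by ring
    have e3 : f (c + (q + e)) * (starRingEnd ℂ) (f (q + e)) * f (q + e)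
        = f (c + (q + e)) * (f (q + e) * (starRingEnd ℂ) (f (q + e))) := by ring
    rw [e2, e3, hcj, hcj, one_mul, mul_one] at e1
    exact e1.symm
  rw [card_range] at h1
  have h2 : ((q ^ 2 - (q + e) : ℕ) : ℝ) = (q : ℝ) ^ 2 - (q + e : ℕ) := by
    rw [Nat.cast_sub hlt.le]; push_cast; ring
  linarith

theorem nondeg (hq : 3 ≤ q) (hf : SM q f) (hnc : ¬ ∀ n, f n = f 1 ^ n) : ∃ ρ : ℝ, 0 ≤ ρ ∧ ρ < 1 ∧
    ‖Co f (q ^ 2) (q + 1)‖ + (q + 1 : ℕ) ≤ ρ * (q ^ 2 : ℕ) ∧
    ‖Co f (q ^ 2) (q + 1 + 1)‖ + (q + 1 + 1 : ℕ) ≤ ρ * (q ^ 2 : ℕ) := by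
  have h1 := nondeg_one hq hf hnc (e := 1) le_rfl (by norm_num)
  have h2 := nondeg_one hq hf hnc (e := 2) (by norm_num) le_rfl
  set A := ‖Co f (q ^ 2) (q + 1)‖ + (q + 1 : ℕ) with hA
  set B := ‖Co f (q ^ 2) (q + 2)‖ + (q + 2 : ℕ) with hB
  have hq2 : (0 : ℝ) < (q : ℝ) ^ 2 := by
    have : (0 : ℝ) < q := by exact_mod_cast (by omega : 0 < q)
    positivity
  have hA0 : 0 ≤ A := by positivity
  have hq3 : ((q ^ 2 : ℕ) : ℝ) = (q : ℝ) ^ 2 := by push_cast; ring
  refine ⟨max A B / q ^ 2, by positivity, ?_, ?_, ?_⟩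
  · rw [div_lt_one hq2]; exact max_lt h1 h2
  · rw [hq3, div_mul_cancel₀ _ hq2.ne']
    exact le_max_left A B
  · rw [hq3, div_mul_cancel₀ _ hq2.ne']
    exact le_max_right A B

end Pool.Agent.Y55.DS
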