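import Pool.Agent.Y55.DS.Master

/-! The master inequality with exponential parameters, and the passage to a power of `N`. -/

set_option autoImplicit false

namespace Pool.Agent.Y55.DS

open Finset Pool.Agent.Y965.PS

variable {d : ℤ}

theorem geo {lam : ℝ} (h0 : 0 < lam) (h1 : lam < 1) (K : ℕ) : ((K : ℝ) + 1) * lam ^ K ≤ 1 / (1 - lam) := by
  have h2 : ((K : ℝ) + 1) * lam ^ K ≤ ∑ j ∈ range (K + 1), lam ^ j := by
    have h3 : ∑ j ∈ range (K + 1), lam ^ K ≤ ∑ j ∈ range (K + 1), lam ^ j := by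
      apply sum_le_sum
      intro j hj
      rw [mem_range] at hj
      exact pow_le_pow_of_le_one h0.le h1.le (by omega)
    rw [sum_const, card_range, nsmul_eq_mul] at h3
    push_cast at h3
    exact h3
  refine h2.trans ?_
  rw [geom_sum_eq h1.ne, le_div_iff₀ (by linarith)]
  have h4 : (lam ^ (K + 1) - 1) / (lam - 1) * (1 - lam) = 1 - lam ^ (K + 1) := by
    have : lam - 1 ≠ 0 := by linarith
    field_simp
    ring
  rw [h4]
  have : 0 < lam ^ (K + 1) := by positivity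
  linarith

theorem bound_K (hd : d = 1 ∨ d = -1) {E K : ℕ} {lam : ℝ} (hl0 : 0 < lam) (hl1 : lam < 1)
    (hE1 : (3125 / 3456 : ℝ) ^ E ≤ lam ^ 4) (hE2 : (27 / 32 : ℝ) ^ E ≤ lam ^ 4) {N : ℕ}
    (hN : 2 ^ (5 * (E * K)) ≤ N) (hRN : ((32 / 9) ^ E / lam ^ 4) ^ K ≤ (N : ℝ)) (hR : (1 / lam ^ 4) ^ K / (N : ℝ) ≤ lam ^ (4 * K))
    {C1 : ℝ} (hC1 : 0 ≤ C1) {F : ℤ → ℝ} (hF : Sync d F) {z : ℕ → ℂ} (hz1 : ∀ m, ‖z m‖ ≤ 1) {β : ℕ → ℝ}
    (hβ : ∀ h, 0 ≤ β h)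
    (hz : ∀ h : ℕ, 1 ≤ h → (h : ℝ) ≤ ((32 / 9) ^ E / lam ^ 4) ^ K → ∀ m0 J : ℕ,
      (∀ j < J, m0 + 2 ^ (5 * (E * K)) * j + h ≤ N) →
      ‖∑ j ∈ range J, z (m0 + 2 ^ (5 * (E * K)) * j) * (starRingEnd ℂ) (z (m0 + 2 ^ (5 * (E * K)) * j + h))‖ ≤ β h)
    (hs : ∀ X : ℝ, (32 / 27) ^ (E * K) ≤ X → X ≤ ((32 / 9) ^ E / lam ^ 4) ^ K →
      2 ^ (5 * (E * K)) * ∑ h ∈ Icc 1 ⌊X⌋₊, β h ≤ (C1 * lam ^ (8 * K)) * N * X) :
    ‖∑ m ∈ Icc 1 N, (F m : ℂ) * z m‖ ≤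
      ((4 + 5 * E / 2 + (E + 1) * Real.sqrt (2 + 4 * C1)) / (1 - lam)) * N * lam ^ K := by
  set R : ℝ := (1 / lam ^ 4) ^ K with hRdef
  have hl4 : 0 < lam ^ 4 := by positivity
  have hR0 : 0 < R := by positivity
  have hl41 : lam ^ 4 ≤ 1 := pow_le_one₀ hl0.le hl1.le
  have hR1 : 1 ≤ R := by
    rw [hRdef]; apply one_le_pow₀
    rw [le_div_iff₀ hl4, one_mul]; exact hl41
  have hRl : R * lam ^ (4 * K) = 1 := by
    rw [hRdef, pow_mul, ← mul_pow, one_div, inv_mul_cancel₀ hl4.ne', one_pow]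
  have hX : R * (32 / 9) ^ (E * K) = ((32 / 9) ^ E / lam ^ 4) ^ K := by
    rw [hRdef, pow_mul (32 / 9 : ℝ), ← mul_pow]; congr 1; ring
  have h11 : (2 : ℝ) ^ (5 * (E * K)) = 32 ^ (E * K) := by rw [pow_mul 2 5]; norm_num
  have h27 : (3 : ℝ) ^ (3 * (E * K)) = 27 ^ (E * K) := by rw [pow_mul 3 3]; norm_num
  have h9 : (3 : ℝ) ^ (2 * (E * K)) = 9 ^ (E * K) := by rw [pow_mul 3 2]; norm_num
  have hK1 : lam ^ (8 * K) ≤ 1 := pow_le_one₀ hl0.le hl1.le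
  have key := master hd (E * K) hR0 (η := C1 * lam ^ (8 * K)) (by positivity) N hN (by rw [hX]; exact hRN) hF hz1 hβ
    (by rw [hX]; exact hz) (by
      intro a ha1 ha2
      apply hs
      · have e1 : (32 / 27 : ℝ) ^ (E * K) = 2 ^ (5 * (E * K)) / 3 ^ (3 * (E * K)) := by rw [div_pow, h11, h27]
        rw [e1]
        have e2 : (3 : ℝ) ^ a ≤ 3 ^ (3 * (E * K)) := pow_le_pow_right₀ (by norm_num) ha2
        calc (2 : ℝ) ^ (5 * (E * K)) / 3 ^ (3 * (E * K)) ≤ 2 ^ (5 * (E * K)) / 3 ^ a := by gcongr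
          _ = 1 * 2 ^ (5 * (E * K)) / 3 ^ a := by rw [one_mul]
          _ ≤ R * 2 ^ (5 * (E * K)) / 3 ^ a := by gcongr
      · rw [← hX]
        have e1 : (32 / 9 : ℝ) ^ (E * K) = 2 ^ (5 * (E * K)) / 3 ^ (2 * (E * K)) := by rw [div_pow, h11, h9]
        rw [e1, ← mul_div_assoc]
        have e2 : (3 : ℝ) ^ (2 * (E * K)) ≤ 3 ^ a := pow_le_pow_right₀ (by norm_num) ha1
        gcongr)
  refine key.trans ?_
  have hN0 : (0 : ℝ) ≤ N := Nat.cast_nonneg _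
  -- the square root
  have hs1 : Real.sqrt ((27 / 32) ^ (E * K) + R / N + 4 * (C1 * lam ^ (8 * K)) * R) ≤ Real.sqrt (2 + 4 * C1) * lam ^ (2 * K) := by
    have e0 : lam ^ (2 * K) = Real.sqrt (lam ^ (4 * K)) := by
      rw [show lam ^ (4 * K) = (lam ^ (2 * K)) ^ 2 by rw [← pow_mul]; congr 1; ring, Real.sqrt_sq (by positivity)]
    rw [e0, ← Real.sqrt_mul (by positivity)]
    apply Real.sqrt_le_sqrt
    have e1 : (27 / 32 : ℝ) ^ (E * K) ≤ lam ^ (4 * K) := by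
      rw [pow_mul, pow_mul]; exact pow_le_pow_left₀ (by positivity) hE2 K
    have e2 : 4 * (C1 * lam ^ (8 * K)) * R = 4 * C1 * lam ^ (4 * K) := by
      have : lam ^ (8 * K) = lam ^ (4 * K) * lam ^ (4 * K) := by rw [← pow_add]; congr 1; ring
      rw [this]
      calc 4 * (C1 * (lam ^ (4 * K) * lam ^ (4 * K))) * R = 4 * C1 * lam ^ (4 * K) * (R * lam ^ (4 * K)) := by ring
        _ = _ := by rw [hRl, mul_one]
    rw [e2]
    have : R / N ≤ lam ^ (4 * K) := hR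
    nlinarith
  have hs2 : (3125 / 3456 : ℝ) ^ (E * K) ≤ lam ^ (2 * K) := by
    have e1 : (3125 / 3456 : ℝ) ^ (E * K) ≤ lam ^ (4 * K) := by
      rw [pow_mul, pow_mul]; exact pow_le_pow_left₀ (by positivity) hE1 K
    exact e1.trans (pow_le_pow_of_le_one hl0.le hl1.le (by omega))
  have hs3 : 5 * ((E * K : ℕ) : ℝ) / (4 * R) ≤ 5 * E / 4 * K * lam ^ (2 * K) := by
    have e1 : 1 / R = lam ^ (4 * K) := by
      rw [div_eq_iff hR0.ne', mul_comm]; exact hRl.symm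
    have e2 : 5 * ((E * K : ℕ) : ℝ) / (4 * R) = 5 * E / 4 * K * (1 / R) := by push_cast; field_simp
    rw [e2, e1]
    apply mul_le_mul_of_nonneg_left _ (by positivity)
    exact pow_le_pow_of_le_one hl0.le hl1.le (by omega)
  have hKK : ((K : ℝ) + 1) * lam ^ (2 * K) ≤ 1 / (1 - lam) * lam ^ K := by
    have := geo hl0 hl1 K
    calc ((K : ℝ) + 1) * lam ^ (2 * K) = (((K : ℝ) + 1) * lam ^ K) * lam ^ K := by rw [two_mul, pow_add]; ring
      _ ≤ 1 / (1 - lam) * lam ^ K := mul_le_mul_of_nonneg_right this (by positivity)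
  have hl2K : 0 ≤ lam ^ (2 * K) := by positivity
  calc 2 * (N : ℝ) * (2 * (3125 / 3456) ^ (E * K) + 5 * ((E * K : ℕ) : ℝ) / (4 * R))
      + (((E * K : ℕ) : ℝ) + 1) * (N * Real.sqrt ((27 / 32) ^ (E * K) + R / N + 4 * (C1 * lam ^ (8 * K)) * R))
      ≤ 2 * (N : ℝ) * (2 * lam ^ (2 * K) + 5 * E / 4 * K * lam ^ (2 * K))
      + (((E * K : ℕ) : ℝ) + 1) * (N * (Real.sqrt (2 + 4 * C1) * lam ^ (2 * K))) := by gcongr
    _ = N * lam ^ (2 * K) * (4 + 5 * E / 2 * K + (E * K + 1) * Real.sqrt (2 + 4 * C1)) := by push_cast; ring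
    _ ≤ N * lam ^ (2 * K) * ((4 + 5 * E / 2 + (E + 1) * Real.sqrt (2 + 4 * C1)) * (K + 1)) := by
        apply mul_le_mul_of_nonneg_left _ (by positivity)
        have hk0 : (0 : ℝ) ≤ K := Nat.cast_nonneg _
        have hE0 : (0 : ℝ) ≤ E := Nat.cast_nonneg _
        have hsq : 0 ≤ Real.sqrt (2 + 4 * C1) := Real.sqrt_nonneg _
        have i1 : 0 ≤ Real.sqrt (2 + 4 * C1) * K := by positivity
        have i2 : 0 ≤ Real.sqrt (2 + 4 * C1) * E := by positivity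
        nlinarith
    _ = (4 + 5 * E / 2 + (E + 1) * Real.sqrt (2 + 4 * C1)) * N * (((K : ℝ) + 1) * lam ^ (2 * K)) := by ring
    _ ≤ (4 + 5 * E / 2 + (E + 1) * Real.sqrt (2 + 4 * C1)) * N * (1 / (1 - lam) * lam ^ K) := by
        apply mul_le_mul_of_nonneg_left hKK
        positivity
    _ = _ := by ring

/-- from the exponential parameter to a power of `N` -/
theorem to_rpow {B lam C0 : ℝ} (hB : 1 < B) (hl0 : 0 < lam) (hl1 : lam < 1) (hC0 : 0 ≤ C0) {N : ℕ} (hN : 1 ≤ N)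
    {S : ℝ} (h : ∀ K : ℕ, B ^ K ≤ (N : ℝ) → S ≤ C0 * N * lam ^ K) :
    S ≤ (C0 / lam) * (N : ℝ) ^ (1 - (-Real.log lam / Real.log B)) := by
  have hNR : (1 : ℝ) ≤ N := by exact_mod_cast hN
  have hN0 : (0 : ℝ) < N := by linarith
  obtain ⟨K, hK1, hK2⟩ := exists_nat_pow_near hNR hB
  have hlB : 0 < Real.log B := Real.log_pos hB
  set c : ℝ := -Real.log lam / Real.log B with hc
  have hc0 : 0 < c := div_pos (neg_pos.2 (Real.log_neg hl0 hl1)) hlB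
  have h1 : lam ^ (K + 1) ≤ (N : ℝ) ^ (-c) := by
    have e1 : lam ^ (K + 1) = (B ^ (K + 1)) ^ (-c) := by
      rw [← Real.exp_log (pow_pos hl0 (K + 1)), Real.log_pow, Real.rpow_def_of_pos (by positivity), Real.log_pow]
      congr 1
      rw [hc]; field_simp
    rw [e1]
    apply Real.rpow_le_rpow_of_nonpos hN0 hK2.le (by linarith)
  have h2 := h K hK1
  have h3 : (N : ℝ) ^ (1 - c) = N * (N : ℝ) ^ (-c) := by
    rw [sub_eq_add_neg, Real.rpow_add hN0, Real.rpow_one]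
  rw [h3]
  calc S ≤ C0 * N * lam ^ K := h2
    _ = (C0 / lam) * (N * lam ^ (K + 1)) := by rw [pow_succ]; field_simp
    _ ≤ (C0 / lam) * (N * (N : ℝ) ^ (-c)) := by gcongr

end Pool.Agent.Y55.DS
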