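import Pool.Agent.Y55.DS.Param
import Pool.Agent.H373R2.NB.Weyl

/-! Power saving for polynomial phases. -/

set_option autoImplicit false

namespace Pool.Agent.Y55.DS

open Finset Pool.Agent.Y965.PS Pool.Agent.H373R2.NB
open Pool.Agent.Helper602.MK (ee)
open Pool.Agent.Helper602.MK.N_J5b (ee_add ee_zero ee_conj norm_ee)

theorem Ph_comp (k : ℕ) : ∀ (α : ℝ) (φ : ℕ → ℝ), Ph k α φ → ∀ m0 D : ℕ,
    Ph k ((D : ℝ) ^ k * α) (fun j => φ (m0 + D * j)) := by
  induction k with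
  | zero =>
    intro α φ h m0 D n
    show φ (m0 + D * n) = (D : ℝ) ^ 0 * α
    rw [pow_zero, one_mul]; exact h _
  | succ k ih =>
    intro α φ h m0 D r
    have h1 := ih _ _ (h (D * r)) m0 D
    have h2 : (fun n => φ (m0 + D * n + D * r) - φ (m0 + D * n)) = fun n => φ (m0 + D * (n + r)) - φ (m0 + D * n) := by
      funext n
      rw [show m0 + D * n + D * r = m0 + D * (n + r) by ring]
    rw [h2] at h1
    have h3 : (D : ℝ) ^ k * (((D * r : ℕ) : ℝ) * α) = (r : ℝ) * ((D : ℝ) ^ (k + 1) * α) := by push_cast; ring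
    rw [h3] at h1
    exact h1

theorem Ph_mul (k : ℕ) (γ : ℝ) : ∀ (α : ℝ) (φ : ℕ → ℝ), Ph k α φ → Ph k (γ * α) (fun n => γ * φ n) := by
  induction k with
  | zero =>
    intro α φ h n
    show γ * φ n = γ * α
    rw [h n]
  | succ k ih =>
    intro α φ h r
    have h1 := ih _ _ (h r)
    have h2 : (fun n => γ * (φ (n + r) - φ n)) = fun n => γ * φ (n + r) - γ * φ n := by
      funext n; ring
    rw [h2] at h1
    have h3 : γ * ((r : ℝ) * α) = (r : ℝ) * (γ * α) := by ring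
    rw [h3] at h1
    exact h1

open Polynomial in
theorem Ph_real (d : ℕ) : ∀ f : ℝ[X], f.natDegree ≤ d → Ph d ((d.factorial : ℝ) * f.coeff d) (fun n => f.eval (n : ℝ)) := by
  induction d with
  | zero =>
    intro f hf n
    have h1 : f = C (f.coeff 0) := eq_C_of_natDegree_le_zero hf
    have h2 : f.eval (n : ℝ) = f.coeff 0 := by
      conv_lhs => rw [h1]
      rw [eval_C]
    show f.eval (n : ℝ) = _
    rw [h2]; simp
  | succ d ih =>
    intro f hf h
    set g : ℝ[X] := taylor (h : ℝ) f - f with hg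
    have hcoef : ∀ j, d ≤ j → (taylor (h : ℝ) f).coeff j = f.coeff j + (if j = d then ((d : ℝ) + 1) * f.coeff (d + 1) * h else 0) := by
      intro j hj
      rw [taylor_coeff]
      have h1 : (hasseDeriv j f).natDegree < 2 := by
        have := natDegree_hasseDeriv_le f j
        omega
      rw [eval_eq_sum_range' h1, sum_range_succ, sum_range_succ, sum_range_zero, hasseDeriv_coeff, hasseDeriv_coeff]
      rcases eq_or_ne j d with h2 | h2
      · subst h2
        rw [if_pos rfl, zero_add, zero_add, Nat.choose_self, add_comm 1 j, Nat.choose_succ_self_right]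
        push_cast
        ring
      · rw [if_neg h2]
        have h3 : f.coeff (1 + j) = 0 := coeff_eq_zero_of_natDegree_lt (by omega)
        rw [h3, zero_add, zero_add, Nat.choose_self]
        push_cast
        ring
    have hgd : g.natDegree ≤ d := by
      rw [natDegree_le_iff_coeff_eq_zero]
      intro j hj
      rw [hg, coeff_sub, hcoef j (by omega), if_neg (by omega)]
      ring
    have hgc : g.coeff d = ((d : ℝ) + 1) * f.coeff (d + 1) * h := by
      rw [hg, coeff_sub, hcoef d le_rfl, if_pos rfl]; ring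
    have h1 := ih g hgd
    have h2 : (fun n : ℕ => g.eval (n : ℝ)) = fun n : ℕ => f.eval ((n + h : ℕ) : ℝ) - f.eval (n : ℝ) := by
      funext n
      rw [hg, eval_sub, taylor_eval]
      push_cast
      ring_nf
    have h3 : (d.factorial : ℝ) * g.coeff d = (h : ℝ) * (((d + 1).factorial : ℝ) * f.coeff (d + 1)) := by
      rw [hgc, Nat.factorial_succ]; push_cast; ring
    rw [h2, h3] at h1
    exact h1

/-- the correlation of a polynomial phase along an arithmetic progression -/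
theorem phase_corr {k : ℕ} {c m : ℕ} (hIW : ∀ (N : ℕ) (u α : ℝ) (φ : ℕ → ℝ), 1 ≤ N → 1 ≤ u → Ph k α φ →
      (N : ℝ) ≤ u * ‖∑ n ∈ range N, ee (φ n)‖ →
      ∃ q : ℕ, 1 ≤ q ∧ (q : ℝ) ≤ c * u ^ m ∧ ∃ a : ℤ, |q * α - a| ≤ c * u ^ m / (N : ℝ) ^ k)
    {α : ℝ} {φ : ℕ → ℝ} (hφ : Ph (k + 1) α φ) {D h : ℕ} (hD : 1 ≤ D) (hh : 1 ≤ h) {u Jm Y Z : ℝ} (hu : 1 ≤ u) (hJm : 0 < Jm)
    (hY : c * u ^ m * ((D : ℝ) ^ k * h) ≤ Y) (hZ : c * u ^ m / (Jm / u) ^ k < Z)
    (hα : ∀ l : ℕ, 1 ≤ l → (l : ℝ) ≤ Y → ∀ a : ℤ, Z ≤ |l * α - a|) (m0 J : ℕ) (hJ : (J : ℝ) ≤ Jm) :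
    ‖∑ j ∈ range J, ee (φ (m0 + D * j)) * (starRingEnd ℂ) (ee (φ (m0 + D * j + h)))‖ ≤ Jm / u := by
  have hu0 : 0 < u := by linarith
  set ψ : ℕ → ℝ := fun n => φ (n + h) - φ n with hψ
  have h1 : Ph k (h * α) ψ := hφ h
  have h2 := Ph_comp k _ _ h1 m0 D
  have hsum : ‖∑ j ∈ range J, ee (φ (m0 + D * j)) * (starRingEnd ℂ) (ee (φ (m0 + D * j + h)))‖
      = ‖∑ j ∈ range J, ee (ψ (m0 + D * j))‖ := by
    have e1 : ∑ j ∈ range J, ee (φ (m0 + D * j)) * (starRingEnd ℂ) (ee (φ (m0 + D * j + h)))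
        = (starRingEnd ℂ) (∑ j ∈ range J, ee (ψ (m0 + D * j))) := by
      rw [map_sum]
      apply sum_congr rfl
      intro j _
      rw [hψ]
      simp only
      rw [sub_eq_add_neg, ee_add, map_mul, ee_conj (-φ (m0 + D * j)), neg_neg]
      ring
    rw [e1, RCLike.norm_conj]
  rw [hsum]
  by_contra hcon
  push Not at hcon
  have htriv : ‖∑ j ∈ range J, ee (ψ (m0 + D * j))‖ ≤ J := by
    refine (norm_sum_le _ _).trans ?_
    rw [sum_congr rfl fun j _ => norm_ee _]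
    simp
  have hJu : Jm / u < J := hcon.trans_le htriv
  have hJ0 : (0 : ℝ) < J := lt_trans (by positivity) hJu
  have hJ1 : 1 ≤ J := by
    have : 0 < J := by exact_mod_cast hJ0
    omega
  have h3 : (J : ℝ) ≤ u * ‖∑ j ∈ range J, ee (ψ (m0 + D * j))‖ := by
    rw [div_lt_iff₀ hu0] at hcon
    linarith
  obtain ⟨q, hq1, hq2, a, ha⟩ := hIW J u _ _ hJ1 hu h2 h3
  have hl : (1 : ℕ) ≤ q * (D ^ k * h) := Nat.mul_pos hq1 (Nat.mul_pos (pow_pos hD k) hh)
  have h4 : ((q * (D ^ k * h) : ℕ) : ℝ) ≤ Y := by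
    refine le_trans ?_ hY
    push_cast
    exact mul_le_mul_of_nonneg_right hq2 (by positivity)
  have h5 := hα _ hl h4 a
  have h6 : ((q * (D ^ k * h) : ℕ) : ℝ) * α - a = q * ((D : ℝ) ^ k * (h * α)) - a := by push_cast; ring
  rw [h6] at h5
  have h7 : c * u ^ m / (J : ℝ) ^ k ≤ c * u ^ m / (Jm / u) ^ k := by
    apply div_le_div_of_nonneg_left (by positivity) (by positivity)
    exact pow_le_pow_left₀ (by positivity) hJu.le k
  linarith

end Pool.Agent.Y55.DS
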