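import Pool.Agent.Y55.DS.Poly

/-! The Weyl inequality for functions which are constant on coalescing trajectories. -/

set_option autoImplicit false

namespace Pool.Agent.Y55.DS

open Finset Pool.Agent.Y965.PS Pool.Agent.H373R2.NB
open Pool.Agent.Helper602.MK (ee)
open Pool.Agent.Helper602.MK.N_J5b (ee_add ee_zero ee_conj norm_ee)

theorem weyl_sync {d : ℤ} (hd : d = 1 ∨ d = -1) {k : ℕ} (hk : 1 ≤ k) {η : ℝ} (hη : 0 < η) : ∃ C c : ℝ, 0 ≤ C ∧ 0 < c ∧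
    ∀ F : ℤ → ℝ, Sync d F → ∀ N : ℕ, 1 ≤ N → ∀ (α : ℝ) (φ : ℕ → ℝ), Ph (k + 1) α φ →
    (∀ l : ℕ, 1 ≤ l → (l : ℝ) ≤ (N : ℝ) ^ η → ∀ a : ℤ, (N : ℝ) ^ (η - k) ≤ |l * α - a|) →
    ‖∑ m ∈ Icc 1 N, (F m : ℂ) * ee (φ m)‖ ≤ C * (N : ℝ) ^ (1 - c) := by
  obtain ⟨c₁, m₁, hc₁, hIW⟩ := IW_all k hk
  set lam : ℝ := 1 / 2 with hlam
  have hl0 : 0 < lam := by rw [hlam]; norm_num
  have hl1 : lam < 1 := by rw [hlam]; norm_num
  have hl4 : 0 < lam ^ 4 := by positivity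
  have hl41 : lam ^ 4 ≤ 1 := pow_le_one₀ hl0.le hl1.le
  obtain ⟨E1, hE1⟩ := exists_pow_lt_of_lt_one hl4 (show (3125 / 3456 : ℝ) < 1 by norm_num)
  obtain ⟨E2, hE2⟩ := exists_pow_lt_of_lt_one hl4 (show (27 / 32 : ℝ) < 1 by norm_num)
  set E := E1 + E2 with hE
  have hEa : (3125 / 3456 : ℝ) ^ E ≤ lam ^ 4 :=
    (pow_le_pow_of_le_one (by norm_num) (by norm_num) (by omega)).trans hE1.le
  have hEb : (27 / 32 : ℝ) ^ E ≤ lam ^ 4 :=
    (pow_le_pow_of_le_one (by norm_num) (by norm_num) (by omega)).trans hE2.le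
  set A : ℝ := (32 / 9) ^ E / lam ^ 4 with hA
  have hA1 : 1 ≤ A := by
    rw [hA, le_div_iff₀ hl4, one_mul]
    exact hl41.trans (one_le_pow₀ (by norm_num))
  have hA0 : 0 < A := by linarith
  obtain ⟨v, hv⟩ : ∃ v : ℝ, v = 2 ^ 8 := ⟨_, rfl⟩
  have hv1 : 1 ≤ v := by rw [hv]; norm_num
  set G : ℝ := (c₁ + 1) * (v ^ (m₁ + k) * 2 ^ (5 * E * k) * A) with hG
  have hc₁R : (1 : ℝ) ≤ c₁ := by exact_mod_cast hc₁
  have hG1 : 1 ≤ v ^ (m₁ + k) * 2 ^ (5 * E * k) * A :=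
    one_le_mul_of_one_le_of_one_le (one_le_mul_of_one_le_of_one_le (one_le_pow₀ hv1) (one_le_pow₀ (by norm_num))) hA1
  have hG2 : 2 ≤ G := by rw [hG]; nlinarith
  have hG0 : 0 < G := by linarith
  set B2 : ℝ := 2 ^ (5 * E) * A * v with hB2
  have hB21 : 1 ≤ B2 := by
    rw [hB2]
    exact one_le_mul_of_one_le_of_one_le (one_le_mul_of_one_le_of_one_le (one_le_pow₀ (by norm_num)) hA1) hv1
  set B : ℝ := G ^ (1 / η) * B2 with hB
  have hGη : 1 < G ^ (1 / η) := Real.one_lt_rpow (by linarith) (by positivity)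
  have hB1 : 1 < B := by rw [hB]; nlinarith
  set C0 : ℝ := (4 + 5 * E / 2 + (E + 1) * Real.sqrt (2 + 4 * 2)) / (1 - lam) with hC0
  have hC01 : 1 ≤ C0 := by
    rw [hC0, le_div_iff₀ (by linarith)]
    generalize hsq : Real.sqrt (2 + 4 * 2) = sq
    have hsq0 : 0 ≤ sq := by rw [← hsq]; exact Real.sqrt_nonneg _
    have h1 : 0 ≤ ((E : ℝ) + 1) * sq := by positivity
    have h2 : (0 : ℝ) ≤ 5 * E / 2 := by positivity
    linarith
  refine ⟨C0 / lam, -Real.log lam / Real.log B, by positivity,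
    div_pos (neg_pos.2 (Real.log_neg hl0 hl1)) (Real.log_pos hB1), ?_⟩
  intro F hF N hN α φ hφ hα
  refine to_rpow hB1 hl0 hl1 (by linarith) hN fun K hK => ?_
  have hNR : (1 : ℝ) ≤ N := by exact_mod_cast hN
  have hN0 : (0 : ℝ) < N := by linarith
  rcases Nat.eq_zero_or_pos K with hK0 | hK0
  · -- the trivial case
    subst hK0
    rw [pow_zero, mul_one]
    have h1 : ‖∑ m ∈ Icc 1 N, (F m : ℂ) * ee (φ m)‖ ≤ N := by
      refine (norm_sum_le _ _).trans ?_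
      have h2 : ∀ m ∈ Icc 1 N, ‖(F m : ℂ) * ee (φ m)‖ ≤ 1 := by
        intro m _
        rw [norm_mul, Complex.norm_real, Real.norm_eq_abs, norm_ee, mul_one]
        exact hF.1 m
      refine (sum_le_sum h2).trans ?_
      simp
    exact h1.trans (le_mul_of_one_le_left hN0.le hC01)
  -- consequences of `B ^ K ≤ N`
  have hBK : (G ^ (1 / η)) ^ K * B2 ^ K ≤ N := by rw [← mul_pow]; exact hK
  have hB2K : B2 ^ K ≤ N := by
    refine le_trans ?_ hBK
    exact le_mul_of_one_le_left (by positivity) (one_le_pow₀ hGη.le)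
  have hGK : G ^ K ≤ (N : ℝ) ^ η := by
    have h1 : (G ^ (1 / η)) ^ K ≤ N := by
      refine le_trans ?_ hBK
      exact le_mul_of_one_le_right (by positivity) (one_le_pow₀ hB21)
    have h2 : ((G ^ (1 / η)) ^ K) ^ η ≤ (N : ℝ) ^ η := Real.rpow_le_rpow (by positivity) h1 hη.le
    have h3 : ((G ^ (1 / η)) ^ K) ^ η = G ^ K := by
      rw [← Real.rpow_natCast, ← Real.rpow_mul hG0.le, ← Real.rpow_mul hG0.le, ← Real.rpow_natCast]
      congr 1
      field_simp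
    rw [h3] at h2
    exact h2
  have hB2e : B2 ^ K = (2 ^ (5 * E)) ^ K * A ^ K * v ^ K := by rw [hB2, mul_pow, mul_pow]
  rw [hB2e] at hB2K
  have hv1K : 1 ≤ v ^ K := one_le_pow₀ hv1
  have h25K : (1 : ℝ) ≤ (2 ^ (5 * E)) ^ K := one_le_pow₀ (one_le_pow₀ (by norm_num))
  have hAK : 1 ≤ A ^ K := one_le_pow₀ hA1
  have n1 : ((2 : ℝ) ^ (5 * E)) ^ K ≤ N := by
    refine le_trans ?_ hB2K
    rw [mul_assoc]
    exact le_mul_of_one_le_right (by positivity) (one_le_mul_of_one_le_of_one_le hAK hv1K)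
  have n2 : A ^ K ≤ N := by
    refine le_trans ?_ hB2K
    calc A ^ K ≤ (2 ^ (5 * E)) ^ K * A ^ K := le_mul_of_one_le_left (by positivity) h25K
      _ ≤ _ := le_mul_of_one_le_right (by positivity) hv1K
  have n3 : v ^ K ≤ N := by
    refine le_trans ?_ hB2K
    exact le_mul_of_one_le_left (by positivity) (one_le_mul_of_one_le_of_one_le h25K hAK)
  have hvl : v ^ K * lam ^ (8 * K) = 1 := by
    rw [pow_mul, ← mul_pow, hv, hlam]; norm_num
  have he5 : (2 : ℝ) ^ (5 * (E * K)) = (2 ^ (5 * E)) ^ K := by rw [← pow_mul]; congr 1; ring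
  set u : ℝ := v ^ K with hu
  have hu1 : 1 ≤ u := hv1K
  have hu0 : 0 < u := by linarith
  set Jm : ℝ := N / 2 ^ (5 * (E * K)) + 1 with hJm
  have hJm0 : 0 < Jm := by rw [hJm]; positivity
  have hJm2 : 2 ^ (5 * (E * K)) * Jm ≤ 2 * N := by
    rw [hJm, mul_add, mul_one, mul_div_cancel₀ _ (by positivity), he5]
    linarith
  have hGK2 : (c₁ + 1 : ℝ) * (u ^ (m₁ + k) * (2 ^ (5 * (E * K))) ^ k * A ^ K) ≤ G ^ K := by
    have e1 : G ^ K = (c₁ + 1) ^ K * ((v ^ (m₁ + k)) ^ K * (2 ^ (5 * E * k)) ^ K * A ^ K) := by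
      rw [hG, mul_pow, mul_pow, mul_pow]
    have e2 : u ^ (m₁ + k) = (v ^ (m₁ + k)) ^ K := by rw [hu, ← pow_mul, ← pow_mul]; congr 1; ring
    have e3 : ((2 : ℝ) ^ (5 * (E * K))) ^ k = (2 ^ (5 * E * k)) ^ K := by rw [← pow_mul, ← pow_mul]; congr 1; ring
    rw [e1, e2, e3]
    apply mul_le_mul_of_nonneg_right _ (by positivity)
    calc (c₁ + 1 : ℝ) = (c₁ + 1) ^ 1 := (pow_one _).symm
      _ ≤ (c₁ + 1) ^ K := pow_le_pow_right₀ (by linarith) hK0
  have hfin := hGK2.trans hGK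
  -- the bound
  refine bound_K hd hl0 hl1 hEa hEb (N := N) ?_ n2 ?_ (C1 := 2) (by norm_num) hF (z := fun m => ee (φ m))
    (fun m => (norm_ee _).le) (β := fun _ => Jm / u) (fun _ => by positivity) ?_ ?_
  · have : (2 : ℝ) ^ (5 * (E * K)) ≤ N := by rw [he5]; exact n1
    exact_mod_cast this
  · rw [div_le_iff₀ hN0, mul_comm]
    have h1 : (1 / lam ^ 4) ^ K * lam ^ (4 * K) = 1 := by
      rw [pow_mul lam, ← mul_pow, one_div, inv_mul_cancel₀ hl4.ne', one_pow]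
    have h3 : lam ^ (8 * K) = lam ^ (4 * K) * lam ^ (4 * K) := by rw [← pow_add]; congr 1; ring
    have h4 : 0 < lam ^ (4 * K) := by positivity
    have h5 : (1 / lam ^ 4) ^ K = u * lam ^ (4 * K) := by
      have : (1 / lam ^ 4) ^ K * lam ^ (4 * K) = (u * lam ^ (4 * K)) * lam ^ (4 * K) := by
        rw [h1, mul_assoc, ← h3, hu]; exact hvl.symm
      exact mul_right_cancel₀ h4.ne' this
    rw [h5]
    exact mul_le_mul_of_nonneg_right n3 h4.le
  · intro h hh1 hh2 m0 J hJ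
    have hJJ : (J : ℝ) ≤ Jm := by
      rcases Nat.eq_zero_or_pos J with h0 | h0
      · rw [h0]; simpa using hJm0.le
      · have h1 := hJ (J - 1) (by omega)
        have h2 : 2 ^ (5 * (E * K)) * (J - 1) ≤ N := by omega
        have h3 : (2 : ℝ) ^ (5 * (E * K)) * ((J - 1 : ℕ) : ℝ) ≤ N := by exact_mod_cast h2
        rw [Nat.cast_sub h0, Nat.cast_one] at h3
        have h4 : (J : ℝ) - 1 ≤ N / 2 ^ (5 * (E * K)) := by
          rw [le_div_iff₀ (by positivity)]; linarith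
        rw [hJm]; linarith
    have hum : 0 < u ^ m₁ := by positivity
    have huk : 1 ≤ u ^ k := one_le_pow₀ hu1
    have hD0 : (1 : ℝ) ≤ (2 ^ (5 * (E * K))) ^ k := one_le_pow₀ (one_le_pow₀ (by norm_num))
    refine phase_corr (k := k) (c := c₁) (m := m₁) hIW hφ (D := 2 ^ (5 * (E * K))) (Nat.one_le_two_pow) hh1 hu1 hJm0
      (Y := (N : ℝ) ^ η) (Z := (N : ℝ) ^ (η - k)) ?_ ?_ hα m0 J hJJ
    · push_cast
      refine le_trans ?_ hfin
      have e1 : (c₁ : ℝ) * u ^ m₁ * ((2 ^ (5 * (E * K))) ^ k * h) ≤ c₁ * u ^ m₁ * ((2 ^ (5 * (E * K))) ^ k * A ^ K) := by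
        gcongr
      refine e1.trans ?_
      rw [pow_add]
      have e2 : (c₁ : ℝ) * u ^ m₁ * ((2 ^ (5 * (E * K))) ^ k * A ^ K) ≤ (c₁ + 1) * (u ^ m₁ * ((2 ^ (5 * (E * K))) ^ k * A ^ K)) := by
        rw [mul_assoc]
        apply mul_le_mul_of_nonneg_right (by linarith) (by positivity)
      refine e2.trans ?_
      apply mul_le_mul_of_nonneg_left _ (by positivity)
      have e3 : u ^ m₁ * u ^ k * (2 ^ (5 * (E * K))) ^ k * A ^ K = (u ^ m₁ * ((2 ^ (5 * (E * K))) ^ k * A ^ K)) * u ^ k := by ring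
      rw [e3]
      exact le_mul_of_one_le_right (by positivity) huk
    · -- the second condition
      have hNk : (N : ℝ) ^ (η - k) = (N : ℝ) ^ η / (N : ℝ) ^ k := by
        rw [Real.rpow_sub hN0, Real.rpow_natCast]
      rw [hNk, div_pow, div_div_eq_mul_div]
      have hJN : (N : ℝ) / 2 ^ (5 * (E * K)) ≤ Jm := by rw [hJm]; linarith
      have e1 : (c₁ : ℝ) * u ^ m₁ * u ^ k / Jm ^ k ≤ c₁ * u ^ m₁ * u ^ k / (N / 2 ^ (5 * (E * K))) ^ k := by
        gcongr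
      refine e1.trans_lt ?_
      rw [div_pow, div_div_eq_mul_div]
      apply div_lt_div_of_pos_right _ (by positivity)
      refine lt_of_lt_of_le ?_ hfin
      have e2 : (c₁ : ℝ) * u ^ m₁ * u ^ k * (2 ^ (5 * (E * K))) ^ k < (c₁ + 1) * (u ^ (m₁ + k) * (2 ^ (5 * (E * K))) ^ k * 1) := by
        rw [pow_add]
        have : 0 < u ^ m₁ * u ^ k * (2 ^ (5 * (E * K))) ^ k := by positivity
        linarith
      refine e2.trans_le ?_
      gcongr
  · intro X hX1 hX2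
    have hX0 : 0 ≤ X := le_trans (by positivity) hX1
    have hcard : ((Icc 1 ⌊X⌋₊).card : ℝ) ≤ X := by
      rw [Nat.card_Icc, Nat.add_sub_cancel]; exact Nat.floor_le hX0
    rw [sum_const, nsmul_eq_mul]
    have h1 : Jm / u = Jm * lam ^ (8 * K) := by
      rw [div_eq_iff hu0.ne', mul_assoc, mul_comm (lam ^ (8 * K)), hvl, mul_one]
    rw [h1]
    calc (2 : ℝ) ^ (5 * (E * K)) * (((Icc 1 ⌊X⌋₊).card : ℝ) * (Jm * lam ^ (8 * K)))
        = (2 ^ (5 * (E * K)) * Jm) * lam ^ (8 * K) * ((Icc 1 ⌊X⌋₊).card : ℝ) := by ring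
      _ ≤ (2 * N) * lam ^ (8 * K) * X := by gcongr
      _ = _ := by ring

end Pool.Agent.Y55.DS
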