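import Pool.Agent.Y55.DS.Param
import Pool.Agent.Y55.DS.AP

/-! Power saving for products of strongly multiplicative functions. -/

set_option autoImplicit false

namespace Pool.Agent.Y55.DS

open Finset Pool.Agent.Y965.PS

variable {d : ℤ}

theorem sum_blocks (g : ℕ → ℝ) (M : ℕ) : ∀ b : ℕ, ∑ h ∈ range (M * b), g h = ∑ j ∈ range b, ∑ h ∈ range M, g (h + M * j) := by
  intro b
  induction b with
  | zero => simp
  | succ b ih =>
    rw [Nat.mul_succ, sum_range_add, ih, sum_range_succ]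
    congr 1
    exact sum_congr rfl fun h _ => by rw [add_comm]

/-- the sum of the correlations over all `h ≤ X` -/
theorem Co_total {p : ℕ} {f : ℕ → ℂ} (hp : 0 < p) (hf : SM p f) {h1 : ℕ} (hh1 : h1 < p) {ρ : ℝ} (hρ : 0 ≤ ρ)
    (hc0 : ‖Co f p h1‖ + h1 ≤ ρ * p) (hc1 : ‖Co f p (h1 + 1)‖ + (h1 + 1 : ℕ) ≤ ρ * p) {k i : ℕ} (hki : k ≤ i)
    {X : ℝ} (hX : (p : ℝ) ^ k ≤ X) :
    ∑ h ∈ Icc 1 ⌊X⌋₊, ‖Co f (p ^ i) h‖ ≤ 2 * X * ((p - 1 + ρ) / p) ^ k * p ^ i := by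
  have hpR : (1 : ℝ) ≤ p := by exact_mod_cast hp
  have hpk : (0 : ℝ) < (p : ℝ) ^ k := by positivity
  have hX0 : 0 ≤ X := hpk.le.trans hX
  have hpn : 0 < p ^ k := by positivity
  set b := ⌊X⌋₊ / p ^ k + 1 with hb
  have h1 : ∑ h ∈ Icc 1 ⌊X⌋₊, ‖Co f (p ^ i) h‖ ≤ ∑ h ∈ range (p ^ k * b), ‖Co f (p ^ i) h‖ := by
    apply sum_le_sum_of_subset_of_nonneg
    · intro h hh
      rw [mem_Icc] at hh
      rw [mem_range, hb, Nat.mul_succ]
      have e1 := Nat.div_add_mod ⌊X⌋₊ (p ^ k)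
      have e2 := Nat.mod_lt ⌊X⌋₊ hpn
      omega
    · intro _ _ _; exact norm_nonneg _
  have h2 : ∑ h ∈ range (p ^ k * b), ‖Co f (p ^ i) h‖ ≤ b * ((p - 1 + ρ) ^ k * p ^ i) := by
    rw [sum_blocks]
    have h3 : ∀ j ∈ range b, ∑ h ∈ range (p ^ k), ‖Co f (p ^ i) (h + p ^ k * j)‖ ≤ (p - 1 + ρ) ^ k * p ^ i := by
      intro j _
      refine le_trans (sum_le_sum fun h _ => le_max_left _ _) (Co_sum hp hf hh1 hρ hc0 hc1 k i j hki)
    refine (sum_le_sum h3).trans ?_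
    rw [sum_const, card_range, nsmul_eq_mul]
  have h3 : (b : ℝ) ≤ 2 * X / p ^ k := by
    rw [hb]
    push_cast
    have e1 : ((⌊X⌋₊ / p ^ k : ℕ) : ℝ) ≤ X / p ^ k := by
      refine Nat.cast_div_le.trans ?_
      push_cast
      have := Nat.floor_le hX0
      gcongr
    have e2 : 1 ≤ X / p ^ k := by rw [le_div_iff₀ hpk]; linarith
    have e3 : 2 * X / p ^ k = X / p ^ k + X / p ^ k := by ring
    linarith
  have h4 : 0 ≤ ((p : ℝ) - 1 + ρ) ^ k * p ^ i := by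
    have : 0 ≤ (p : ℝ) - 1 + ρ := by linarith
    positivity
  calc _ ≤ _ := h1
    _ ≤ _ := h2
    _ ≤ (2 * X / p ^ k) * ((p - 1 + ρ) ^ k * p ^ i) := mul_le_mul_of_nonneg_right h3 h4
    _ = _ := by rw [div_pow]; ring

/-- POWER SAVING for products of strongly multiplicative functions -/
theorem power_saving (hd : d = 1 ∨ d = -1) {ι : Type*} [Fintype ι] [DecidableEq ι] (q : ι → ℕ) (hq : ∀ i, 3 ≤ q i)
    (hodd : ∀ i, Odd (q i)) (hc : ∀ i j, i ≠ j → Nat.Coprime (q i) (q j)) {f : ι → ℕ → ℂ} (hf : ∀ i, SM (q i) (f i))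
    (i0 : ι) (hnc : ¬ ∀ n, f i0 n = f i0 1 ^ n) : ∃ C c : ℝ, 0 ≤ C ∧ 0 < c ∧ ∀ F : ℤ → ℝ, Sync d F →
      ∀ w : ℕ → ℂ, (∀ n, ‖w n‖ = 1) → (∀ h, ∃ w0 : ℂ, ‖w0‖ = 1 ∧ ∀ n, w n * (starRingEnd ℂ) (w (n + h)) = w0) →
      ∀ N : ℕ, 1 ≤ N → ‖∑ m ∈ Icc 1 N, (F m : ℂ) * (w m * ∏ i, f i m)‖ ≤ C * (N : ℝ) ^ (1 - c) := by
  classical
  obtain ⟨ρ, hρ0, hρ1, hb0, hb1⟩ := nondeg (hq i0) (hf i0) hnc
  set p : ι → ℕ := fun i => q i ^ 2 with hp
  have hp9 : ∀ i, 9 ≤ p i := by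
    intro i
    have : 3 ^ 2 ≤ q i ^ 2 := Nat.pow_le_pow_left (hq i) 2
    exact this
  have hp0 : ∀ i, 0 < p i := fun i => by have := hp9 i; omega
  have hfp : ∀ i, SM (p i) (f i) := fun i => (hf i).pow (by have := hq i; omega) 2
  have hp9R : ∀ i, (9 : ℝ) ≤ p i := fun i => by exact_mod_cast hp9 i
  set p0 : ℝ := (p i0 : ℝ) with hp0R
  have hp09 : 9 ≤ p0 := hp9R i0
  set θ : ℝ := (p0 - 1 + ρ) / p0 with hθ
  have hθ1 : θ < 1 := by rw [hθ, div_lt_one (by linarith)]; linarith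
  have hθ0 : 8 / 9 ≤ θ := by rw [hθ, div_le_div_iff₀ (by norm_num) (by linarith)]; linarith
  have hθp : 0 < θ := by linarith
  set lam : ℝ := θ ^ (1 / 8 : ℝ) with hlam
  have hlam8 : lam ^ 8 = θ := by
    rw [hlam, ← Real.rpow_natCast, ← Real.rpow_mul hθp.le]; norm_num
  have hl0 : 0 < lam := by rw [hlam]; positivity
  have hl1 : lam < 1 := by
    by_contra hcon
    push Not at hcon
    have : 1 ≤ lam ^ 8 := one_le_pow₀ hcon
    linarith
  have hl4 : 0 < lam ^ 4 := by positivity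
  have hl8 : 0 < lam ^ 8 := by positivity
  have hl41 : lam ^ 4 ≤ 1 := pow_le_one₀ hl0.le hl1.le
  have hl81 : lam ^ 8 ≤ 1 := pow_le_one₀ hl0.le hl1.le
  -- the parameter `E`
  obtain ⟨E1, hE1⟩ := exists_pow_lt_of_lt_one hl4 (show (3125 / 3456 : ℝ) < 1 by norm_num)
  obtain ⟨E2, hE2⟩ := exists_pow_lt_of_lt_one hl4 (show (27 / 32 : ℝ) < 1 by norm_num)
  obtain ⟨E3, hE3⟩ := pow_unbounded_of_one_lt p0 (show (1 : ℝ) < 32 / 27 by norm_num)
  set E := E1 + E2 + E3 with hE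
  have hEa : (3125 / 3456 : ℝ) ^ E ≤ lam ^ 4 :=
    (pow_le_pow_of_le_one (by norm_num) (by norm_num) (by omega)).trans hE1.le
  have hEb : (27 / 32 : ℝ) ^ E ≤ lam ^ 4 :=
    (pow_le_pow_of_le_one (by norm_num) (by norm_num) (by omega)).trans hE2.le
  have hEc : p0 ≤ (32 / 27 : ℝ) ^ E :=
    hE3.le.trans (pow_le_pow_right₀ (by norm_num) (by omega))
  set A : ℝ := (32 / 9) ^ E / lam ^ 4 with hA
  have hA1 : 1 ≤ A := by
    rw [hA, le_div_iff₀ hl4, one_mul]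
    exact hl41.trans (one_le_pow₀ (by norm_num))
  have hA0 : 0 < A := by linarith
  obtain ⟨M, hM⟩ := pow_unbounded_of_one_lt (A / lam ^ 8) (show (1 : ℝ) < 9 by norm_num)
  have hAl : 1 ≤ A / lam ^ 8 := by rw [le_div_iff₀ hl8, one_mul]; exact hl81.trans hA1
  have hM1 : 1 ≤ M := by
    by_contra hcon
    have : M = 0 := by omega
    rw [this, pow_zero] at hM
    linarith
  set P : ℝ := ∏ i, (p i : ℝ) with hP
  have hP1 : 1 ≤ P := by
    rw [hP]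
    have : ∏ i : ι, (1 : ℝ) ≤ ∏ i, (p i : ℝ) := prod_le_prod (fun _ _ => zero_le_one) (fun i _ => by linarith [hp9R i])
    simpa using this
  have hPM : 1 ≤ P ^ M := one_le_pow₀ hP1
  set B : ℝ := 2 ^ (5 * E) * P ^ M * A / lam ^ 8 with hB
  have h25 : (1 : ℝ) ≤ 2 ^ (5 * E) := one_le_pow₀ (by norm_num)
  have hBl : B * lam ^ 8 = 2 ^ (5 * E) * P ^ M * A := by rw [hB]; field_simp
  have hPA : 1 ≤ P ^ M * A := one_le_mul_of_one_le_of_one_le hPM hA1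
  have h2PA : 1 ≤ 2 ^ (5 * E) * P ^ M * A := by rw [mul_assoc]; exact one_le_mul_of_one_le_of_one_le h25 hPA
  have hB0 : 0 < B := by rw [hB]; positivity
  have hB1 : 1 < B := by
    by_contra hcon
    push Not at hcon
    have h1 : lam ^ 8 < 1 := by rw [hlam8]; exact hθ1
    have h2 : B * lam ^ 8 ≤ lam ^ 8 := mul_le_of_le_one_left hl8.le hcon
    linarith
  set r : ℝ := (Fintype.card ι : ℝ) with hr
  have hr0 : 0 ≤ r := Nat.cast_nonneg _
  set C1 : ℝ := 5 + 3 * r with hC1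
  set C0 : ℝ := (4 + 5 * E / 2 + (E + 1) * Real.sqrt (2 + 4 * C1)) / (1 - lam) with hC0
  have hC00 : 0 ≤ C0 := by
    rw [hC0]
    apply div_nonneg _ (by linarith)
    positivity
  refine ⟨C0 / lam, -Real.log lam / Real.log B, by positivity,
    div_pos (neg_pos.2 (Real.log_neg hl0 hl1)) (Real.log_pos hB1), ?_⟩
  intro F hF w hw1 hw N hN
  refine to_rpow hB1 hl0 hl1 hC00 hN fun K hK => ?_
  have hNR : (1 : ℝ) ≤ N := by exact_mod_cast hN
  have hN0 : (0 : ℝ) < N := by linarith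
  -- bounds in terms of `N`
  have hBK : (2 ^ (5 * E) * P ^ M * A) ^ K ≤ N * lam ^ (8 * K) := by
    rw [← hBl, mul_pow, ← pow_mul]
    exact mul_le_mul_of_nonneg_right hK (by positivity)
  have hl8K : lam ^ (8 * K) ≤ 1 := pow_le_one₀ hl0.le hl1.le
  have hl8K0 : 0 < lam ^ (8 * K) := by positivity
  have h25K : (1 : ℝ) ≤ (2 ^ (5 * E)) ^ K := one_le_pow₀ h25
  have hPMK : (1 : ℝ) ≤ (P ^ M) ^ K := one_le_pow₀ hPM
  have hAK : (1 : ℝ) ≤ A ^ K := one_le_pow₀ hA1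
  have hprod : (2 ^ (5 * E) * P ^ M * A) ^ K = (2 ^ (5 * E)) ^ K * (P ^ M) ^ K * A ^ K := by rw [mul_pow, mul_pow]
  rw [hprod] at hBK
  have n1 : ((2 : ℝ) ^ (5 * E)) ^ K ≤ N * lam ^ (8 * K) := by
    refine le_trans ?_ hBK
    rw [mul_assoc]
    exact le_mul_of_one_le_right (by positivity) (one_le_mul_of_one_le_of_one_le hPMK hAK)
  have n2 : ((2 : ℝ) ^ (5 * E)) ^ K * (P ^ M) ^ K ≤ N * lam ^ (8 * K) := by
    refine le_trans ?_ hBK
    exact le_mul_of_one_le_right (by positivity) hAK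
  have n3 : ((2 : ℝ) ^ (5 * E)) ^ K * A ^ K ≤ N * lam ^ (8 * K) := by
    refine le_trans ?_ hBK
    have h0 : 0 ≤ ((2 : ℝ) ^ (5 * E)) ^ K * A ^ K := by positivity
    calc ((2 : ℝ) ^ (5 * E)) ^ K * A ^ K = (((2 : ℝ) ^ (5 * E)) ^ K * A ^ K) * 1 := by ring
      _ ≤ (((2 : ℝ) ^ (5 * E)) ^ K * A ^ K) * (P ^ M) ^ K := mul_le_mul_of_nonneg_left hPMK h0
      _ = _ := by ring
  have n4 : A ^ K ≤ N * lam ^ (8 * K) := by
    refine le_trans ?_ n3
    exact le_mul_of_one_le_left (by positivity) h25K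
  have nle : ∀ x : ℝ, x ≤ N * lam ^ (8 * K) → x ≤ N := by
    intro x hx
    exact hx.trans (mul_le_of_le_one_right hN0.le hl8K)
  have he5 : (2 : ℝ) ^ (5 * (E * K)) = (2 ^ (5 * E)) ^ K := by rw [← pow_mul]; congr 1; ring
  -- the moduli
  set Q : ι → ℕ := fun i => p i ^ (M * K) with hQ
  have hQ0 : ∀ i, 0 < Q i := fun i => pow_pos (hp0 i) _
  have hfQ : ∀ i, SM (Q i) (f i) := fun i => (hfp i).pow (hp0 i) _
  have hcQ : ∀ i j, i ≠ j → Nat.Coprime (Q i) (Q j) := by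
    intro i j hij
    apply Nat.Coprime.pow
    exact Nat.Coprime.pow 2 2 (hc i j hij)
  have hDQ : ∀ i, Nat.Coprime (2 ^ (5 * (E * K))) (Q i) := by
    intro i
    apply Nat.Coprime.pow
    exact Nat.Coprime.pow_right 2 (Nat.coprime_two_left.2 (hodd i))
  have hQR : ∀ i, (Q i : ℝ) = ((p i : ℝ) ^ M) ^ K := by
    intro i; rw [hQ]; push_cast; rw [pow_mul]
  have hQA : ∀ i, A ^ K / (Q i : ℝ) ≤ lam ^ (8 * K) := by
    intro i
    have h1 : A / lam ^ 8 ≤ (p i : ℝ) ^ M := hM.le.trans (pow_le_pow_left₀ (by norm_num) (hp9R i) M)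
    have h2 : (A / lam ^ 8) ^ K ≤ Q i := by rw [hQR]; exact pow_le_pow_left₀ (by positivity) h1 K
    rw [div_pow, ← pow_mul, div_le_iff₀ hl8K0] at h2
    rw [div_le_iff₀ (by exact_mod_cast hQ0 i)]
    linarith
  set Qp : ℕ := ∏ i, Q i with hQp
  have hQpR : (Qp : ℝ) = (P ^ M) ^ K := by
    rw [hQp]; push_cast
    rw [prod_congr rfl fun i _ => hQR i, prod_pow, prod_pow]
  set Jm : ℝ := N / 2 ^ (5 * (E * K)) + 1 with hJm
  have hJm0 : 0 ≤ Jm := by rw [hJm]; positivity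
  have hJm2 : 2 ^ (5 * (E * K)) * Jm ≤ 2 * N := by
    rw [hJm, mul_add, mul_one, mul_div_cancel₀ _ (by positivity), he5]
    have := nle _ n1
    linarith
  set β : ℕ → ℝ := fun h => Jm * (‖Co (f i0) (Q i0) h‖ / Q i0) + Qp + ∑ i, (Jm / Q i + 1) * (h : ℝ) with hβ
  have hβ0 : ∀ h, 0 ≤ β h := by
    intro h
    rw [hβ]
    have : 0 ≤ ∑ i, (Jm / Q i + 1) * (h : ℝ) := sum_nonneg fun i _ => by positivity
    have h2 : 0 ≤ Jm * (‖Co (f i0) (Q i0) h‖ / Q i0) := by positivity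
    have h3 : (0 : ℝ) ≤ Qp := Nat.cast_nonneg _
    simp only
    linarith
  -- the target
  refine bound_K hd hl0 hl1 hEa hEb (N := N) ?_ ?_ ?_ (C1 := C1) (by positivity) hF (z := fun m => w m * ∏ i, f i m) ?_ hβ0 ?_ ?_
  · have : (2 : ℝ) ^ (5 * (E * K)) ≤ N := by rw [he5]; exact nle _ n1
    exact_mod_cast this
  · exact nle _ n4
  · rw [div_le_iff₀ hN0, mul_comm]
    have h1 : 1 ≤ N * lam ^ (8 * K) := h25K.trans n1
    have h2 : (1 / lam ^ 4) ^ K * lam ^ (4 * K) = 1 := by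
      rw [pow_mul lam, ← mul_pow, one_div, inv_mul_cancel₀ hl4.ne', one_pow]
    have h3 : lam ^ (8 * K) = lam ^ (4 * K) * lam ^ (4 * K) := by rw [← pow_add]; congr 1; ring
    have h4 : 0 < lam ^ (4 * K) := by positivity
    have h5 : 0 < (1 / lam ^ 4) ^ K := by positivity
    calc (1 / lam ^ 4) ^ K = (1 / lam ^ 4) ^ K * 1 := by ring
      _ ≤ (1 / lam ^ 4) ^ K * (N * lam ^ (8 * K)) := mul_le_mul_of_nonneg_left h1 h5.le
      _ = ((1 / lam ^ 4) ^ K * lam ^ (4 * K)) * (N * lam ^ (4 * K)) := by rw [h3]; ring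
      _ = N * lam ^ (4 * K) := by rw [h2, one_mul]
  · intro m
    rw [norm_mul, hw1, one_mul, norm_prod, prod_congr rfl fun i _ => (hf i).1 m, prod_const_one]
  · intro h hh1 hh2 m0 J hJ
    obtain ⟨w0, hw0, hw0'⟩ := hw h
    refine (corr Q hQ0 hcQ hDQ hfQ hw0 hw0' m0 J).trans ?_
    -- `J ≤ Jm`
    have hJJ : (J : ℝ) ≤ Jm := by
      rcases Nat.eq_zero_or_pos J with h0 | h0
      · rw [h0]; simpa using hJm0
      · have h1 := hJ (J - 1) (by omega)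
        have h2 : 2 ^ (5 * (E * K)) * (J - 1) ≤ N := by omega
        have h3 : (2 : ℝ) ^ (5 * (E * K)) * ((J - 1 : ℕ) : ℝ) ≤ N := by exact_mod_cast h2
        rw [Nat.cast_sub h0, Nat.cast_one] at h3
        have h4 : (J : ℝ) - 1 ≤ N / 2 ^ (5 * (E * K)) := by
          rw [le_div_iff₀ (by positivity)]; linarith
        rw [hJm]; linarith
    have h1 : ∏ i, ‖Co (f i) (Q i) h‖ ≤ ‖Co (f i0) (Q i0) h‖ / Q i0 * Qp := by
      have h2 : ∏ i ∈ univ.erase i0, ‖Co (f i) (Q i) h‖ ≤ ∏ i ∈ univ.erase i0, (Q i : ℝ) := by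
        apply prod_le_prod (fun _ _ => norm_nonneg _)
        intro i _
        refine (norm_Co (hfQ i) _ _).trans ?_
        exact_mod_cast Nat.sub_le _ _
      have hQi0 : (0 : ℝ) < Q i0 := by exact_mod_cast hQ0 i0
      have h3 : (Qp : ℝ) = Q i0 * ∏ i ∈ univ.erase i0, (Q i : ℝ) := by
        rw [hQp]; push_cast
        rw [mul_prod_erase univ (fun i => (Q i : ℝ)) (mem_univ i0)]
      rw [h3, ← mul_prod_erase univ _ (mem_univ i0)]
      calc ‖Co (f i0) (Q i0) h‖ * ∏ i ∈ univ.erase i0, ‖Co (f i) (Q i) h‖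
          ≤ ‖Co (f i0) (Q i0) h‖ * ∏ i ∈ univ.erase i0, (Q i : ℝ) := mul_le_mul_of_nonneg_left h2 (norm_nonneg _)
        _ = _ := by field_simp
    have hQpn : 0 < Qp := prod_pos fun i _ => hQ0 i
    have hQpp : (0 : ℝ) < Qp := by exact_mod_cast hQpn
    have h2 : ((J / Qp : ℕ) : ℝ) * ∏ i, ‖Co (f i) (Q i) h‖ ≤ Jm * (‖Co (f i0) (Q i0) h‖ / Q i0) := by
      have h3 : ((J / Qp : ℕ) : ℝ) ≤ Jm / Qp := by
        refine Nat.cast_div_le.trans ?_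
        gcongr
      calc ((J / Qp : ℕ) : ℝ) * ∏ i, ‖Co (f i) (Q i) h‖ ≤ (Jm / Qp) * (‖Co (f i0) (Q i0) h‖ / Q i0 * Qp) :=
            mul_le_mul h3 h1 (prod_nonneg fun _ _ => norm_nonneg _) (by positivity)
        _ = _ := by field_simp
    rw [hβ]
    simp only
    refine add_le_add (add_le_add h2 le_rfl) ?_
    apply sum_le_sum
    intro i _
    apply mul_le_mul_of_nonneg_right _ (Nat.cast_nonneg _)
    have hQi : (0 : ℝ) < Q i := by exact_mod_cast hQ0 i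
    have : ((J / Q i : ℕ) : ℝ) ≤ Jm / Q i := by
      refine Nat.cast_div_le.trans ?_
      gcongr
    linarith
  · intro X hX1 hX2
    have hX0 : 0 ≤ X := le_trans (by positivity) hX1
    have hXp : (p i0 : ℝ) ^ K ≤ X := by
      refine le_trans ?_ hX1
      rw [pow_mul]
      exact pow_le_pow_left₀ (by positivity) hEc K
    have hh1 : q i0 + 1 < p i0 := by
      have h1 := hq i0
      have h2 : 3 * q i0 ≤ q i0 ^ 2 := by rw [sq]; exact Nat.mul_le_mul_right _ h1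
      show q i0 + 1 < q i0 ^ 2
      omega
    have t1 := Co_total (hp0 i0) (hfp i0) hh1 hρ0 hb0 hb1 (k := K) (i := M * K) (Nat.le_mul_of_pos_left K hM1) hXp
    have t1' : ∑ h ∈ Icc 1 ⌊X⌋₊, ‖Co (f i0) (Q i0) h‖ / Q i0 ≤ 2 * X * lam ^ (8 * K) := by
      rw [← sum_div, div_le_iff₀ (by exact_mod_cast hQ0 i0)]
      have e1 : (((p i0 : ℝ) - 1 + ρ) / (p i0 : ℝ)) ^ K = lam ^ (8 * K) := by rw [pow_mul, hlam8]
      rw [e1] at t1
      have e2 : (Q i0 : ℝ) = (p i0 : ℝ) ^ (M * K) := by rw [hQ]; push_cast; rfl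
      rw [e2]
      exact t1
    have hcard : ((Icc 1 ⌊X⌋₊).card : ℝ) ≤ X := by
      rw [Nat.card_Icc, Nat.add_sub_cancel]; exact Nat.floor_le hX0
    have t2 : ∑ h ∈ Icc 1 ⌊X⌋₊, ((Qp : ℝ) + ∑ i, (Jm / Q i + 1) * (h : ℝ)) ≤ X * (Qp + ∑ i, (Jm / Q i + 1) * A ^ K) := by
      have e1 : ∀ h ∈ Icc 1 ⌊X⌋₊, ((Qp : ℝ) + ∑ i, (Jm / Q i + 1) * (h : ℝ)) ≤ Qp + ∑ i, (Jm / Q i + 1) * A ^ K := by
        intro h hh
        rw [mem_Icc] at hh
        have h2 : (h : ℝ) ≤ A ^ K := ((Nat.le_floor_iff hX0).1 hh.2).trans hX2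
        gcongr
      refine (sum_le_sum e1).trans ?_
      rw [sum_const, nsmul_eq_mul]
      apply mul_le_mul_of_nonneg_right hcard
      have : 0 ≤ ∑ i, (Jm / Q i + 1) * A ^ K := sum_nonneg fun i _ => by positivity
      positivity
    have e0 : ∑ h ∈ Icc 1 ⌊X⌋₊, β h = Jm * ∑ h ∈ Icc 1 ⌊X⌋₊, ‖Co (f i0) (Q i0) h‖ / Q i0
        + ∑ h ∈ Icc 1 ⌊X⌋₊, ((Qp : ℝ) + ∑ i, (Jm / Q i + 1) * (h : ℝ)) := by
      rw [mul_sum, ← sum_add_distrib]
      apply sum_congr rfl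
      intro h _
      rw [hβ]; simp only; ring
    rw [e0]
    set D : ℝ := 2 ^ (5 * (E * K)) with hD
    have hD0 : 0 < D := by rw [hD]; positivity
    have s1 : D * (Jm * ∑ h ∈ Icc 1 ⌊X⌋₊, ‖Co (f i0) (Q i0) h‖ / Q i0) ≤ (2 * N) * (2 * X * lam ^ (8 * K)) := by
      rw [← mul_assoc]
      exact mul_le_mul hJm2 t1' (sum_nonneg fun _ _ => by positivity) (by positivity)
    have s2 : D * (Qp + ∑ i, (Jm / Q i + 1) * A ^ K) ≤ N * lam ^ (8 * K) + r * (3 * (N * lam ^ (8 * K))) := by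
      rw [mul_add]
      apply add_le_add
      · rw [hQpR, he5]; exact n2
      · rw [mul_sum]
        have s3 : ∀ i ∈ (univ : Finset ι), D * ((Jm / Q i + 1) * A ^ K) ≤ 3 * (N * lam ^ (8 * K)) := by
          intro i _
          have hQi : (0 : ℝ) < Q i := by exact_mod_cast hQ0 i
          have e1 : D * ((Jm / Q i + 1) * A ^ K) = (D * Jm) * (A ^ K / Q i) + D * A ^ K := by field_simp
          rw [e1]
          have e2 : (D * Jm) * (A ^ K / Q i) ≤ (2 * N) * lam ^ (8 * K) :=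
            mul_le_mul hJm2 (hQA i) (by positivity) (by positivity)
          have e3 : D * A ^ K ≤ N * lam ^ (8 * K) := by rw [he5]; exact n3
          linarith
        refine (sum_le_sum s3).trans ?_
        rw [sum_const, card_univ, nsmul_eq_mul]
    have s4 : D * ∑ h ∈ Icc 1 ⌊X⌋₊, ((Qp : ℝ) + ∑ i, (Jm / Q i + 1) * (h : ℝ)) ≤ X * (N * lam ^ (8 * K) + r * (3 * (N * lam ^ (8 * K)))) := by
      calc D * ∑ h ∈ Icc 1 ⌊X⌋₊, ((Qp : ℝ) + ∑ i, (Jm / Q i + 1) * (h : ℝ)) ≤ D * (X * (Qp + ∑ i, (Jm / Q i + 1) * A ^ K)) :=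
            mul_le_mul_of_nonneg_left t2 hD0.le
        _ = X * (D * (Qp + ∑ i, (Jm / Q i + 1) * A ^ K)) := by ring
        _ ≤ _ := mul_le_mul_of_nonneg_left s2 hX0
    rw [mul_add]
    refine (add_le_add s1 s4).trans (le_of_eq ?_)
    rw [hC1]; ring

end Pool.Agent.Y55.DS
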